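import Pool.Agent.W644.CY.Cols

/-!
# Alternation of functions of lists
-/

set_option autoImplicit false
set_option linter.unusedSectionVars false

namespace Pool.Agent.W644.CY

open Finset Pool.Agent.W644.HK Equiv

universe u v w x y

section alt

variable {α : Type u} [One α] {V : Type v} [AddCommGroup V]

/-- the permutation `0 ↦ i`, order preserving on the rest -/
def rho {n : ℕ} (i : Fin (n + 1)) : Perm (Fin (n + 1)) := i.cycleRange.symm

lemma rho_zero {n : ℕ} (i : Fin (n + 1)) : rho i 0 = i := Fin.cycleRange_symm_zero i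

lemma rho_succ {n : ℕ} (i : Fin (n + 1)) (j : Fin n) : rho i j.succ = i.succAbove j :=
  Fin.cycleRange_symm_succ i j

lemma sign_rho {n : ℕ} (i : Fin (n + 1)) : (Perm.sign (rho i) : ℤ) = (-1) ^ (i : ℕ) := by
  rw [rho, Perm.sign_symm, Fin.sign_cycleRange]
  simp

lemma alt_stepA {n : ℕ} (Φ : (Fin n → Fin (n + 1)) → V) (j : Fin (n + 1)) :
    ∑ σ : Perm (Fin (n + 1)), (Perm.sign σ : ℤ) • (-1 : ℤ) ^ (j : ℕ) •
      Φ (fun i => σ (j.succAbove i)) =
    ∑ σ : Perm (Fin (n + 1)), (Perm.sign σ : ℤ) • Φ (fun i => σ i.succ) := by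
  refine Fintype.sum_equiv (Equiv.mulRight (rho j)) _ _ fun σ => ?_
  rw [Equiv.coe_mulRight, Perm.sign_mul]
  simp only [Perm.coe_mul, Function.comp_apply, rho_succ]
  rw [smul_smul]
  congr 1
  push_cast
  rw [sign_rho]

lemma alt_stepB {n : ℕ} (Φ : (Fin n → Fin (n + 1)) → V) :
    ∑ σ : Perm (Fin (n + 1)), (Perm.sign σ : ℤ) • Φ (fun i => σ i.succ) =
    ∑ i : Fin (n + 1), ∑ σ : Perm (Fin n), (-1 : ℤ) ^ (i : ℕ) • (Perm.sign σ : ℤ) •
      Φ (fun x => i.succAbove (σ x)) := by
  rw [← Fintype.sum_prod_type']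
  symm
  refine Fintype.sum_bijective
    (fun x : Fin (n + 1) × Perm (Fin n) => rho x.1 * Perm.decomposeFin.symm (0, x.2)) ?_ _ _ ?_
  · rw [Fintype.bijective_iff_injective_and_card]
    refine ⟨?_, ?_⟩
    · rintro ⟨i, σ⟩ ⟨i', σ'⟩ h
      simp only at h
      have h0 := congrArg (fun τ : Perm (Fin (n + 1)) => τ 0) h
      simp only [Perm.coe_mul, Function.comp_apply, Perm.decomposeFin_symm_apply_zero,
        rho_zero] at h0
      subst h0
      have h1 := mul_left_cancel h
      have h2 := Perm.decomposeFin.symm.injective h1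
      simpa using h2
    · rw [Fintype.card_prod, Fintype.card_perm, Fintype.card_perm, Fintype.card_fin,
        Fintype.card_fin, Nat.factorial_succ]
  · rintro ⟨i, σ⟩
    simp only [Perm.sign_mul, Perm.decomposeFin.symm_sign, Perm.coe_mul, Function.comp_apply,
      Perm.decomposeFin_symm_apply_succ, swap_self, Equiv.refl_apply, rho_succ]
    rw [smul_smul]
    congr 1
    push_cast
    rw [sign_rho]
    simp

lemma alt_comb {n : ℕ} (Φ : (Fin n → Fin (n + 1)) → V) :
    ∑ σ : Perm (Fin (n + 1)), (Perm.sign σ : ℤ) • ∑ j : Fin (n + 1), (-1 : ℤ) ^ (j : ℕ) •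
      Φ (fun i => σ (j.succAbove i)) =
    (n + 1 : ℤ) • ∑ i : Fin (n + 1), (-1 : ℤ) ^ (i : ℕ) • ∑ σ : Perm (Fin n),
      (Perm.sign σ : ℤ) • Φ (fun x => i.succAbove (σ x)) := by
  have h1 : ∀ σ : Perm (Fin (n + 1)), (Perm.sign σ : ℤ) • ∑ j : Fin (n + 1),
      (-1 : ℤ) ^ (j : ℕ) • Φ (fun i => σ (j.succAbove i)) = ∑ j : Fin (n + 1),
      (Perm.sign σ : ℤ) • (-1 : ℤ) ^ (j : ℕ) • Φ (fun i => σ (j.succAbove i)) := fun σ => by
    rw [smul_sum]
  simp_rw [h1]
  rw [sum_comm]
  simp_rw [alt_stepA, alt_stepB]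
  rw [sum_const, card_univ, Fintype.card_fin, ← natCast_zsmul]
  push_cast
  congr 1
  apply sum_congr rfl
  intro i _
  rw [smul_sum]

/-- the alternation of a function of lists of length `n` -/
def AL (n : ℕ) (h : List α → V) (l : List α) : V :=
  ∑ σ : Perm (Fin n), (Perm.sign σ : ℤ) • h (reidx (fun i => (σ i : ℕ)) l)

lemma reidx_reidx {m m' : ℕ} (ι : Fin m → ℕ) (ι' : Fin m' → ℕ) (hι : ∀ i, ι i < m')
    (l : List α) : reidx ι (reidx ι' l) = reidx (fun i => ι' ⟨ι i, hι i⟩) l := by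
  unfold reidx
  congr 1
  funext i
  exact getD_reidx ι' l _ (hι i)

lemma reidx_eraseIdx {n : ℕ} (ι : Fin (n + 1) → ℕ) (l : List α) (j : Fin (n + 1)) :
    (reidx ι l).eraseIdx j = reidx (fun i => ι (j.succAbove i)) l := by
  apply List.ext_getElem
  · rw [List.length_eraseIdx_of_lt (by rw [length_reidx]; exact j.2)]
    simp
  · intro i h1 h2
    rw [List.getElem_eraseIdx]
    simp only [reidx, List.getElem_ofFn, Fin.succAbove, Fin.lt_def]
    split_ifs with h3 h4 h4
    · rfl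
    · exact absurd h3 h4
    · exact absurd h4 h3
    · rfl

lemma reidx_of_eraseIdx {n : ℕ} (f : Fin n → Fin n) (l : List α) (i : Fin (n + 1)) :
    reidx (fun x => (f x : ℕ)) (l.eraseIdx i) = reidx (fun x => (i.succAbove (f x) : ℕ)) l := by
  unfold reidx
  congr 1
  funext x
  rw [getD_eraseIdx']
  simp only [Fin.succAbove, Fin.lt_def]
  split_ifs with h3 h4 h4
  · rfl
  · exact absurd h3 h4
  · exact absurd h4 h3
  · rfl

lemma sum_bd_reidx (n : ℕ) (h : List α → V) (l : List α) (hl : l.length = n + 1) :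
    ∑ σ : Perm (Fin (n + 1)), (Perm.sign σ : ℤ) • bd h (reidx (fun i => (σ i : ℕ)) l) =
      (n + 1 : ℤ) • bd (AL n h) l := by
  have h1 := alt_comb fun f : Fin n → Fin (n + 1) => h (reidx (fun i => (f i : ℕ)) l)
  have h2 : ∀ σ : Perm (Fin (n + 1)), bd h (reidx (fun i => (σ i : ℕ)) l) =
      ∑ j : Fin (n + 1), (-1 : ℤ) ^ (j : ℕ) •
        h (reidx (fun i => (σ (j.succAbove i) : ℕ)) l) := by
    intro σ
    rw [bd_eq_sum, length_reidx, ← Fin.sum_univ_eq_sum_range
      fun j => (-1 : ℤ) ^ j • h ((reidx (fun i => (σ i : ℕ)) l).eraseIdx j)]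
    apply sum_congr rfl
    intro j _
    rw [reidx_eraseIdx]
  have h3 : bd (AL n h) l = ∑ i : Fin (n + 1), (-1 : ℤ) ^ (i : ℕ) • ∑ σ : Perm (Fin n),
      (Perm.sign σ : ℤ) • h (reidx (fun x => (i.succAbove (σ x) : ℕ)) l) := by
    rw [bd_eq_sum, hl, ← Fin.sum_univ_eq_sum_range
      fun j => (-1 : ℤ) ^ j • AL n h (l.eraseIdx j)]
    apply sum_congr rfl
    intro i _
    rw [AL]
    congr 1
    apply sum_congr rfl
    intro σ _
    rw [reidx_of_eraseIdx]
  simp_rw [h2]
  rw [h1, h3]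

lemma AL_perm (n : ℕ) (h : List α → V) (l : List α) (ρ : Perm (Fin n)) :
    AL n h (reidx (fun i => (ρ i : ℕ)) l) = (Perm.sign ρ : ℤ) • AL n h l := by
  rw [AL, AL, smul_sum]
  refine Fintype.sum_equiv (Equiv.mulLeft ρ) _ _ fun σ => ?_
  rw [reidx_reidx _ _ (fun i => (σ i).2), Equiv.coe_mulLeft, Perm.sign_mul, smul_smul]
  simp only [Perm.coe_mul, Function.comp_apply]
  congr 1
  have : ((Perm.sign ρ : ℤ)) * (Perm.sign ρ : ℤ) = 1 := by
    rw [← Units.val_mul, ← sq, Int.units_sq]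
    rfl
  push_cast
  rw [← mul_assoc, this, one_mul]

lemma rot1_eq_reidx {n : ℕ} (l : List α) (hl : l.length = n + 1) :
    rot1 l = reidx (fun i => (finRotate (n + 1) i : ℕ)) l := by
  match l, hl with
  | a :: l, hl =>
    have hl' : l.length = n := by simpa using hl
    apply ext_getD
    · simp [hl]
    · intro t ht
      have ht' : t < n + 1 := by rw [length_rot1, hl] at ht; exact ht
      rw [getD_reidx _ _ _ ht', rot1]
      by_cases h : t < n
      · rw [List.getD_append _ _ _ _ (by omega)]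
        have : ((finRotate (n + 1) ⟨t, ht'⟩ : Fin (n + 1)) : ℕ) = t + 1 := by
          rw [coe_finRotate_of_ne_last]
          intro hcon
          have := congrArg Fin.val hcon
          simp only [Fin.val_last] at this
          omega
        rw [this, List.getD_cons_succ]
      · have h3 : t = n := by omega
        subst h3
        rw [List.getD_append_right _ _ _ _ (by omega), hl']
        have : (⟨t, ht'⟩ : Fin (t + 1)) = Fin.last t := rfl
        rw [this, finRotate_last]
        simp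

lemma AL_rot1 (n : ℕ) (h : List α → V) (l : List α) (hl : l.length = n + 1) :
    AL (n + 1) h (rot1 l) = (-1 : ℤ) ^ n • AL (n + 1) h l := by
  rw [rot1_eq_reidx l hl, AL_perm, sign_finRotate]
  simp

end alt

end Pool.Agent.W644.CY
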