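import Pool.Agent.W644.CY.R1
import Pool.Agent.H290R4.ChernZ

/-!
# Integral group rings
-/

set_option autoImplicit false
set_option linter.unusedSectionVars false

namespace Pool.Agent.W644.CY

open Finset Pool.Agent.W644.HK Equiv Function

universe u v w x y z

section base

variable {A : Type u} [CommRing A] {K : Type x} [CommRing K] (ψ : A →+* K)
  {G : Type v} [Group G] {r : Type w} [Fintype r] [DecidableEq r] {𝒢 : Type y} [Group 𝒢]
  (θ : 𝒢 →ₙ* Matrix r r (MonoidAlgebra A G))

/-- base change -/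
noncomputable def baseHom : 𝒢 →ₙ* Matrix r r (MonoidAlgebra K G) where
  toFun x := ThM r ψ (MonoidHom.id G) (θ x)
  map_mul' x y := by rw [map_mul, map_mul]

lemma baseHom_coeff (x : 𝒢) (a b : r) (g : G) :
    (baseHom ψ θ x a b).coeff g = ψ ((θ x a b).coeff g) := by
  show (MonoidAlgebra.map (ψ : A →+ K)
    (MonoidAlgebra.mapDomain (MonoidHom.id G) (θ x a b))).coeff g = _
  have h1 : MonoidAlgebra.mapDomain (MonoidHom.id G) (θ x a b) = θ x a b := by
    ext g'
    simp
  rw [h1]
  simp

lemma cl_base {n : ℕ} (c : G → (Fin (n + 1) → G) → A) (P : G) (l : List G) :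
    ψ (cl c P l) = cl (fun P y => ψ (c P y)) P l := by
  unfold cl
  split_ifs
  · rfl
  · exact map_zero ψ

lemma JJ_base {n : ℕ} (c : G → (Fin (n + 1) → G) → A) (w : List 𝒢) :
    JJ (baseHom ψ θ) (cl fun P y => ψ (c P y)) w = ψ (JJ θ (cl c) w) := by
  have h3 : (cw w).map (baseHom ψ θ) = ((cw w).map θ).map (ThM r ψ (MonoidHom.id G)) := by
    rw [List.map_map]
    rfl
  rw [JJ, h3]
  refine TT_Th ψ (MonoidHom.id G) ψ.toAddMonoidHom (fun c v => ?_) _ _
    (CF (cl fun P y => ψ (c P y))) (CF (cl c)) ?_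
  · exact map_mul ψ c v
  · intro l
    show ψ (CF (cl c) l) = _
    unfold CF
    rw [cl_base]
    congr 1
    · simp
    · simp

lemma chern_base {n : ℕ} (c : G → (Fin (n + 1) → G) → A) (z : (Fin (n + 1) → 𝒢) →₀ ℤ) :
    chern (baseHom ψ θ) (fun P y => ψ (c P y)) z = ψ (chern θ c z) := by
  rw [chern_eq, chern_eq, map_sum]
  apply sum_congr rfl
  intro γ _
  rw [JJ_base, map_zsmul]

lemma class_base {n : ℕ} (c : G → (Fin (n + 1) → G) → A) (hc : IsClassCocycle c) :
    IsClassCocycle fun P y => ψ (c P y) where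
  equivariant x P y := by rw [hc.equivariant]
  alternating P y σ := by rw [hc.alternating, map_zsmul]
  invariant P y i := by rw [hc.invariant]
  cocycle P y := by
    have h := congrArg ψ (hc.cocycle P y)
    rw [map_sum, map_zero] at h
    rw [← h]
    apply sum_congr rfl
    intro i _
    rw [map_zsmul]

lemma restrictTo_base {n : ℕ} (S : Set G) (c : G → (Fin (n + 1) → G) → A) :
    restrictTo S (fun P y => ψ (c P y)) = fun P y => ψ (restrictTo S c P y) := by
  funext P y
  unfold restrictTo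
  split_ifs
  · rfl
  · exact (map_zero ψ).symm

end base

section resfin

/-- in a residually finite group, `g ≠ 1` has no roots of order a large power of some prime -/
lemma exists_prime_pow {H : Type*} [Group H] [Group.ResiduallyFinite H] (g : H) (hg : g ≠ 1) :
    ∃ p : ℕ, p.Prime ∧ ∃ t : ℕ, ∀ x : H, x ^ p ^ t ≠ g := by
  obtain ⟨N, hN⟩ := Group.exists_finiteIndexNormalSubgroup_notMem g hg
  have : N.toSubgroup.Normal := inferInstance
  have : N.toSubgroup.FiniteIndex := inferInstance
  have : Finite (H ⧸ N.toSubgroup) := inferInstance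
  set x : H ⧸ N.toSubgroup := QuotientGroup.mk g with hx
  have hx1 : x ≠ 1 := by
    intro hc
    apply hN
    rw [hx, QuotientGroup.eq_one_iff] at hc
    exact hc
  have ho : orderOf x ≠ 1 := by
    rwa [Ne, orderOf_eq_one_iff]
  obtain ⟨p, hp, hpd⟩ := Nat.exists_prime_and_dvd ho
  set n : ℕ := Nat.card (H ⧸ N.toSubgroup) with hn
  have hn0 : n ≠ 0 := Nat.card_pos.ne'
  refine ⟨p, hp, n.factorization p, fun y hy => ?_⟩
  have h1 : (QuotientGroup.mk y : H ⧸ N.toSubgroup) ^ p ^ n.factorization p = x := by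
    rw [hx, ← QuotientGroup.mk_pow, hy]
  have h2 : x ^ (n / p ^ n.factorization p) = 1 := by
    rw [← h1, ← pow_mul, Nat.ordProj_mul_ordCompl_eq_self, hn]
    exact pow_card_eq_one'
  exact Nat.not_dvd_ordCompl hp hn0 (hpd.trans (orderOf_dvd_of_pow_eq_one h2))

end resfin

section int

variable {A : Type u} [CommRing A] [IsDomain A] [CharZero A]
  {G : Type v} [Group G] {r : Type w} [Fintype r] [DecidableEq r] {𝒢 : Type y} [Group 𝒢]
  (θ : 𝒢 →ₙ* Matrix r r (MonoidAlgebra A G))

lemma one_conj (x P : G) : x * P * x⁻¹ ∈ ({1} : Set G) ↔ P ∈ ({1} : Set G) := by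
  rw [Set.mem_singleton_iff, Set.mem_singleton_iff]
  constructor
  · intro h
    have h2 : P = x⁻¹ * (x * P * x⁻¹) * x := by group
    rw [h2, h]
    group
  · rintro rfl
    group

theorem r2_aux {K : Type x} [Field K] [CharZero K] (ψ : A →+* K) (hinj : Function.Injective ψ)
    {n : ℕ} (c : G → (Fin (n + 2) → G) → A) (hc : IsClassCocycle c)
    (s : Finset A) (hs : ∀ P y, c P y ∈ Algebra.adjoin ℤ (s : Set A))
    (hG : ∀ H : Subgroup G, H.FG → ∀ g ∈ H, g ≠ 1 → (∃ y, c g y ≠ 0) →
      ∃ p : ℕ, p.Prime ∧ ¬ IsUnit (p : A) ∧ ∃ t : ℕ, ∀ x ∈ H, x ^ p ^ t ≠ g)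
    (z : (Fin (n + 2) → 𝒢) →₀ ℤ) (hz : IsCyclicCycle z) :
    ((n + 2).factorial : A) * chern θ c z = chern θ (restrictTo {1} c) (alternation z) := by
  classical
  have hc' := class_base ψ c hc
  set c' : G → (Fin (n + 2) → G) → K := fun P y => ψ (c P y) with hc'def
  have hsc : ∀ x P : G, x * P * x⁻¹ ∈ ({1} : Set G)ᶜ ↔ P ∈ ({1} : Set G)ᶜ := fun x P =>
    not_congr (one_conj x P)
  set s1 : Finset K := s.image ψ with hs1
  have hadj : ∀ P y, c' P y ∈ Algebra.adjoin ℤ (s1 : Set K) := by
    intro P y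
    have h1 : ψ.toIntAlgHom (c P y) ∈ (Algebra.adjoin ℤ (s : Set A)).map ψ.toIntAlgHom :=
      ⟨c P y, hs P y, rfl⟩
    rw [AlgHom.map_adjoin] at h1
    rw [hs1, Finset.coe_image]
    exact h1
  have hθψ : ∀ (x : 𝒢) a b g, (baseHom ψ θ x a b).coeff g ∈ ψ.range := by
    intro x a b g
    rw [baseHom_coeff]
    exact ⟨_, rfl⟩
  -- the part away from `1`
  have h1 : chern (baseHom ψ θ) (restrictTo {1}ᶜ c') z = 0 := by
    set s' : Finset K := s1 ∪ coefs (baseHom ψ θ) (diffs z.support fun γ => List.ofFn γ) with hs'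
    have hs'range : ∀ a ∈ Algebra.adjoin ℤ (s' : Set K), a ∈ ψ.range := by
      have h2 : Algebra.adjoin ℤ (s' : Set K) ≤ subalgebraOfSubring ψ.range := by
        rw [Algebra.adjoin_le_iff]
        intro a ha
        rw [hs', Finset.coe_union, Set.mem_union, Finset.mem_coe, Finset.mem_coe] at ha
        rcases ha with ha | ha
        · rw [hs1, mem_image] at ha
          obtain ⟨b, _, rfl⟩ := ha
          exact ⟨b, rfl⟩
        · unfold coefs at ha
          obtain ⟨x, _, ha⟩ := mem_biUnion.1 ha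
          obtain ⟨i, _, ha⟩ := mem_biUnion.1 ha
          obtain ⟨j, _, ha⟩ := mem_biUnion.1 ha
          obtain ⟨g, _, rfl⟩ := mem_image.1 ha
          exact hθψ x i j g
      intro a ha
      exact h2 ha
    rw [chern_eq]
    refine vanish_core (baseHom ψ θ) (n + 1) (by omega) _ (class_restrictTo c' hc' {1}ᶜ hsc)
      (Algebra.adjoin ℤ (s' : Set K)).toSubring ?_ ?_ z.support z (fun γ => List.ofFn γ)
      (isLam_of_cycle z hz K) ?_
    · intro P y
      unfold restrictTo
      split_ifs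
      · exact Algebra.adjoin_mono (by rw [hs', Finset.coe_union]; exact Set.subset_union_left)
          (hadj P y)
      · exact Subalgebra.zero_mem _
    · rintro H hH g hg ⟨y, hy⟩
      unfold restrictTo at hy
      split_ifs at hy with h
      · obtain ⟨p, hp, hpu, t, ht⟩ := hG H hH g hg h ⟨y, fun h0 => hy (by
          rw [hc'def]
          simp only [h0, map_zero])⟩
        refine ⟨p, hp, psep_of_not_inv s' p hp ?_, t, ht⟩
        intro hmem
        obtain ⟨b, hb⟩ := hs'range _ hmem
        apply hpu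
        rw [isUnit_iff_exists_inv]
        refine ⟨b, hinj ?_⟩
        rw [map_mul, hb, map_natCast, map_one]
        exact mul_inv_cancel₀ (by exact_mod_cast hp.ne_zero)
      · exact absurd rfl hy
    · intro γ hγ u hu v hv a b g
      exact mem_adjoin_coefs _ _ s' subset_union_right _ (mem_diffs _ _ γ hγ u v hu hv) a b g
  -- the component of `1`
  have h2 : ((n + 2).factorial : K) * chern (baseHom ψ θ) (restrictTo {1} c') z =
      chern (baseHom ψ θ) (restrictTo {1} c') (alternation z) := by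
    refine chern_fin _ _ (class_restrictTo c' hc' {1} one_conj) s1 ?_ ?_ z hz
    · intro P y
      unfold restrictTo
      split_ifs
      · exact hadj _ _
      · exact Subalgebra.zero_mem _
    · intro P y hP
      apply if_neg
      intro h
      rw [Set.mem_singleton_iff] at h
      apply hP
      rw [h]
      exact isOfFinOrder_iff_pow_eq_one.2 ⟨1, one_pos, one_pow 1⟩
  have h3 : ((n + 2).factorial : K) * chern (baseHom ψ θ) c' z =
      chern (baseHom ψ θ) (restrictTo {1} c') (alternation z) := by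
    rw [chern_add (baseHom ψ θ) c' {1} z, h1, add_zero, h2]
  apply hinj
  rw [map_mul, map_natCast, ← chern_base, ← chern_base, ← restrictTo_base]
  exact h3

theorem r2_main {n : ℕ} (c : G → (Fin (n + 2) → G) → A) (hc : IsClassCocycle c)
    (s : Finset A) (hs : ∀ P y, c P y ∈ Algebra.adjoin ℤ (s : Set A))
    (hG : ∀ H : Subgroup G, H.FG → ∀ g ∈ H, g ≠ 1 → (∃ y, c g y ≠ 0) →
      ∃ p : ℕ, p.Prime ∧ ¬ IsUnit (p : A) ∧ ∃ t : ℕ, ∀ x ∈ H, x ^ p ^ t ≠ g)
    (z : (Fin (n + 2) → 𝒢) →₀ ℤ) (hz : IsCyclicCycle z) :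
    ((n + 2).factorial : A) * chern θ c z = chern θ (restrictTo {1} c) (alternation z) := by
  have hinj : Function.Injective (algebraMap A (FractionRing A)) :=
    IsFractionRing.injective A (FractionRing A)
  have : CharZero (FractionRing A) := charZero_of_injective_algebraMap hinj
  exact r2_aux θ (algebraMap A (FractionRing A)) hinj c hc s hs hG z hz

theorem r2_zero {n : ℕ} (c : G → (Fin (n + 2) → G) → A) (hc : IsClassCocycle c)
    (s : Finset A) (hs : ∀ P y, c P y ∈ Algebra.adjoin ℤ (s : Set A))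
    (hG : ∀ H : Subgroup G, H.FG → ∀ g ∈ H, g ≠ 1 → (∃ y, c g y ≠ 0) →
      ∃ p : ℕ, p.Prime ∧ ¬ IsUnit (p : A) ∧ ∃ t : ℕ, ∀ x ∈ H, x ^ p ^ t ≠ g)
    (z : (Fin (n + 2) → 𝒢) →₀ ℤ) (hz : IsCyclicCycle z) (hz0 : IsRationallyZero z) :
    chern θ c z = 0 := by
  have h1 := r2_main θ c hc s hs hG z hz
  have hinj : Function.Injective (algebraMap A (FractionRing A)) :=
    IsFractionRing.injective A (FractionRing A)
  have : CharZero (FractionRing A) := charZero_of_injective_algebraMap hinj
  have h2 : chern θ (restrictTo {1} c) (alternation z) = 0 := by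
    apply hinj
    rw [← chern_base, map_zero]
    refine chern_alt_zero _ _ ?_ z hz0
    rw [← restrictTo_base]
    exact class_restrictTo _ (class_base _ c hc) {1} one_conj
  rw [h2] at h1
  rcases mul_eq_zero.1 h1 with h3 | h3
  · exfalso
    have : ((n + 2).factorial : A) ≠ 0 := by exact_mod_cast Nat.factorial_ne_zero _
    exact this h3
  · exact h3

/-- an idempotent matrix as a homomorphism -/
def idemHom' (e : Matrix r r (MonoidAlgebra A G)) (he : e * e = e) :
    Unit →ₙ* Matrix r r (MonoidAlgebra A G) where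
  toFun _ := e
  map_mul' _ _ := he.symm

theorem r2_idem {n : ℕ} (c : G → (Fin (n + 2) → G) → A) (hc : IsClassCocycle c)
    (s : Finset A) (hs : ∀ P y, c P y ∈ Algebra.adjoin ℤ (s : Set A))
    (hG : ∀ H : Subgroup G, H.FG → ∀ g ∈ H, g ≠ 1 → (∃ y, c g y ≠ 0) →
      ∃ p : ℕ, p.Prime ∧ ¬ IsUnit (p : A) ∧ ∃ t : ℕ, ∀ x ∈ H, x ^ p ^ t ≠ g)
    (e : Matrix r r (MonoidAlgebra A G)) (he : e * e = e) :
    classPairing c (fun _ : Fin (n + 2) => e) = 0 := by
  have h1 := r2_zero (idemHom' e he) c hc s hs hG _ (idem_cycle n) (idem_zero n)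
  rw [chern, Finsupp.sum_single_index (by simp)] at h1
  rcases smul_eq_zero.1 h1 with h2 | h2
  · exact absurd h2 two_ne_zero
  · exact h2

end int

end Pool.Agent.W644.CY
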