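import Pool.Agent.W644.CY.Orb

/-!
# Vanishing on components of elements with bounded `p`-divisibility
-/

set_option autoImplicit false
set_option linter.unusedSectionVars false

namespace Pool.Agent.W644.CY

open Finset Pool.Agent.W644.HK Equiv Function

universe u v w x y z

section supps

variable {k : Type u} [CommRing k] {G : Type v} [Group G] {r : Type w} [Fintype r]
  {𝒢 : Type y} [Group 𝒢] (θ : 𝒢 →ₙ* Matrix r r (MonoidAlgebra k G))

open Classical in
/-- the group elements occurring in a list of matrices -/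
noncomputable def supps (xs : Finset 𝒢) : Finset G :=
  xs.biUnion fun x => univ.biUnion fun a => univ.biUnion fun b => (θ x a b).coeff.support

lemma subset_supps (xs : Finset 𝒢) (x : 𝒢) (hx : x ∈ xs) (a b : r) :
    (θ x a b).coeff.support ⊆ supps θ xs := by
  classical
  intro g hg
  exact mem_biUnion.2 ⟨x, hx, mem_biUnion.2 ⟨a, mem_univ _, mem_biUnion.2 ⟨b, mem_univ _, hg⟩⟩⟩

lemma mem_supps (xs : Finset 𝒢) (H : Subgroup G)
    (h : ∀ x ∈ xs, ∀ a b, ∀ g ∈ (θ x a b).coeff.support, g ∈ H) : ∀ g ∈ supps θ xs, g ∈ H := by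
  classical
  intro g hg
  obtain ⟨x, hx, hg⟩ := mem_biUnion.1 hg
  obtain ⟨a, _, hg⟩ := mem_biUnion.1 hg
  obtain ⟨b, _, hg⟩ := mem_biUnion.1 hg
  exact h x hx a b g hg

end supps

section bdd

variable {K : Type u} [Field K] [CharZero K] {G : Type v} [Group G] {r : Type w} [Fintype r]
  [DecidableEq r] {𝒢 : Type y} [Group 𝒢] (θ : 𝒢 →ₙ* Matrix r r (MonoidAlgebra K G))

lemma JJ_mem (A : Subring K) (c : G → List G → K) (hcA : ∀ P l, c P l ∈ A) (w : List 𝒢)
    (hA : ∀ x ∈ cw w, ∀ a b g, (θ x a b).coeff g ∈ A) : JJ θ c w ∈ A := by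
  classical
  rw [JJ_eq_LS θ (supps θ (cw w).toFinset) w
    (fun x hx a b => subset_supps θ _ x (List.mem_toFinset.2 hx) a b)]
  apply A.sum_mem
  intro l _
  rw [smul_eq_mul]
  apply A.mul_mem
  · apply wgt_mem
    intro X hX
    obtain ⟨x, hx, rfl⟩ := List.mem_map.1 hX
    exact hA x hx
  · exact hcA _ _

theorem bounded_core (n : ℕ) (hn : 1 ≤ n) (c : G → List G → K) (hc : Coc (n + 1) c)
    (A : Subring K) (hcA : ∀ P l, c P l ∈ A) (p : ℕ) (hp : p.Prime)
    (hsep : ∀ y ∈ A, (∀ a : ℕ, ∃ z ∈ A, y = (p : K) ^ a * z) → y = 0)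
    (H : Subgroup G) (s1 : ℕ) (hH : ∀ x ∈ H, ∀ l, c (x ^ p ^ s1) l = 0)
    {ι : Type z} (I : Finset ι) (mu : ι → ℤ) (w : ι → List 𝒢) (hw : IsLam K n I mu w)
    (hwH : ∀ i ∈ I, ∀ u ∈ w i, ∀ v ∈ w i, ∀ a b, ∀ g ∈ (θ (u⁻¹ * v) a b).coeff.support, g ∈ H)
    (hwA : ∀ i ∈ I, ∀ u ∈ w i, ∀ v ∈ w i, ∀ a b g, (θ (u⁻¹ * v) a b).coeff g ∈ A) :
    Phi θ (n + 1) c I mu w 1 = 0 := by
  classical
  have hSA : ∀ σ : Perm (Fin (n + 1)), Phi θ (n + 1) c I mu w σ ∈ A := by
    intro σ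
    apply A.zsmul_mem
    refine A.sum_mem fun i hi => A.zsmul_mem ?_ _
    apply JJ_mem θ A c hcA
    intro x hx a b g
    obtain ⟨u, hu, v, hv, rfl⟩ := mem_cw _ x hx
    exact hwA i hi u (mem_reidx σ _ (hw.len i hi) u hu) v (mem_reidx σ _ (hw.len i hi) v hv) a b g
  have h1 := concl_powers A p hp.ne_zero hsep (n + 1) (Sf (n + 1) (Phi θ (n + 1) c I mu w))
    (fun ℓ => A.sum_mem fun β _ => hSA _) ((p ^ s1) ^ (n + 1) * p ^ s1)
    (Nat.mul_ne_zero (pow_ne_zero _ (pow_ne_zero _ hp.ne_zero)) (pow_ne_zero _ hp.ne_zero)) s1 (by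
      intro a ha
      have h2 : ∀ i ∈ I, ∃ z ∈ A, ((p ^ s1 : ℕ) : K) ^ (n + 1) *
          TE θ (p ^ a) (fun _ => rk (p ^ a)) true c (w i) = (p : K) ^ (a - s1) * z := by
        intro i hi
        refine TE_mem_pow θ A (n + 1) p a s1 (by omega) hp ha c hc.equiv hc.inv hcA H hH (w i)
          (hw.len i hi) (supps θ (cw (w i)).toFinset) ?_
          (fun x hx a b => subset_supps θ _ x (List.mem_toFinset.2 hx) a b) ?_
        · apply mem_supps
          intro x hx a b g hg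
          obtain ⟨u, hu, v, hv, rfl⟩ := mem_cw _ x (List.mem_toFinset.1 hx)
          exact hwH i hi u hu v hv a b g hg
        · intro x hx a b g
          obtain ⟨u, hu, v, hv, rfl⟩ := mem_cw _ x hx
          exact hwA i hi u hu v hv a b g
      choose! z hz hzeq using h2
      refine ⟨∑ i ∈ I, mu i • z i, A.sum_mem fun i hi => A.zsmul_mem (hz i hi) _, ?_⟩
      rw [← universal θ (p ^ a) (pow_pos hp.pos a) (rk (p ^ a)) (good_rk _ (pow_pos hp.pos a)) n hn
        c hc I mu w hw, Rat.smul_def]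
      have h3 : ((p ^ s1 : ℕ) : K) ^ (n + 1) *
          ∑ i ∈ I, mu i • TE θ (p ^ a) (fun _ => rk (p ^ a)) true c (w i) =
          (p : K) ^ (a - s1) * ∑ i ∈ I, mu i • z i := by
        rw [mul_sum, mul_sum]
        apply sum_congr rfl
        intro i hi
        rw [mul_smul_comm, hzeq i hi, mul_smul_comm]
      have h4 : (p : K) ^ (a - s1) * (p : K) ^ s1 = (p : K) ^ a := by
        rw [← pow_add]
        congr 1
        omega
      push_cast at h3 ⊢
      calc ((p : K) ^ s1) ^ (n + 1) * (p : K) ^ s1 * (((p : K) ^ a) ^ (n + 1) *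
            ∑ i ∈ I, mu i • TE θ (p ^ a) (fun _ => rk (p ^ a)) true c (w i))
          = (p : K) ^ s1 * ((p : K) ^ a) ^ (n + 1) * (((p : K) ^ s1) ^ (n + 1) *
            ∑ i ∈ I, mu i • TE θ (p ^ a) (fun _ => rk (p ^ a)) true c (w i)) := by ring
        _ = ((p : K) ^ a) ^ (n + 1) * ((p : K) ^ (a - s1) * (p : K) ^ s1) *
            ∑ i ∈ I, mu i • z i := by rw [h3]; ring
        _ = ((p : K) ^ a) ^ (n + 1 + 1) * ∑ i ∈ I, mu i • z i := by rw [h4]; ring) 1
  rwa [sum_choose_one] at h1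

end bdd

end Pool.Agent.W644.CY
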