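import Pool.Agent.W644.CY.Words

/-!
# Repeated words and their columns
-/

set_option autoImplicit false
set_option linter.unusedSectionVars false

namespace Pool.Agent.W644.CY

open Finset Pool.Agent.W644.HK

universe u v w x y

section cols

variable {G : Type v} [Group G]

/-- quasi-periodic extension of a list of points -/
def qext (P : G) (M : ℕ) (l : List G) (t : ℕ) : G := P ^ (t / M) * l.getD (t % M) 1

/-- the columns of a quasi-closed path of length `q * N` -/
def colsOf (q N : ℕ) (P : G) (l : List G) : List (ℕ → G) :=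
  List.ofFn fun i : Fin N => fun b => qext P (q * N) l (i + b * N)

/-- the `q`-fold repetition of a word -/
def rep {α : Type*} [One α] (q : ℕ) (w : List α) : List α :=
  List.ofFn fun t : Fin (q * w.length) => w.getD (t % w.length) 1

@[simp] lemma length_rep {α : Type*} [One α] (q : ℕ) (w : List α) :
    (rep q w).length = q * w.length := by simp [rep]

@[simp] lemma length_colsOf (q N : ℕ) (P : G) (l : List G) : (colsOf q N P l).length = N := by
  simp [colsOf]

lemma getD_rep {α : Type*} [One α] (q : ℕ) (w : List α) (t : ℕ) (ht : t < q * w.length) :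
    (rep q w).getD t 1 = w.getD (t % w.length) 1 := by
  rw [List.getD_eq_getElem _ _ (by simpa using ht)]
  simp [rep]

lemma idx_div (q N i b : ℕ) (hi : i < N) : (i + b * N) / (q * N) = b / q := by
  have hN : 0 < N := by omega
  rw [mul_comm q N, ← Nat.div_div_eq_div_mul, Nat.add_mul_div_right _ _ hN,
    Nat.div_eq_of_lt hi, zero_add]

lemma idx_mod (q N i b : ℕ) (hi : i < N) : (i + b * N) % (q * N) = i + (b % q) * N := by
  have hN : 0 < N := by omega
  rw [mul_comm q N, Nat.mod_mul, Nat.add_mul_mod_self_right, Nat.mod_eq_of_lt hi,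
    Nat.add_mul_div_right _ _ hN, Nat.div_eq_of_lt hi, zero_add, mul_comm]

lemma qext_col (q N : ℕ) (P : G) (l : List G) (i b : ℕ) (hi : i < N) :
    qext P (q * N) l (i + b * N) = P ^ (b / q) * l.getD (i + (b % q) * N) 1 := by
  rw [qext, idx_div q N i b hi, idx_mod q N i b hi]

lemma qext_add (P : G) (M : ℕ) (hM : 0 < M) (l : List G) (t : ℕ) :
    qext P M l (t + M) = P * qext P M l t := by
  rw [qext, qext, Nat.add_div_right _ hM, Nat.add_mod_right, pow_succ', mul_assoc]

lemma qext_rotP (P : G) (M : ℕ) (hM : 0 < M) (l : List G) (hl : l.length = M) (t : ℕ) :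
    qext P M (rotP P l) t = qext P M l (t + 1) := by
  match l, hl with
  | [], hl => exact absurd hl (by simp only [List.length_nil]; omega)
  | a :: l, hl =>
    have hlt : t % M < M := Nat.mod_lt _ hM
    have hl' : l.length + 1 = M := by simpa using hl
    rw [qext, qext, rotP]
    by_cases h : t % M + 1 < M
    · have h1 : (t + 1) / M = t / M := by
        rw [Nat.succ_div, if_neg]
        · rfl
        · intro hdvd
          have h2 : (t + 1) % M = 0 := Nat.mod_eq_zero_of_dvd hdvd
          rw [Nat.add_mod, Nat.mod_eq_of_lt (show 1 < M by omega), Nat.mod_eq_of_lt h] at h2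
          omega
      have h2 : (t + 1) % M = t % M + 1 := by
        rw [Nat.add_mod, Nat.mod_eq_of_lt (show 1 < M by omega), Nat.mod_eq_of_lt h]
      rw [h1, h2, List.getD_cons_succ, List.getD_append _ _ _ _ (by omega)]
    · have h3 : t % M + 1 = M := by omega
      have h4 : M ∣ t + 1 := by
        have h5 := Nat.div_add_mod t M
        exact ⟨t / M + 1, by rw [mul_add, mul_one]; omega⟩
      have h1 : (t + 1) / M = t / M + 1 := by rw [Nat.succ_div, if_pos h4]
      have h2 : (t + 1) % M = 0 := Nat.mod_eq_zero_of_dvd h4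
      rw [h1, h2, List.getD_cons_zero, List.getD_append_right _ _ _ _ (by omega),
        show t % M - l.length = 0 by omega, List.getD_cons_zero, pow_succ]
      group

/-- quasi-periodic columns -/
def QP (q : ℕ) (P : G) (Y : ℕ → G) : Prop := ∀ b, Y (b + q) = P * Y b

lemma qp_colsOf (q N : ℕ) (hq : 0 < q) (P : G) (l : List G) :
    ∀ Y ∈ colsOf q N P l, QP q P Y := by
  intro Y hY b
  obtain ⟨i, rfl⟩ := (List.mem_ofFn' _ _).1 hY
  have hi := i.2
  simp only []
  rw [add_mul, ← add_assoc, qext_add]
  exact Nat.mul_pos hq (by omega)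

/-- shift of the first column and rotation -/
def rotS : List (ℕ → G) → List (ℕ → G)
  | [] => []
  | Y :: L => L ++ [fun b => Y (b + 1)]

@[simp] lemma length_rotS (L : List (ℕ → G)) : (rotS L).length = L.length := by
  match L with
  | [] => rfl
  | a :: l => simp [rotS]

lemma colsOf_rotP (q N : ℕ) (hq : 0 < q) (P : G) (l : List G) (hl : l.length = q * N) :
    colsOf q N P (rotP P l) = rotS (colsOf q N P l) := by
  match N, hl with
  | 0, _ => simp [colsOf, rotS]
  | N + 1, hl =>
    have hM : 0 < q * (N + 1) := Nat.mul_pos hq (by omega)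
    have h1 : colsOf q (N + 1) P l = (fun b => qext P (q * (N + 1)) l (0 + b * (N + 1))) ::
        List.ofFn fun i : Fin N => fun b => qext P (q * (N + 1)) l ((i + 1) + b * (N + 1)) := by
      rw [colsOf, List.ofFn_succ]
      rfl
    rw [h1, rotS, colsOf, List.ofFn_succ', List.concat_eq_append]
    congr 1
    · congr 1
      funext i b
      rw [qext_rotP _ _ hM _ hl]
      congr 1
      simp only [Fin.val_castSucc]
      ring
    · congr 1
      funext b
      rw [qext_rotP _ _ hM _ hl]
      congr 1
      simp only [Fin.val_last]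
      ring

lemma colsOf_conj (q N : ℕ) (hq : 0 < q) (x P : G) (l : List G) (hl : l.length = q * N) :
    colsOf q N (x * P * x⁻¹) (l.map (x * ·)) = (colsOf q N P l).map fun Y b => x * Y b := by
  rw [colsOf, colsOf, List.map_ofFn]
  congr 1
  funext i b
  have hi := i.2
  have hM : 0 < q * N := Nat.mul_pos hq (by omega)
  have hlt := Nat.mod_lt (i + b * N) hM
  rw [Function.comp_apply]
  unfold qext
  simp only []
  rw [List.getD_eq_getElem _ _ (by rw [List.length_map]; omega),
    List.getD_eq_getElem _ _ (by omega), List.getElem_map, conj_pow]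
  group

end cols

section Tq

variable {k : Type u} [CommRing k] {G : Type v} [Group G] {r : Type w} [Fintype r] [DecidableEq r]
  {V : Type x} [AddCommGroup V] [Module k V] {𝒢 : Type y} [Group 𝒢]

/-- equivariance of functions of columns -/
def EqvC (n : ℕ) (F : G → List (ℕ → G) → V) : Prop :=
  ∀ x P L, L.length = n → F (x * P * x⁻¹) (L.map fun Y b => x * Y b) = F P L

variable (θ : 𝒢 →ₙ* Matrix r r (MonoidAlgebra k G))

/-- the functional of a function of columns -/
noncomputable def Tq (q : ℕ) (F : G → List (ℕ → G) → V) (w : List 𝒢) : V :=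
  JJ θ (fun P l => F P (colsOf q w.length P l)) (rep q w)

lemma eqv_cols (q N : ℕ) (hq : 0 < q) (F : G → List (ℕ → G) → V) (hF : EqvC N F) :
    Eqv (q * N) (fun P l => F P (colsOf q N P l)) := by
  intro x P l hl
  simp only []
  rw [colsOf_conj q N hq x P l hl]
  exact hF x P _ (by simp)

lemma Tq_congr (q : ℕ) (hq : 0 < q) (F F' : G → List (ℕ → G) → V) (w : List 𝒢)
    (h : ∀ P (L : List (ℕ → G)), L.length = w.length → (∀ Y ∈ L, QP q P Y) → F P L = F' P L) :
    Tq θ q F w = Tq θ q F' w := by
  apply JJ_congr'
  intro P l hl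
  exact h _ _ (by simp) (qp_colsOf q _ hq P l)

lemma Tq_sub (q : ℕ) (F F' : G → List (ℕ → G) → V) (w : List 𝒢) :
    Tq θ q (fun P L => F P L - F' P L) w = Tq θ q F w - Tq θ q F' w := JJ_sub _ _ _ _

lemma Tq_zsmul (q : ℕ) (c : ℤ) (F : G → List (ℕ → G) → V) (w : List 𝒢) :
    Tq θ q (fun P L => c • F P L) w = c • Tq θ q F w := JJ_zsmul _ _ _ _

lemma Tq_sum {ι : Type*} (I : Finset ι) (q : ℕ) (F : ι → G → List (ℕ → G) → V) (w : List 𝒢) :
    Tq θ q (fun P L => ∑ i ∈ I, F i P L) w = ∑ i ∈ I, Tq θ q (F i) w := JJ_sum _ _ _ _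

lemma Tq_rot (q : ℕ) (hq : 0 < q) (F : G → List (ℕ → G) → V) (w : List 𝒢)
    (hF : EqvC w.length F) :
    Tq θ q F (rot1 w) = Tq θ q (fun P L => F P (rotS L)) w := by
  have h1 : rep q (rot1 w) = rot1 (rep q w) := by
    match w with
    | [] => simp [rot1, rep]
    | a :: w =>
      have hN : 0 < w.length + 1 := by omega
      have hM : 0 < q * (w.length + 1) := Nat.mul_pos hq hN
      apply ext_getD
      · simp
      · intro t ht
        have ht' : t < q * (w.length + 1) := by simpa using ht
        rw [getD_rep _ _ _ (by simpa using ht'), length_rot1]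
        have h2' : ∀ (l : List 𝒢) (t : ℕ), t < l.length →
            (rot1 l).getD t 1 = l.getD ((t + 1) % l.length) 1 := by
          intro l t ht
          match l, ht with
          | b :: l, ht =>
            rw [List.length_cons] at ht
            rw [rot1]
            by_cases h : t < l.length
            · rw [List.getD_append _ _ _ _ h, List.length_cons, Nat.mod_eq_of_lt (by omega),
                List.getD_cons_succ]
            · have h3 : t = l.length := by omega
              subst h3
              rw [List.getD_append_right _ _ _ _ le_rfl]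
              simp
        have hlt := Nat.mod_lt t (show 0 < (a :: w).length by simp)
        rw [h2' _ _ hlt, h2' _ _ (by simpa using ht')]
        have hlt2 := Nat.mod_lt (t + 1) (show 0 < (rep q (a :: w)).length by simpa using hM)
        rw [getD_rep _ _ _ (by simpa using hlt2), length_rep]
        congr 1
        rw [Nat.mod_mul_left_mod, Nat.mod_add_mod]
  rw [Tq, Tq, h1, JJ_rot]
  · apply JJ_congr'
    intro P l hl
    rw [length_rep] at hl
    rw [length_rot1, colsOf_rotP q _ hq P l hl]
  · rw [length_rep, length_rot1]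
    exact eqv_cols q _ hq F hF

/-- the index map skipping `i` -/
def skp (i s : ℕ) : ℕ := if s < i then s else s + 1

lemma skp_lt (i s : ℕ) : skp i s ≤ s + 1 := by unfold skp; split_ifs <;> omega

lemma skp_mono (i : ℕ) {s t : ℕ} (h : s < t) : skp i s < skp i t := by
  unfold skp; split_ifs <;> omega

lemma Tq_erase (q : ℕ) (hq : 0 < q) (F : G → List (ℕ → G) → V) (w : List 𝒢)
    (hw : 2 ≤ w.length) (hF : EqvC (w.length - 1) F) (i : ℕ) (hi : i < w.length) :
    Tq θ q F (w.eraseIdx i) = Tq θ q (fun P L => F P (L.eraseIdx i)) w := by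
  obtain ⟨N, hN⟩ : ∃ N, w.length = N + 1 := ⟨w.length - 1, by omega⟩
  have hN1 : 1 ≤ N := by omega
  have hlen : (w.eraseIdx i).length = N := by
    rw [List.length_eraseIdx_of_lt hi, hN]
    rfl
  set ι : Fin (q * N) → ℕ := fun t => skp i (t % N) + (t / N) * (N + 1) with hι
  have hmod : ∀ t : ℕ, t % N < N := fun t => Nat.mod_lt _ hN1
  have hskp : ∀ t : ℕ, skp i (t % N) < N + 1 := fun t => by
    have := skp_lt i (t % N)
    have := hmod t
    omega
  have hmono : StrictMono ι := by
    intro a b hab
    rw [Fin.lt_def] at hab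
    simp only [hι]
    have h1 := Nat.div_add_mod (a : ℕ) N
    have h2 := Nat.div_add_mod (b : ℕ) N
    have hle : (a : ℕ) / N ≤ (b : ℕ) / N := Nat.div_le_div_right hab.le
    rcases hle.eq_or_lt with heq | hlt
    · rw [heq]
      have : (a : ℕ) % N < (b : ℕ) % N := by
        rw [heq] at h1
        omega
      have := skp_mono i this
      omega
    · have h3 : ((a : ℕ) / N + 1) * (N + 1) ≤ ((b : ℕ) / N) * (N + 1) :=
        Nat.mul_le_mul_right _ hlt
      have h4 := hskp a
      rw [add_mul, one_mul] at h3
      omega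
  have hdiv : ∀ t : Fin (q * N), (t : ℕ) / N < q := fun t => by
    rw [Nat.div_lt_iff_lt_mul hN1]
    exact t.2
  have hlt : ∀ t, ι t < q * (N + 1) := by
    intro t
    simp only [hι]
    have h3 : ((t : ℕ) / N + 1) * (N + 1) ≤ q * (N + 1) := Nat.mul_le_mul_right _ (hdiv t)
    have h4 := hskp t
    rw [add_mul, one_mul] at h3
    omega
  have h1 : rep q (w.eraseIdx i) = reidx ι (rep q w) := by
    apply ext_getD
    · rw [length_rep, length_reidx, hlen]
    · intro t ht
      rw [length_rep, hlen] at ht
      rw [getD_rep _ _ _ (by rw [hlen]; exact ht), getD_reidx _ _ _ ht,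
        getD_rep _ _ _ (by rw [hN]; exact hlt _), hlen, hN, getD_eraseIdx']
      simp only [hι]
      rw [Nat.add_mul_mod_self_right, Nat.mod_eq_of_lt (hskp t), skp]
      split_ifs <;> rfl
  rw [Tq, Tq, h1, JJ_reidx θ (q * (N + 1)) (q * N) ι _ (rep q w) (Nat.mul_pos hq hN1) hmono hlt
    (by rw [length_rep, hN])]
  · apply JJ_congr'
    intro P l hl
    rw [length_rep, hN] at hl
    rw [hlen, hN]
    congr 1
    unfold colsOf
    have h2 : (List.ofFn fun j : Fin (N + 1) => fun b => qext P (q * (N + 1)) l
        ((j : ℕ) + b * (N + 1))).eraseIdx i =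
        List.ofFn fun j : Fin N => fun b => qext P (q * (N + 1)) l (skp i j + b * (N + 1)) := by
      apply List.ext_getElem
      · rw [List.length_eraseIdx_of_lt (by rw [List.length_ofFn]; omega)]
        simp
      · intro j h3 h4
        rw [List.length_ofFn] at h4
        rw [List.getElem_eraseIdx]
        simp only [List.getElem_ofFn, skp]
        split_ifs <;> rfl
    rw [h2]
    congr 1
    funext j b
    have hj := j.2
    have hj' : skp i j < N + 1 := by
      have := skp_lt i j
      omega
    rw [qext_col q N P _ j b hj, qext_col q (N + 1) P l _ b hj']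
    congr 1
    have hb : b % q < q := Nat.mod_lt _ hq
    have hjb : (j : ℕ) + b % q * N < q * N := by
      have h3 : (b % q + 1) * N ≤ q * N := Nat.mul_le_mul_right _ hb
      rw [add_mul, one_mul] at h3
      omega
    rw [getD_reidx _ _ _ hjb]
    congr 1
    simp only [hι]
    rw [Nat.add_mul_mod_self_right, Nat.mod_eq_of_lt hj, Nat.add_mul_div_right _ _ hN1,
      Nat.div_eq_of_lt hj, zero_add]
  · rw [hlen]
    apply eqv_cols q _ hq
    rw [hN] at hF
    exact hF

lemma Tq_bd (q : ℕ) (hq : 0 < q) (F : G → List (ℕ → G) → V) (w : List 𝒢)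
    (hw : 2 ≤ w.length) (hF : EqvC (w.length - 1) F) :
    Tq θ q (fun P => bd (F P)) w =
      ∑ i ∈ range w.length, (-1 : ℤ) ^ i • Tq θ q F (w.eraseIdx i) := by
  have h1 : Tq θ q (fun P => bd (F P)) w =
      Tq θ q (fun P L => ∑ i ∈ range w.length, (-1 : ℤ) ^ i • F P (L.eraseIdx i)) w := by
    apply Tq_congr θ q hq
    intro P L hL _
    rw [bd_eq_sum, hL]
  rw [h1, Tq_sum]
  apply sum_congr rfl
  intro i hi
  rw [Tq_zsmul, Tq_erase θ q hq F w hw hF i (mem_range.1 hi)]

end Tq

end Pool.Agent.W644.CY
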