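import Pool.Agent.W644.CY.FrobTE3
import Pool.Agent.W644.CY.Base
import Pool.Agent.W644.NT.Main

/-!
# Rationality and cyclotomy of the values of the Chern character
-/

set_option autoImplicit false
set_option linter.unusedSectionVars false

namespace Pool.Agent.W644.CY

open Finset Pool.Agent.W644.HK Equiv Function

universe u v w x y z

section core

variable {K : Type u} [Field K] [CharZero K] {G : Type v} [Group G] {r : Type w} [Fintype r]
  [DecidableEq r] {𝒢 : Type y} [Group 𝒢] (θ : 𝒢 →ₙ* Matrix r r (MonoidAlgebra K G))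

/-- the values of the Chern character satisfy a Frobenius congruence -/
theorem frob_core (n : ℕ) (hn : 1 ≤ n) (c : G → List G → K) (hc : Coc (n + 1) c)
    (hcZ : ∀ P l, ∃ z : ℤ, c P l = z) (m : ℕ) (hm : 0 < m)
    (hsupp : ∀ P l, P ^ m ≠ 1 → c P l = 0) {ι : Type z} (I : Finset ι) (mu : ι → ℤ)
    (w : ι → List 𝒢) (hw : IsLam K n I mu w) (B : Finset G)
    (hB : ∀ i ∈ I, ∀ x ∈ cw (w i), ∀ a b, (θ x a b).coeff.support ⊆ B) :
    ∃ (s' : Finset K) (M0 : ℕ), (∀ h ∈ TN B (n + 1), orderOf h ≤ M0) ∧ ∀ p : ℕ, p.Prime → M0 < p →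
      Cg (Algebra.adjoin ℤ (s' : Set K)).toSubring p (∑ i ∈ I, mu i • JJ θ c (w i))
        ((∑ i ∈ I, mu i • JJ θ (cpow p c) (w i)) ^ p) := by
  classical
  let xs : Finset 𝒢 := I.biUnion fun i => (cw (w i)).toFinset
  let s' : Finset K := coefs θ xs
  let A : Subring K := (Algebra.adjoin ℤ (s' : Set K)).toSubring
  have hxs : ∀ i ∈ I, ∀ x ∈ cw (w i), x ∈ xs := fun i hi x hx =>
    mem_biUnion.2 ⟨i, hi, List.mem_toFinset.2 hx⟩
  have hA : ∀ i ∈ I, ∀ x ∈ cw (w i), ∀ a b g, (θ x a b).coeff g ∈ A := by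
    intro i hi x hx a b g
    exact mem_adjoin_coefs θ xs s' subset_rfl x (hxs i hi x hx) a b g
  have hcA : ∀ P l, c P l ∈ A := by
    intro P l
    obtain ⟨z, hz⟩ := hcZ P l
    rw [hz]
    exact intCast_mem A z
  set M0 : ℕ := ∑ h ∈ TN B (n + 1), orderOf h with hM0
  have hM : ∀ h ∈ TN B (n + 1), orderOf h ≤ M0 := fun h hh =>
    single_le_sum (f := fun h => orderOf h) (fun _ _ => Nat.zero_le _) hh
  refine ⟨s', M0, hM, ?_⟩
  have hPr : ({p : ℕ | p.Prime} \ {p | p ≤ M0}).Infinite :=
    Nat.infinite_setOfPred_prime.sdiff (Set.finite_le_nat M0)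
  have hTA : ∀ p : ℕ, p.Prime → M0 < p → ∀ i ∈ I,
      TE θ p (fun _ => rk p) true c (w i) ∈ A := by
    intro p hp hpM i hi
    have hlen := hw.len i hi
    rw [TE_eq_fT θ p c (w i) B (hB i hi)]
    apply A.sum_mem
    intro l hl
    refine fT_mem θ A p m hp hm c hc.inv hcA hsupp (w i) B (hA i hi) ?_ l hl
    intro h hh _
    rw [hlen] at hh
    exact lt_of_le_of_lt (hM h hh) hpM
  have huniv : ∀ p : ℕ, p.Prime → ∑ ℓ ∈ range (n + 2), (p.choose ℓ) •
      Sf (n + 1) (Phi θ (n + 1) c I mu w) ℓ =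
      (p : K) ^ (n + 1) * ∑ i ∈ I, mu i • TE θ p (fun _ => rk p) true c (w i) := by
    intro p hp
    rw [← universal θ p hp.pos (rk p) (good_rk p hp.pos) n hn c hc I mu w hw, Rat.smul_def]
    push_cast
    rfl
  have h1 := concl_primes s' _ hPr (fun p hp => hp.1) (n + 1)
    (Sf (n + 1) (Phi θ (n + 1) c I mu w)) (by
      rintro p ⟨hp, hpM⟩
      have hpM' : M0 < p := by
        simpa using hpM
      exact ⟨∑ i ∈ I, mu i • TE θ p (fun _ => rk p) true c (w i),
        A.sum_mem fun i hi => A.zsmul_mem (hTA p hp hpM' i hi) _, huniv p hp⟩)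
  have hJ : ∀ p : ℕ, p.Prime → ∑ i ∈ I, mu i • TE θ p (fun _ => rk p) true c (w i) =
      ∑ i ∈ I, mu i • JJ θ c (w i) := by
    intro p hp
    have h2 := h1 1
    rw [sum_choose_one, Nat.cast_one, one_pow, one_mul, Phi_one _ _ _ _ _ _ hw.len] at h2
    have h3 := h1 p
    rw [huniv p hp, ← h2] at h3
    have hp0 : (p : K) ^ (n + 1) ≠ 0 := pow_ne_zero _ (by exact_mod_cast hp.ne_zero)
    exact mul_left_cancel₀ hp0 h3
  intro p hp hpM
  rw [← hJ p hp]
  have hJA : ∀ i ∈ I, JJ θ (cpow p c) (w i) ∈ A := by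
    intro i hi
    exact JJ_mem θ A (cpow p c) (fun P l => hcA _ _) (w i) (hA i hi)
  have h4 : ∀ i ∈ I, Cg A p (mu i • TE θ p (fun _ => rk p) true c (w i))
      ((mu i • JJ θ (cpow p c) (w i)) ^ p) := by
    intro i hi
    have hlen := hw.len i hi
    have h5 := TE_frob θ A p m hp hm c hc.equiv hc.inv hcZ hsupp (w i) (by omega) B (hB i hi)
      (hA i hi) (by
        intro h hh _
        rw [hlen] at hh
        exact lt_of_le_of_lt (hM h hh) hpM)
    rw [zsmul_eq_mul, zsmul_eq_mul, mul_pow]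
    exact Cg.mul (Cg.int_pow hp (mu i)).symm h5 (hTA p hp hpM i hi)
      (A.pow_mem (intCast_mem A _) _)
  exact (Cg.sum _ h4).trans (Cg.sum_pow hp _ fun i hi => A.zsmul_mem (hJA i hi) _).symm

end core

section powers

variable {G : Type v} [Group G]

open Classical in
/-- The class cochain `P ↦ c (P ^ a)` on the elements with `P ^ m = 1`, extended by zero. -/
noncomputable def powerClass {n : ℕ} (m a : ℕ) (c : G → (Fin (n + 1) → G) → ℤ) :
    G → (Fin (n + 1) → G) → ℤ := fun P y => if P ^ m = 1 then c (P ^ a) y else 0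

lemma class_powerClass {n : ℕ} (m a : ℕ) (ha : Nat.Coprime a m)
    (c : G → (Fin (n + 1) → G) → ℤ) (hc : IsClassCocycle c) :
    IsClassCocycle (powerClass m a c) where
  equivariant x P y := by
    unfold powerClass
    have h1 : (x * P * x⁻¹) ^ m = 1 ↔ P ^ m = 1 := by
      rw [conj_pow, mul_inv_eq_one, mul_eq_left]
    by_cases h : P ^ m = 1
    · rw [if_pos h, if_pos (h1.2 h), conj_pow, hc.equivariant]
    · rw [if_neg h, if_neg fun h' => h (h1.1 h')]
  alternating P y σ := by
    unfold powerClass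
    split_ifs
    · exact hc.alternating _ y σ
    · simp
  invariant P y i := by
    unfold powerClass
    split_ifs with h
    · have h2 : Nat.Coprime a (orderOf P) :=
        Nat.Coprime.coprime_dvd_right (orderOf_dvd_of_pow_eq_one h) ha
      obtain ⟨e, he⟩ := exists_pow_eq_self_of_coprime h2
      have h3 : ∀ k : ℕ, c (P ^ a) (update y i ((P ^ a) ^ k * y i)) = c (P ^ a) y := by
        intro k
        induction k with
        | zero => simp
        | succ k ih =>
          rw [← ih]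
          have h4 := hc.invariant (P ^ a) (update y i ((P ^ a) ^ k * y i)) i
          rw [← h4, update_self, update_idem, pow_succ', mul_assoc]
      have h5 := h3 e
      rwa [he] at h5
    · rfl
  cocycle P y := by
    unfold powerClass
    by_cases h : P ^ m = 1
    · rw [← hc.cocycle (P ^ a) y]
      apply sum_congr rfl
      intro i _
      rw [if_pos h]
    · apply sum_eq_zero
      intro i _
      rw [if_neg h, smul_zero]

lemma powerClass_congr {n : ℕ} (m a b : ℕ) (c : G → (Fin (n + 1) → G) → ℤ)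
    (h : a ≡ b [MOD m]) : powerClass m a c = powerClass m b c := by
  funext P y
  unfold powerClass
  split_ifs with hP
  · congr 1
    rw [← Nat.mod_add_div a m, ← Nat.mod_add_div b m, pow_add, pow_add, pow_mul, pow_mul, hP,
      one_pow, one_pow, mul_one, mul_one, h]
  · rfl

lemma powerClass_one {n : ℕ} (m : ℕ) (c : G → (Fin (n + 1) → G) → ℤ)
    (hc : ∀ P y, P ^ m ≠ 1 → c P y = 0) : powerClass m 1 c = c := by
  funext P y
  unfold powerClass
  split_ifs with hP
  · rw [pow_one]
  · exact (hc P y hP).symm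

lemma powerClass_powerClass {n : ℕ} (m a b : ℕ) (c : G → (Fin (n + 1) → G) → ℤ) :
    powerClass m a (powerClass m b c) = powerClass m (a * b) c := by
  funext P y
  unfold powerClass
  by_cases hP : P ^ m = 1
  · have h2 : (P ^ a) ^ m = 1 := by rw [← pow_mul, mul_comm, pow_mul, hP, one_pow]
    rw [if_pos hP, if_pos h2, if_pos hP, pow_mul]
  · rw [if_neg hP, if_neg hP]

end powers

end Pool.Agent.W644.CY
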