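import Pool.Agent.W644.CY.Cyc

/-!
# Rationality and cyclotomy of the values of the Chern character: the theorem
-/

set_option autoImplicit false
set_option linter.unusedSectionVars false

namespace Pool.Agent.W644.CY

open Finset Pool.Agent.W644.HK Equiv Function Polynomial

universe u v w x y z

section poly

variable {K : Type u} [Field K] [CharZero K]

/-- Frobenius congruence for polynomials with rational coefficients -/
lemma poly_frob (f : ℚ[X]) (x : K) :
    ∃ s : Finset K, NT.Ev 1 fun p => Cg (Algebra.adjoin ℤ (s : Set K)).toSubring p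
      ((aeval x f) ^ p) (aeval (x ^ p) f) ∧ aeval x f ∈ Algebra.adjoin ℤ (s : Set K) := by
  classical
  induction f using Polynomial.induction_on' with
  | add f g hf hg =>
    obtain ⟨s, hs⟩ := hf
    obtain ⟨t, ht⟩ := hg
    refine ⟨s ∪ t, (hs.and ht).mono ?_⟩
    rintro p hp _ ⟨⟨⟨b, hb, h1⟩, h2⟩, ⟨⟨b', hb', h3⟩, h4⟩⟩
    have e1 : Algebra.adjoin ℤ (s : Set K) ≤ Algebra.adjoin ℤ ((s ∪ t : Finset K) : Set K) :=
      Algebra.adjoin_mono (by rw [Finset.coe_union]; exact Set.subset_union_left)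
    have e2 : Algebra.adjoin ℤ (t : Set K) ≤ Algebra.adjoin ℤ ((s ∪ t : Finset K) : Set K) :=
      Algebra.adjoin_mono (by rw [Finset.coe_union]; exact Set.subset_union_right)
    rw [map_add, map_add]
    refine ⟨?_, Subalgebra.add_mem _ (e1 h2) (e2 h4)⟩
    exact (Cg.add_pow hp (A := (Algebra.adjoin ℤ ((s ∪ t : Finset K) : Set K)).toSubring)
      (e1 h2) (e2 h4)).trans (Cg.add ⟨b, e1 hb, h1⟩ ⟨b', e2 hb', h3⟩)
  | monomial k q =>
    have hq : NT.FrP 1 ((q : ℚ) : K) := SubfieldClass.ratCast_mem (NT.FrF 1 K) q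
    obtain ⟨s, hs⟩ := hq
    refine ⟨s ∪ {(q : K), x}, hs.mono ?_⟩
    rintro p hp _ ⟨b, hb, h1⟩
    have e1 : Algebra.adjoin ℤ (s : Set K) ≤
        Algebra.adjoin ℤ ((s ∪ {(q : K), x} : Finset K) : Set K) :=
      Algebra.adjoin_mono (by rw [Finset.coe_union]; exact Set.subset_union_left)
    have hx : x ∈ Algebra.adjoin ℤ ((s ∪ {(q : K), x} : Finset K) : Set K) :=
      Algebra.subset_adjoin (by simp)
    have hqm : (q : K) ∈ Algebra.adjoin ℤ ((s ∪ {(q : K), x} : Finset K) : Set K) :=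
      Algebra.subset_adjoin (by simp)
    have h2 : ∀ y : K, aeval y (monomial k q) = (q : K) * y ^ k := by
      intro y
      rw [aeval_monomial]
      simp
    rw [h2, h2]
    refine ⟨⟨b * (x ^ p) ^ k, Subalgebra.mul_mem _ (e1 hb) (Subalgebra.pow_mem _
      (Subalgebra.pow_mem _ hx _) _), ?_⟩, Subalgebra.mul_mem _ hqm (Subalgebra.pow_mem _ hx _)⟩
    rw [mul_pow, ← pow_mul, mul_comm k p, pow_mul]
    linear_combination ((x ^ p) ^ k) * h1

end poly

section chern

variable {K : Type u} [Field K] [CharZero K] {G : Type v} [Group G] {r : Type w} [Fintype r]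
  [DecidableEq r] {𝒢 : Type y} [Group 𝒢] (θ : 𝒢 →ₙ* Matrix r r (MonoidAlgebra K G))

/-- the value of an integral class cochain -/
noncomputable def cz {n : ℕ} (c : G → (Fin (n + 1) → G) → ℤ) (z : (Fin (n + 1) → 𝒢) →₀ ℤ) : K :=
  chern θ (fun P y => (c P y : K)) z

lemma class_cast {n : ℕ} (c : G → (Fin (n + 1) → G) → ℤ) (hc : IsClassCocycle c) :
    IsClassCocycle fun P y => (c P y : K) := class_base (Int.castRingHom K) c hc

lemma frob_chern {n : ℕ} (m : ℕ) (hm : 0 < m) (c : G → (Fin (n + 2) → G) → ℤ)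
    (hc : IsClassCocycle c) (hcm : ∀ P y, P ^ m ≠ 1 → c P y = 0) (z : (Fin (n + 2) → 𝒢) →₀ ℤ)
    (hz : IsCyclicCycle z) :
    ∃ (s : Finset K) (M0 : ℕ), ∀ p : ℕ, p.Prime → M0 < p → ∀ a : ℕ, p ≡ a [MOD m] →
      Cg (Algebra.adjoin ℤ (s : Set K)).toSubring p (cz θ c z)
        ((cz θ (powerClass m a c) z) ^ p) := by
  classical
  set B : Finset G := supps θ (z.support.biUnion fun γ => (cw (List.ofFn γ)).toFinset) with hB
  have hBs : ∀ γ ∈ z.support, ∀ x ∈ cw (List.ofFn γ), ∀ a b, (θ x a b).coeff.support ⊆ B := by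
    intro γ hγ x hx a b
    exact subset_supps θ _ x (mem_biUnion.2 ⟨γ, hγ, List.mem_toFinset.2 hx⟩) a b
  have hcz : ∀ P l, ∃ z : ℤ, cl (fun P y => (c P y : K)) P l = z := by
    intro P l
    unfold cl
    split_ifs
    · exact ⟨_, rfl⟩
    · exact ⟨0, by simp⟩
  have hsupp : ∀ P l, P ^ m ≠ 1 → cl (fun P y => (c P y : K)) P l = 0 := by
    intro P l hP
    unfold cl
    split_ifs
    · beta_reduce
      rw [hcm P _ hP, Int.cast_zero]
    · rfl
  obtain ⟨s, M0, hM, hs⟩ := frob_core θ (n + 1) (by omega) (cl fun P y => (c P y : K))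
    (coc_cl _ (class_cast c hc)) hcz m hm hsupp z.support z (fun γ => List.ofFn γ)
    (isLam_of_cycle z hz K) B hBs
  refine ⟨s, M0, fun p hp hpM a hpa => ?_⟩
  have h1 := hs p hp hpM
  have h2 : cz θ (powerClass m a c) z =
      ∑ γ ∈ z.support, z γ • JJ θ (cpow p (cl fun P y => (c P y : K))) (List.ofFn γ) := by
    rw [cz, chern_eq]
    apply sum_congr rfl
    intro γ hγ
    congr 1
    apply JJ_congr_TN θ B _ (hBs γ hγ)
    intro Q hQ l
    rw [List.length_ofFn] at hQ
    unfold cpow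
    by_cases hl : l.length = n + 2
    · unfold cl
      rw [if_pos hl, if_pos hl]
      rw [powerClass_congr m a p c hpa.symm]
      unfold powerClass
      beta_reduce
      by_cases hQm : Q ^ m = 1
      · rw [if_pos hQm]
      · rw [if_neg hQm, Int.cast_zero]
        symm
        rw [hcm, Int.cast_zero]
        intro hQp
        apply hQm
        have hfin : IsOfFinOrder Q := by
          rw [isOfFinOrder_iff_pow_eq_one]
          exact ⟨p * m, Nat.mul_pos hp.pos hm, by rw [pow_mul, hQp]⟩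
        exact (root_pow Q (Q ^ p) m p hp hQp rfl (lt_of_le_of_lt (hM Q hQ) hpM) hfin).1
    · unfold cl
      rw [if_neg hl, if_neg hl]
  rw [h2, cz, chern_eq]
  exact h1

/-- the main theorem over a field containing the roots of unity -/
theorem cyclotomic_main {n : ℕ} (m : ℕ) (hm : 0 < m) (c : G → (Fin (n + 2) → G) → ℤ)
    (hc : IsClassCocycle c) (hcm : ∀ P y, P ^ m ≠ 1 → c P y = 0) (z : (Fin (n + 2) → 𝒢) →₀ ℤ)
    (hz : IsCyclicCycle z) (ζ : K) (hζ : IsPrimitiveRoot ζ m) :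
    ∃ f : ℚ[X], ∀ a b : ℕ, a * b ≡ 1 [MOD m] →
      cz θ (powerClass m b c) z = aeval (ζ ^ a) f := by
  classical
  -- the value is in the cyclotomic field
  have hfr : NT.FrP m (cz θ c z) := by
    obtain ⟨s, M0, hs⟩ := frob_chern θ m hm c hc hcm z hz
    refine ⟨s, NT.Ev.of_gt M0 fun p hp hpm hpM => ?_⟩
    have h1 := hs p hp hpM 1 hpm
    rw [powerClass_one m c hcm] at h1
    obtain ⟨b, hb, h⟩ := h1.symm
    exact ⟨b, hb, h⟩
  have hmem := hfr.mem_adjoin hm hζ
  have hζint : IsIntegral ℚ ζ := (hζ.isIntegral hm).tower_top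
  have hf : ∃ f : ℚ[X], aeval ζ f = cz θ c z := by
    rw [← IntermediateField.mem_toSubalgebra,
      IntermediateField.adjoin_simple_toSubalgebra_of_isAlgebraic hζint.isAlgebraic,
      Algebra.adjoin_singleton_eq_range_aeval] at hmem
    obtain ⟨f, hf⟩ := hmem
    exact ⟨f, hf⟩
  obtain ⟨f, hf⟩ := hf
  refine ⟨f, fun a b hab => ?_⟩
  have hcop : Nat.Coprime (a * b) m := by
    have := hab.gcd_eq
    rwa [Nat.gcd_one_left] at this
  have hacop : Nat.Coprime a m := Nat.Coprime.coprime_mul_right hcop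
  have hbcop : Nat.Coprime b m := Nat.Coprime.coprime_mul_left hcop
  have hcb := class_powerClass m b hbcop c hc
  have hcmb : ∀ P y, P ^ m ≠ 1 → powerClass m b c P y = 0 := fun P y hP => if_neg hP
  obtain ⟨s, M0, hs⟩ := frob_chern θ m hm (powerClass m b c) hcb hcmb z hz
  obtain ⟨t, ht⟩ := poly_frob f ζ
  by_contra hne
  have hne' : cz θ (powerClass m b c) z - aeval (ζ ^ a) f ≠ 0 := sub_ne_zero.2 hne
  have : NeZero m := ⟨hm.ne'⟩
  have hinf := Nat.infinite_setOfPred_prime_and_eq_mod (q := m) (a := (a : ZMod m))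
    ((ZMod.isUnit_iff_coprime _ _).2 hacop)
  have hfin := Pool.Agent.H23R2.finite_dvd_primes (s ∪ t) _ hne'
  apply hinf
  refine (Set.Finite.union hfin (Set.Finite.union ht (Set.finite_le_nat M0))).subset ?_
  rintro p ⟨hp, hpa⟩
  have hpa' : p ≡ a [MOD m] := (ZMod.natCast_eq_natCast_iff _ _ _).1 hpa
  by_cases hpM : p ≤ M0
  · exact Or.inr (Or.inr hpM)
  by_cases hev : Cg (Algebra.adjoin ℤ (t : Set K)).toSubring p
      ((aeval ζ f) ^ p) (aeval (ζ ^ p) f) ∧ aeval ζ f ∈ Algebra.adjoin ℤ (t : Set K)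
  · left
    have h1 := hs p hp (by omega) a hpa'
    rw [powerClass_powerClass, powerClass_congr m (a * b) 1 c hab, powerClass_one m c hcm, ← hf] at h1
    have h2 : ζ ^ p = ζ ^ a := by
      rw [← Nat.mod_add_div p m, ← Nat.mod_add_div a m, pow_add, pow_add, pow_mul, pow_mul,
        hζ.pow_eq_one, one_pow, one_pow, mul_one, mul_one, hpa']
    have h3 := hev.1
    rw [h2] at h3
    have e1 : Algebra.adjoin ℤ (s : Set K) ≤ Algebra.adjoin ℤ ((s ∪ t : Finset K) : Set K) :=
      Algebra.adjoin_mono (by rw [Finset.coe_union]; exact Set.subset_union_left)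
    have e2 : Algebra.adjoin ℤ (t : Set K) ≤ Algebra.adjoin ℤ ((s ∪ t : Finset K) : Set K) :=
      Algebra.adjoin_mono (by rw [Finset.coe_union]; exact Set.subset_union_right)
    obtain ⟨b1, hb1, h4⟩ := h1
    obtain ⟨b2, hb2, h5⟩ := h3
    refine ⟨hp, b1 + b2, Subalgebra.add_mem _ (e1 hb1) (e2 hb2), ?_⟩
    linear_combination h4 + h5
  · right; left
    refine ⟨hp, ?_, hev⟩
    exact Nat.modEq_one

end chern

end Pool.Agent.W644.CY
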