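import Pool.Agent.W644.CY.Cyc2

/-!
# Rationality and cyclotomy: the statements over a general field
-/

set_option autoImplicit false
set_option linter.unusedSectionVars false

namespace Pool.Agent.W644.CY

open Finset Pool.Agent.W644.HK Equiv Function Polynomial

universe u v w x y z

section chern

variable {K : Type u} [Field K] [CharZero K] {G : Type v} [Group G] {r : Type w} [Fintype r]
  [DecidableEq r] {𝒢 : Type y} [Group 𝒢] (θ : 𝒢 →ₙ* Matrix r r (MonoidAlgebra K G))

theorem cyclotomic_general {n : ℕ} (m : ℕ) (hm : 0 < m) (c : G → (Fin (n + 2) → G) → ℤ)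
    (hc : IsClassCocycle c) (z : (Fin (n + 2) → 𝒢) →₀ ℤ)
    (hz : IsCyclicCycle z) (L : Type x) [Field L] [CharZero L] [Algebra K L] (ζ : L)
    (hζ : IsPrimitiveRoot ζ m) :
    ∃ f : ℚ[X], ∀ a b : ℕ, a * b ≡ 1 [MOD m] →
      algebraMap K L (chern θ (fun P y => (powerClass m b c P y : K)) z) = aeval (ζ ^ a) f := by
  obtain ⟨f, hf⟩ := cyclotomic_main (baseHom (algebraMap K L) θ) m hm (powerClass m 1 c)
    (class_powerClass m 1 (Nat.coprime_one_left m) c hc) (fun P y hP => if_neg hP) z hz ζ hζ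
  refine ⟨f, fun a b hab => ?_⟩
  have h1 := hf a b hab
  rw [powerClass_powerClass, mul_one, cz] at h1
  rw [← h1, ← chern_base]
  congr 1
  funext P y
  rw [map_intCast]

theorem rational_at_one {n : ℕ} (c : G → (Fin (n + 2) → G) → ℤ)
    (hc : IsClassCocycle c) (h1 : ∀ P y, P ≠ 1 → c P y = 0) (z : (Fin (n + 2) → 𝒢) →₀ ℤ)
    (hz : IsCyclicCycle z) : ∃ q : ℚ, chern θ (fun P y => (c P y : K)) z = q := by
  obtain ⟨f, hf⟩ := cyclotomic_general θ 1 one_pos c hc z hz K 1 IsPrimitiveRoot.one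
  have h2 := hf 1 1 rfl
  rw [powerClass_one 1 c (fun P y hP => h1 P y (by rwa [pow_one] at hP))] at h2
  refine ⟨f.eval 1, ?_⟩
  rw [Algebra.algebraMap_self, RingHom.id_apply] at h2
  rw [h2, one_pow, show (1 : K) = algebraMap ℚ K 1 by rw [map_one], aeval_algebraMap_apply,
    aeval_def, eval₂_eq_eval_map, Algebra.algebraMap_self, Polynomial.map_id]
  simp

/-- cocycles supported on elements of finite order, of unbounded orders -/
theorem finite_order_cyclotomic {n : ℕ} (c : G → (Fin (n + 2) → G) → ℤ)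
    (hfin : ∀ P y, ¬ IsOfFinOrder P → c P y = 0) (z : (Fin (n + 2) → 𝒢) →₀ ℤ) :
    ∃ m : ℕ, 0 < m ∧ chern θ (fun P y => (c P y : K)) z =
      chern θ (fun P y => (powerClass m 1 c P y : K)) z := by
  classical
  set B : Finset G := supps θ (z.support.biUnion fun γ => (cw (List.ofFn γ)).toFinset) with hB
  have hBs : ∀ γ ∈ z.support, ∀ x ∈ cw (List.ofFn γ), ∀ a b, (θ x a b).coeff.support ⊆ B := by
    intro γ hγ x hx a b
    exact subset_supps θ _ x (mem_biUnion.2 ⟨γ, hγ, List.mem_toFinset.2 hx⟩) a b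
  set m : ℕ := ∏ h ∈ (TN B (n + 2)).filter IsOfFinOrder, orderOf h with hm
  have hm0 : 0 < m := by
    apply Finset.prod_pos
    intro h hh
    exact orderOf_pos_iff.2 (mem_filter.1 hh).2
  refine ⟨m, hm0, ?_⟩
  rw [chern_eq, chern_eq]
  apply sum_congr rfl
  intro γ hγ
  congr 1
  apply JJ_congr_TN θ B _ (hBs γ hγ)
  intro Q hQ l
  rw [List.length_ofFn] at hQ
  unfold cl
  split_ifs
  · beta_reduce
    unfold powerClass
    by_cases h : IsOfFinOrder Q
    · rw [if_pos, pow_one]
      apply orderOf_dvd_iff_pow_eq_one.1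
      exact Finset.dvd_prod_of_mem _ (mem_filter.2 ⟨hQ, h⟩)
    · rw [hfin Q _ h]
      split_ifs
      · rw [pow_one, hfin Q _ h]
      · rfl
  · rfl

end chern

end Pool.Agent.W644.CY
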