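import Pool.Agent.W644.HK.Defs

/-!
# Cycles of Connes' complex of a group ring at the class of `1`, class cocycles and their pairing

* `simpBoundary`, `IsCyclicCycle`: chains and cycles, modulo left translation and signed rotation,
  of homogeneous tuples of a group. Via `(γ_0, …, γ_n) ↦ γ_0⁻¹γ_1 ⊗ γ_1⁻¹γ_2 ⊗ ⋯ ⊗ γ_n⁻¹γ_0` they
  are the cycles of Connes' complex of the integral group ring of the group, of the component of
  the conjugacy class of `1`.
* `IsClassCocycle`: families, equivariant under conjugation, of alternating homogeneous cocycles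
  which represent classes of the groups `C(P) / ⟨P⟩`.
* `chern`: the pairing.
-/

set_option autoImplicit false

namespace Pool.Agent.W644.CY

open Pool.Agent.W644.HK

universe u v w x y

/-- The boundary `(γ_0, …, γ_{n+1}) ↦ ∑_i (-1)^i (γ_0, …, γ_{i-1}, γ_{i+1}, …, γ_{n+1})` on chains
of homogeneous tuples with integral coefficients. -/
noncomputable def simpBoundary {𝒢 : Type y} {n : ℕ} (z : (Fin (n + 2) → 𝒢) →₀ ℤ) :
    (Fin (n + 1) → 𝒢) →₀ ℤ :=
  z.sum fun γ a => ∑ i : Fin (n + 2), Finsupp.single (fun j => γ (i.succAbove j)) ((-1) ^ (i : ℕ) * a)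

/-- The chains spanned by `(g v_0, …, g v_n) - (v_0, …, v_n)` and
`(v_1, …, v_n, v_0) - (-1)^n (v_0, …, v_n)`. -/
noncomputable def cyclicRelations (𝒢 : Type y) [Group 𝒢] (n : ℕ) : AddSubgroup ((Fin (n + 1) → 𝒢) →₀ ℤ) :=
  AddSubgroup.closure
    ({a | ∃ (g : 𝒢) (v : Fin (n + 1) → 𝒢),
      a = Finsupp.single (fun j => g * v j) 1 - Finsupp.single v 1} ∪
    {a | ∃ v : Fin (n + 1) → 𝒢,
      a = Finsupp.single (fun j => v (j + 1)) 1 - Finsupp.single v ((-1) ^ n)})

/-- The cycles of degree `n + 1` of Connes' complex of the integral group ring of `𝒢`, component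
of the conjugacy class of `1`, in homogeneous notation. -/
def IsCyclicCycle {𝒢 : Type y} [Group 𝒢] {n : ℕ} (z : (Fin (n + 2) → 𝒢) →₀ ℤ) : Prop :=
  simpBoundary z ∈ cyclicRelations 𝒢 n

/-- A class cocycle: for each `P` an alternating homogeneous cocycle `c P` on `G`, invariant under
left multiplication of each variable by `P`, the family being equivariant under conjugation of `P`
and simultaneous left multiplication of all variables. For fixed `P` it is the same as an
alternating homogeneous cocycle on `⟨P⟩ \ G` invariant under `C(P) / ⟨P⟩`, and so represents a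
class in the cohomology of the group `C(P) / ⟨P⟩`. -/
structure IsClassCocycle {G : Type v} [Group G] {V : Type x} [AddCommGroup V] {n : ℕ}
    (c : G → (Fin (n + 1) → G) → V) : Prop where
  equivariant : ∀ (x P : G) (y : Fin (n + 1) → G), c (x * P * x⁻¹) (fun i => x * y i) = c P y
  alternating : ∀ (P : G) (y : Fin (n + 1) → G) (σ : Equiv.Perm (Fin (n + 1))),
    c P (fun i => y (σ i)) = (Equiv.Perm.sign σ : ℤ) • c P y
  invariant : ∀ (P : G) (y : Fin (n + 1) → G) (i : Fin (n + 1)),
    c P (Function.update y i (P * y i)) = c P y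
  cocycle : ∀ (P : G) (y : Fin (n + 2) → G),
    ∑ i : Fin (n + 2), (-1 : ℤ) ^ (i : ℕ) • c P (fun j => y (i.succAbove j)) = 0

/-- The value of the class cochain `c` on `tr (X_0 ⊗ ⋯ ⊗ X_n)`: the finite sum
`∑ tr (X_0(g_0) ⋯ X_n(g_n)) c (g_0 ⋯ g_n; 1, g_0, g_0 g_1, …, g_0 ⋯ g_{n-1})` over all
`g_0, …, g_n` in `G`, where `X_i = ∑_g X_i(g) g`. -/
noncomputable def classPairing {k : Type u} [CommRing k] {G : Type v} [Group G] {r : Type w}
    [Fintype r] [DecidableEq r] {V : Type x} [AddCommGroup V] [Module k V] {n : ℕ}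
    (c : G → (Fin (n + 1) → G) → V) (X : Fin (n + 1) → Matrix r r (MonoidAlgebra k G)) : V :=
  trPairing (fun g : Fin (n + 1) → G =>
    c (List.ofFn g).prod fun i => ((List.ofFn g).take (i : ℕ)).prod) X

/-- The pairing of a class cochain with the image under `θ` of a chain of homogeneous tuples:
`(γ_0, …, γ_n)` is sent to `tr (θ(γ_0⁻¹γ_1) ⊗ θ(γ_1⁻¹γ_2) ⊗ ⋯ ⊗ θ(γ_n⁻¹γ_0))`. -/
noncomputable def chern {k : Type u} [CommRing k] {G : Type v} [Group G] {r : Type w}
    [Fintype r] [DecidableEq r] {V : Type x} [AddCommGroup V] [Module k V] {𝒢 : Type y} [Group 𝒢]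
    (θ : 𝒢 →ₙ* Matrix r r (MonoidAlgebra k G)) {n : ℕ} (c : G → (Fin (n + 1) → G) → V)
    (z : (Fin (n + 1) → 𝒢) →₀ ℤ) : V :=
  z.sum fun γ a => a • classPairing c fun i => θ ((γ i)⁻¹ * γ (i + 1))

end Pool.Agent.W644.CY
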