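import Pool.Agent.W644.CY.Defs

/-!
# Alternation and the homology of a group

`alternation z` is `∑_σ sgn σ · z ∘ σ`; a chain is rationally zero if a nonzero multiple of it is a
boundary in the complex of homogeneous tuples of the group modulo left translations and modulo
`v ∘ σ - sgn σ · v`, whose rational homology is the homology `H_*(𝒢; ℚ)` of the group.
-/

set_option autoImplicit false

namespace Pool.Agent.W644.CY

universe u v w x y

/-- The alternation `∑_σ sgn σ · z ∘ σ` of a chain of tuples. -/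
noncomputable def alternation {𝒢 : Type y} {n : ℕ} (z : (Fin (n + 1) → 𝒢) →₀ ℤ) :
    (Fin (n + 1) → 𝒢) →₀ ℤ :=
  ∑ σ : Equiv.Perm (Fin (n + 1)), (Equiv.Perm.sign σ : ℤ) • z.mapDomain fun γ i => γ (σ i)

/-- The chains spanned by `(g v_0, …, g v_n) - (v_0, …, v_n)` and
`(v_{σ 0}, …, v_{σ n}) - sgn σ (v_0, …, v_n)`. -/
noncomputable def alternatingRelations (𝒢 : Type y) [Group 𝒢] (n : ℕ) :
    AddSubgroup ((Fin (n + 1) → 𝒢) →₀ ℤ) :=
  AddSubgroup.closure
    ({a | ∃ (g : 𝒢) (v : Fin (n + 1) → 𝒢),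
      a = Finsupp.single (fun j => g * v j) 1 - Finsupp.single v 1} ∪
    {a | ∃ (v : Fin (n + 1) → 𝒢) (σ : Equiv.Perm (Fin (n + 1))),
      a = Finsupp.single (fun j => v (σ j)) 1 - Finsupp.single v (Equiv.Perm.sign σ : ℤ)})

/-- The chain `z` of degree `n` is zero in `H_n(𝒢; ℚ)`: some nonzero multiple of `z` is a boundary
up to `alternatingRelations`. -/
def IsRationallyZero {𝒢 : Type y} [Group 𝒢] {n : ℕ} (z : (Fin (n + 1) → 𝒢) →₀ ℤ) : Prop :=
  ∃ N : ℕ, N ≠ 0 ∧ ∃ w : (Fin (n + 2) → 𝒢) →₀ ℤ,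
    N • z - simpBoundary w ∈ alternatingRelations 𝒢 n

open Classical in
/-- The class cochain `c` restricted to the elements `P` in `S`, extended by zero. -/
noncomputable def restrictTo {G : Type v} {V : Type x} [Zero V] {n : ℕ} (S : Set G)
    (c : G → (Fin (n + 1) → G) → V) : G → (Fin (n + 1) → G) → V :=
  fun P y => if P ∈ S then c P y else 0

end Pool.Agent.W644.CY
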