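import Pool.Agent.W644.CY.Int

/-!
# Components of elements of finite order, fields of characteristic zero
-/

set_option autoImplicit false
set_option linter.unusedSectionVars false

namespace Pool.Agent.W644.CY

open Finset Pool.Agent.W644.HK Equiv Function

universe u v w x y z

lemma sum_choose_one {V : Type*} [AddCommGroup V] (N : ℕ) (Φ : Perm (Fin N) → V) :
    ∑ ℓ ∈ range (N + 1), (Nat.choose 1 ℓ) • Sf N Φ ℓ = Φ 1 := by
  rw [← sum_sort N 1 Φ, Fintype.sum_unique]
  congr 1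
  apply Tuple.sort_eq_refl_iff_monotone.2
  intro i j _
  exact (Subsingleton.elim _ _).le

section

variable {G : Type v} [Group G]

open Classical in
/-- the products of `N` elements of `B` -/
noncomputable def TN (B : Finset G) (N : ℕ) : Finset G := (LS B N).image List.prod

lemma mem_TN (B : Finset G) (q N : ℕ) (hq : 2 ≤ q) (l : List G) (hl : l ∈ LS B (q * N))
    (i : Fin N) : uu (fun b => qext l.prod (q * N) (pts 1 l) (i + b * N)) 0 ∈ TN B N := by
  classical
  obtain ⟨h1, h2⟩ := (mem_LS _ _ _).1 hl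
  rw [uu_zero q N hq l h1 i, TN, mem_image]
  refine ⟨_, ?_, rfl⟩
  rw [mem_LS]
  have hi := i.2
  have h3 : 2 * N ≤ q * N := Nat.mul_le_mul_right _ hq
  refine ⟨by rw [List.length_take, List.length_drop]; omega, ?_⟩
  intro x hx
  exact h2 x (List.mem_of_mem_drop (List.mem_of_mem_take hx))

end

section core

variable {K : Type u} [Field K] [CharZero K] {G : Type v} [Group G] {r : Type w} [Fintype r]
  [DecidableEq r] {𝒢 : Type y} [Group 𝒢] (θ : 𝒢 →ₙ* Matrix r r (MonoidAlgebra K G))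

lemma orderOf_conj' (a b : G) : orderOf (a * b * a⁻¹) = orderOf b := by
  have := MulEquiv.orderOf_eq (MulAut.conj a) b
  rwa [MulAut.conj_apply] at this

/-- the two cases for a column: trivial stabiliser or translates by powers of `P` -/
lemma col_cases (N p m : ℕ) (hp : p.Prime) (hpm : p ≡ 1 [MOD m]) (hm : 0 < m) (B : Finset G)
    (hord : ∀ h ∈ TN B N, IsOfFinOrder h → orderOf h < p) (l : List G) (hl : l ∈ LS B (p * N))
    (hP : l.prod ^ m = 1) (Y : ℕ → G) (hY : Y ∈ colsOf p N l.prod (pts 1 l)) :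
    (∑ b ∈ range p, rk p (uu Y) b = 1) ∧
      ((∀ b, ∃ z : ℤ, ((1 : ℕ) : ℚ) * rk p (uu Y) b = z) ∨ ∀ b, Y b = l.prod ^ b * Y 0) := by
  have hqp := qp_colsOf p N hp.pos l.prod (pts 1 l) Y hY
  have hper := uu_per p hqp
  refine ⟨(good_rk p hp.pos).mass _ hper, ?_⟩
  rcases (Nat.dvd_prime hp).1 (per_dvd p _ hper) with hd | hd
  · right
    have hu : ∀ b, uu Y (b + 1) = uu Y b := by
      intro b
      have := per_spec (uu Y) b
      rwa [hd] at this
    have hz := eq_pow_of_period p 1 p (by ring) l.prod Y hqp hu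
    obtain ⟨i, hi⟩ := (mem_colsOf _ _ _ _ _).1 hY
    have hT := mem_TN B p N hp.two_le l hl i
    rw [← hi] at hT
    have hconj : Y 1 * (Y 0)⁻¹ = Y 0 * uu Y 0 * (Y 0)⁻¹ := by
      unfold uu
      group
    have hfin : IsOfFinOrder (Y 1 * (Y 0)⁻¹) := by
      rw [isOfFinOrder_iff_pow_eq_one]
      refine ⟨p * m, Nat.mul_pos hp.pos hm, ?_⟩
      rw [pow_mul, ← hz, hP]
    have hfin' : IsOfFinOrder (uu Y 0) := by
      rw [← orderOf_pos_iff] at hfin ⊢
      rwa [hconj, orderOf_conj'] at hfin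
    have hlt : orderOf (Y 1 * (Y 0)⁻¹) < p := by
      rw [hconj, orderOf_conj']
      exact hord _ hT hfin'
    have heq := root_eq (Y 1 * (Y 0)⁻¹) l.prod m p hp hP hpm hz.symm hlt hfin
    intro b
    have h1 := col_pow 1 Y hu b
    rw [mul_one, heq] at h1
    exact h1
  · left
    intro b
    by_cases h : rk p (uu Y) b = 0
    · exact ⟨0, by rw [h]; simp⟩
    · refine ⟨1, ?_⟩
      rw [rk_val p hp.pos _ hper b h, hd]
      have : (p : ℚ) ≠ 0 := by exact_mod_cast hp.ne_zero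
      rw [div_self this]
      simp

lemma TE_mem_one (A : Subring K) (N p m : ℕ) (hp : p.Prime) (hpm : p ≡ 1 [MOD m]) (hm : 0 < m)
    (c : G → List G → K) (hinv : ∀ P l l', List.Forall₂ (RP P) l l' → c P l = c P l')
    (hcA : ∀ P l, c P l ∈ A) (hsupp : ∀ P l, P ^ m ≠ 1 → c P l = 0) (w : List 𝒢)
    (hw : w.length = N) (B : Finset G)
    (hB : ∀ x ∈ cw w, ∀ a b, (θ x a b).coeff.support ⊆ B)
    (hA : ∀ x ∈ cw w, ∀ a b g, (θ x a b).coeff g ∈ A)
    (hord : ∀ h ∈ TN B N, IsOfFinOrder h → orderOf h < p) :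
    TE θ p (fun _ => rk p) true c w ∈ A := by
  rw [TE, Tq_eq_LS θ B p w hB, hw]
  apply A.sum_mem
  intro l hl
  rw [smul_eq_mul]
  apply A.mul_mem
  · apply wgt_mem
    intro X hX
    obtain ⟨x, hx, rfl⟩ := List.mem_map.1 hX
    rw [cw_rep] at hx
    exact hA x (mem_rep _ _ _ hx)
  · by_cases hP : l.prod ^ m = 1
    · have h1 := hat_mem A.toAddSubgroup p 1 (rk p) l.prod (c l.prod) (hcA l.prod)
        (hinv l.prod) ((colsOf p N l.prod (pts 1 l)).map fun Y => (Y, true)) (by
          intro a ha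
          obtain ⟨Y, hY, rfl⟩ := List.mem_map.1 ha
          exact col_cases N p m hp hpm hm B hord l hl hP Y hY)
      rw [Nat.cast_one, one_pow, one_smul] at h1
      exact h1
    · rw [hat_zero]
      · exact A.zero_mem
      · intro l' _
        exact hsupp _ _ hP

theorem finite_order_core (n : ℕ) (hn : 1 ≤ n) (c : G → List G → K) (hc : Coc (n + 1) c)
    (s : Finset K) (hs : ∀ P l, c P l ∈ Algebra.adjoin ℤ (s : Set K)) (m : ℕ) (hm : 0 < m)
    (hsupp : ∀ P l, P ^ m ≠ 1 → c P l = 0) {ι : Type z} (I : Finset ι) (mu : ι → ℤ)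
    (w : ι → List 𝒢) (hw : IsLam K n I mu w) :
    Phi θ (n + 1) c I mu w 1 =
      (∑ σ : Perm (Fin (n + 1)), Phi θ (n + 1) c I mu w σ) / ((n + 1).factorial : K) := by
  classical
  let xs : Finset 𝒢 := I.biUnion fun i => (cw (w i)).toFinset
  let B : Finset G := xs.biUnion fun x => univ.biUnion fun a => univ.biUnion fun b =>
    (θ x a b).coeff.support
  let s1 : Finset K := xs.biUnion fun x => univ.biUnion fun a => univ.biUnion fun b =>
    (θ x a b).coeff.support.image fun g => (θ x a b).coeff g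
  let s' : Finset K := s ∪ s1
  let A : Subring K := (Algebra.adjoin ℤ (s' : Set K)).toSubring
  have hxs : ∀ i ∈ I, ∀ x ∈ cw (w i), x ∈ xs := fun i hi x hx =>
    mem_biUnion.2 ⟨i, hi, List.mem_toFinset.2 hx⟩
  have hB : ∀ i ∈ I, ∀ x ∈ cw (w i), ∀ a b, (θ x a b).coeff.support ⊆ B := by
    intro i hi x hx a b g hg
    exact mem_biUnion.2 ⟨x, hxs i hi x hx, mem_biUnion.2 ⟨a, mem_univ _,
      mem_biUnion.2 ⟨b, mem_univ _, hg⟩⟩⟩
  have hA : ∀ i ∈ I, ∀ x ∈ cw (w i), ∀ a b g, (θ x a b).coeff g ∈ A := by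
    intro i hi x hx a b g
    by_cases hg : g ∈ (θ x a b).coeff.support
    · apply Algebra.subset_adjoin
      rw [Finset.mem_coe]
      exact mem_union_right _ (mem_biUnion.2 ⟨x, hxs i hi x hx, mem_biUnion.2 ⟨a, mem_univ _,
        mem_biUnion.2 ⟨b, mem_univ _, mem_image_of_mem _ hg⟩⟩⟩)
    · rw [Finsupp.notMem_support_iff.1 hg]
      exact A.zero_mem
  have hcA : ∀ P l, c P l ∈ A := fun P l =>
    Algebra.adjoin_mono (by rw [Finset.coe_union]; exact Set.subset_union_left) (hs P l)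
  set M0 : ℕ := ∑ h ∈ TN B (n + 1), orderOf h with hM0
  have hM : ∀ h ∈ TN B (n + 1), orderOf h ≤ M0 := fun h hh =>
    single_le_sum (f := fun h => orderOf h) (fun _ _ => Nat.zero_le _) hh
  have hPr : ({p : ℕ | p.Prime ∧ p ≡ 1 [MOD m]} \ {p | p ≤ M0}).Infinite :=
    (Nat.infinite_setOfPred_prime_modEq_one hm.ne').sdiff (Set.finite_le_nat M0)
  have h1 := concl_primes s' _ hPr (fun p hp => hp.1.1) (n + 1)
    (Sf (n + 1) (Phi θ (n + 1) c I mu w)) (by
      rintro p ⟨⟨hp, hpm⟩, hpM⟩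
      have hpM' : M0 < p := by
        simpa using hpM
      refine ⟨∑ i ∈ I, mu i • TE θ p (fun _ => rk p) true c (w i), ?_, ?_⟩
      · refine A.sum_mem fun i hi => A.zsmul_mem ?_ _
        exact TE_mem_one θ A (n + 1) p m hp hpm hm c hc.inv hcA hsupp (w i) (hw.len i hi) B
          (hB i hi) (hA i hi) fun h hh _ => lt_of_le_of_lt (hM h hh) hpM'
      · rw [← universal θ p hp.pos (rk p) (good_rk p hp.pos) n hn c hc I mu w hw,
          Rat.smul_def]
        push_cast
        rfl) 1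
  rw [sum_choose_one, Sf_top, Nat.cast_one, one_pow, one_mul] at h1
  exact h1

end core

end Pool.Agent.W644.CY
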