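import Pool.Agent.W644.CY.Tr
import Pool.Agent.W644.HK.Nat

/-!
# Passing to a subgroup containing the supports
-/

set_option autoImplicit false
set_option linter.unusedSectionVars false

namespace Pool.Agent.W644.CY

open Finset Pool.Agent.W644.HK Equiv Function

universe u v w x y z

section lift

variable {K : Type u} [CommRing K] {G : Type v} [Group G] {r : Type w} [Fintype r] [DecidableEq r]
  {𝒢 : Type y} [Group 𝒢] (θ : 𝒢 →ₙ* Matrix r r (MonoidAlgebra K G)) (H : Subgroup G)

/-- the matrices over the group algebra of a subgroup -/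
def RG (K : Type u) [CommRing K] (r : Type w) [Fintype r] [DecidableEq r] (H : Subgroup G) :
    Set (Matrix r r (MonoidAlgebra K G)) :=
  Set.range (ThM r (RingHom.id K) H.subtype)

lemma thM_injective : Function.Injective (ThM r (RingHom.id K) H.subtype) := by
  intro M N h
  ext1 a b
  apply Th_injective (RingHom.id K) H.subtype injective_id Subtype.val_injective
  rw [← ThM_apply, ← ThM_apply, h]

lemma mem_RG (X : Matrix r r (MonoidAlgebra K G))
    (h : ∀ a b, ∀ g ∈ (X a b).coeff.support, g ∈ H) : X ∈ RG K r H := by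
  have h1 : ∀ a b, ∃ y, Th (RingHom.id K) H.subtype y = X a b := by
    intro a b
    have h3 : X a b = ∑ g ∈ (X a b).coeff.support, MonoidAlgebra.single g ((X a b).coeff g) := by
      ext g
      rw [MonoidAlgebra.coeff_sum, Finsupp.finsetSum_apply]
      simp only [MonoidAlgebra.coeff_single]
      rw [← Finsupp.finsetSum_apply]
      exact congrFun (congrArg _ (Finsupp.sum_single (X a b).coeff).symm) g
    have h4 : X a b ∈ (Th (RingHom.id K) H.subtype).range := by
      rw [h3]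
      apply Subring.sum_mem
      intro g hg
      exact ⟨MonoidAlgebra.single ⟨g, h a b g hg⟩ ((X a b).coeff g), by simp⟩
    exact h4
  choose Y hY using h1
  refine ⟨Matrix.of Y, ?_⟩
  ext1 a b
  rw [ThM_apply]
  exact hY a b

/-- the elements acting by matrices over the group algebra of the subgroup -/
def LG (h1 : θ 1 ∈ RG K r H) : Subgroup 𝒢 where
  carrier := {x | θ x ∈ RG K r H ∧ θ x⁻¹ ∈ RG K r H}
  one_mem' := ⟨h1, by rw [inv_one]; exact h1⟩
  mul_mem' := by
    rintro x y ⟨⟨a, ha⟩, ⟨a', ha'⟩⟩ ⟨⟨b, hb⟩, ⟨b', hb'⟩⟩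
    refine ⟨⟨a * b, ?_⟩, ⟨b' * a', ?_⟩⟩
    · rw [map_mul, ha, hb, map_mul]
    · rw [map_mul, ha', hb', mul_inv_rev, map_mul]
  inv_mem' := by
    rintro x ⟨h, h'⟩
    exact ⟨h', by rw [inv_inv]; exact h⟩

variable {θ H}

/-- the representation over the group algebra of the subgroup -/
noncomputable def thL (h1 : θ 1 ∈ RG K r H) : LG θ H h1 →ₙ* Matrix r r (MonoidAlgebra K H) where
  toFun x := x.2.1.choose
  map_mul' x y := by
    apply thM_injective H
    rw [map_mul, (x * y).2.1.choose_spec, x.2.1.choose_spec, y.2.1.choose_spec]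
    exact map_mul θ _ _

lemma thL_spec (h1 : θ 1 ∈ RG K r H) (x : LG θ H h1) :
    ThM r (RingHom.id K) H.subtype (thL h1 x) = θ x := x.2.1.choose_spec

lemma thL_coeff (h1 : θ 1 ∈ RG K r H) (x : LG θ H h1) (a b : r) (h : H) :
    (thL h1 x a b).coeff h = (θ x a b).coeff h := by
  rw [← thL_spec h1 x, ThM_apply]
  show _ = (MonoidAlgebra.map (RingHom.id K : K →+ K)
    (MonoidAlgebra.mapDomain H.subtype (thL h1 x a b))).coeff (H.subtype h)
  simp [Finsupp.mapDomain_apply Subtype.val_injective]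

open Classical in
/-- retraction onto the subgroup -/
noncomputable def phiL (h1 : θ 1 ∈ RG K r H) (x : 𝒢) : LG θ H h1 :=
  if h : x ∈ LG θ H h1 then ⟨x, h⟩ else 1

lemma phiL_val (h1 : θ 1 ∈ RG K r H) (x : 𝒢) (h : x ∈ LG θ H h1) : (phiL h1 x : 𝒢) = x := by
  unfold phiL
  rw [dif_pos h]

lemma map_phiL (h1 : θ 1 ∈ RG K r H) (v : List 𝒢) (a b : 𝒢) (hab : a⁻¹ * b ∈ LG θ H h1)
    (hv : ∀ x ∈ v, a⁻¹ * x ∈ LG θ H h1) :
    v.map (fun x => phiL h1 (b⁻¹ * x)) =
      (v.map fun x => phiL h1 (a⁻¹ * x)).map ((phiL h1 (a⁻¹ * b))⁻¹ * ·) := by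
  rw [List.map_map]
  apply List.map_congr_left
  intro x hx
  apply Subtype.ext
  have h2 : b⁻¹ * x = (a⁻¹ * b)⁻¹ * (a⁻¹ * x) := by group
  have h3 : b⁻¹ * x ∈ LG θ H h1 := by
    rw [h2]
    exact (LG θ H h1).mul_mem ((LG θ H h1).inv_mem hab) (hv x hx)
  rw [phiL_val h1 _ h3, Function.comp_apply]
  push_cast
  rw [phiL_val h1 _ hab, phiL_val h1 _ (hv x hx), h2]

/-- the lifted words -/
noncomputable def wL (h1 : θ 1 ∈ RG K r H) (w : List 𝒢) : List (LG θ H h1) :=
  w.map fun x => phiL h1 ((w.headD 1)⁻¹ * x)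

open Classical in
/-- extension of a test function -/
noncomputable def extT {A : Type x} [AddCommGroup A] (h1 : θ 1 ∈ RG K r H)
    (γ : List (LG θ H h1) → A) (v : List 𝒢) : A :=
  if ∀ x ∈ v, (v.headD 1)⁻¹ * x ∈ LG θ H h1 then
    γ (v.map fun x => phiL h1 ((v.headD 1)⁻¹ * x)) else 0

lemma extT_eq {A : Type x} [AddCommGroup A] (h1 : θ 1 ∈ RG K r H)
    (γ : List (LG θ H h1) → A) (hγ : ∀ g v, γ (v.map (g * ·)) = γ v) (v : List 𝒢) (a : 𝒢)
    (hv : ∀ x ∈ v, a⁻¹ * x ∈ LG θ H h1) :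
    extT h1 γ v = γ (v.map fun x => phiL h1 (a⁻¹ * x)) := by
  unfold extT
  match v with
  | [] => simp
  | b :: v =>
    have hab : a⁻¹ * b ∈ LG θ H h1 := hv b (by simp)
    rw [List.headD_cons, if_pos, map_phiL h1 _ a b hab hv, hγ]
    intro x hx
    have h2 : b⁻¹ * x = (a⁻¹ * b)⁻¹ * (a⁻¹ * x) := by group
    rw [h2]
    exact (LG θ H h1).mul_mem ((LG θ H h1).inv_mem hab) (hv x hx)

lemma extT_zero {A : Type x} [AddCommGroup A] (h1 : θ 1 ∈ RG K r H)
    (γ : List (LG θ H h1) → A) (v : List 𝒢) (h : ¬ ∃ a, ∀ x ∈ v, a⁻¹ * x ∈ LG θ H h1) :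
    extT h1 γ v = 0 := by
  unfold extT
  rw [if_neg]
  intro h2
  exact h ⟨_, h2⟩

lemma isLam_lift {A : Type x} [AddCommGroup A] (h1 : θ 1 ∈ RG K r H) {n : ℕ} {ι : Type z}
    (I : Finset ι) (mu : ι → ℤ) (w : ι → List 𝒢) (hw : IsLam A n I mu w)
    (hR : ∀ i ∈ I, ∀ u ∈ w i, ∀ v ∈ w i, u⁻¹ * v ∈ LG θ H h1) :
    IsLam A n I mu fun i => wL h1 (w i) := by
  refine ⟨fun i hi => by simp [wL, hw.len i hi], fun γ hrot hleft => ?_⟩
  rw [← hw.cyc (extT h1 γ) ?_ ?_]
  · apply sum_congr rfl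
    intro i hi
    congr 1
    apply sum_congr rfl
    intro j _
    congr 1
    have hmem : ∀ x ∈ w i, ((w i).headD 1)⁻¹ * x ∈ LG θ H h1 := by
      intro x hx
      have hne : w i ≠ [] := List.ne_nil_of_mem hx
      obtain ⟨b, t, hbt⟩ := List.exists_cons_of_ne_nil hne
      apply hR i hi
      · rw [hbt]
        simp
      · exact hx
    rw [extT_eq h1 γ hleft _ ((w i).headD 1) fun x hx => hmem x (List.mem_of_mem_eraseIdx hx)]
    rw [wL, List.eraseIdx_map]
  · intro v hv
    by_cases h : ∃ a, ∀ x ∈ v, a⁻¹ * x ∈ LG θ H h1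
    · obtain ⟨a, ha⟩ := h
      have hmem : ∀ x ∈ rot1 v, a⁻¹ * x ∈ LG θ H h1 := by
        intro x hx
        rw [rot1_eq_rotate] at hx
        exact ha x (List.mem_rotate.1 hx)
      rw [extT_eq h1 γ hleft _ a ha, extT_eq h1 γ hleft _ a hmem, ← rot1_map]
      exact hrot _ (by rw [List.length_map, hv])
    · rw [extT_zero h1 γ v h, extT_zero, smul_zero]
      rintro ⟨a, ha⟩
      apply h
      refine ⟨a, fun x hx => ha x ?_⟩
      rw [rot1_eq_rotate]
      exact List.mem_rotate.2 hx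
  · intro g v
    by_cases h : ∃ a, ∀ x ∈ v, a⁻¹ * x ∈ LG θ H h1
    · obtain ⟨a, ha⟩ := h
      have hmem : ∀ x ∈ v.map (g * ·), (g * a)⁻¹ * x ∈ LG θ H h1 := by
        intro x hx
        obtain ⟨y, hy, rfl⟩ := List.mem_map.1 hx
        rw [mul_inv_rev, mul_assoc, inv_mul_cancel_left]
        exact ha y hy
      rw [extT_eq h1 γ hleft _ a ha, extT_eq h1 γ hleft _ (g * a) hmem, List.map_map]
      congr 1
      apply List.map_congr_left
      intro x _
      rw [Function.comp_apply, mul_inv_rev, mul_assoc, inv_mul_cancel_left]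
    · rw [extT_zero h1 γ v h, extT_zero]
      rintro ⟨a, ha⟩
      apply h
      refine ⟨g⁻¹ * a, fun x hx => ?_⟩
      have := ha (g * x) (List.mem_map_of_mem hx)
      rwa [mul_inv_rev, inv_inv, mul_assoc]

lemma cwAux_map {𝒢' : Type*} [Group 𝒢'] (f : 𝒢' →* 𝒢) (e : 𝒢') (l : List 𝒢') :
    cwAux (f e) (l.map f) = (cwAux e l).map f := by
  induction l with
  | nil => rfl
  | cons a l ih =>
    match l with
    | [] => simp [cwAux]
    | b :: l =>
      simp only [List.map_cons, cwAux] at ih ⊢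
      rw [ih]
      simp

lemma cw_map {𝒢' : Type*} [Group 𝒢'] (f : 𝒢' →* 𝒢) (l : List 𝒢') :
    cw (l.map f) = (cw l).map f := by
  match l with
  | [] => rfl
  | a :: l => exact cwAux_map f a (a :: l)

lemma JJ_lift {V : Type x} [AddCommGroup V] [Module K V] (h1 : θ 1 ∈ RG K r H) (w : List 𝒢)
    (hR : ∀ u ∈ w, ∀ v ∈ w, u⁻¹ * v ∈ LG θ H h1) (c : G → List G → V) (c' : H → List H → V)
    (hc : ∀ g l, c' g l = c g (l.map H.subtype)) :
    JJ θ c w = JJ (thL h1) c' (wL h1 w) := by
  have h2 : (wL h1 w).map (LG θ H h1).subtype = w.map ((w.headD 1)⁻¹ * ·) := by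
    rw [wL, List.map_map]
    apply List.map_congr_left
    intro x hx
    have hne : w ≠ [] := List.ne_nil_of_mem hx
    obtain ⟨b, t, rfl⟩ := List.exists_cons_of_ne_nil hne
    exact phiL_val h1 _ (hR b (by simp) x hx)
  have h3 : (cw w).map θ = ((cw (wL h1 w)).map (thL h1)).map (ThM r (RingHom.id K) H.subtype) := by
    rw [← cw_left ((w.headD 1)⁻¹) w, ← h2, cw_map, List.map_map, List.map_map]
    apply List.map_congr_left
    intro x _
    exact (thL_spec h1 x).symm
  rw [JJ, h3]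
  refine TT_Th (RingHom.id K) H.subtype (AddMonoidHom.id V) (fun _ _ => rfl) _ _ (CF c) (CF c') ?_
  intro l
  rw [AddMonoidHom.id_apply]
  unfold CF
  rw [hc, map_pts H.subtype (fun a b => map_mul H.subtype a b), map_one]
  congr 1
  exact map_list_prod H.subtype l

lemma cl_restrict {V : Type x} [AddCommGroup V] {n : ℕ} (c : G → (Fin (n + 1) → G) → V) (g : H)
    (l : List H) : cl (fun (P : H) (y : Fin (n + 1) → H) => c P fun i => (y i : G)) g l =
      cl c g (l.map H.subtype) := by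
  unfold cl
  rw [List.length_map]
  split_ifs with h
  · show c (g : G) (fun i : Fin (n + 1) => ((l.getD i 1 : H) : G)) =
      c (g : G) fun i : Fin (n + 1) => (l.map H.subtype).getD i 1
    have h2 : (fun i : Fin (n + 1) => ((l.getD i 1 : H) : G)) =
        fun i : Fin (n + 1) => (l.map H.subtype).getD i 1 := by
      funext i
      exact (getD_map_hom H.subtype l i).symm
    rw [h2]
  · rfl

lemma restrict_class {V : Type x} [AddCommGroup V] {n : ℕ} (c : G → (Fin (n + 1) → G) → V)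
    (hc : IsClassCocycle c) :
    IsClassCocycle (fun (P : H) (y : Fin (n + 1) → H) => c P fun i => (y i : G)) where
  equivariant x P y := by
    have := hc.equivariant x P fun i => (y i : G)
    rw [← this]
    rfl
  alternating P y σ := hc.alternating P (fun i => (y i : G)) σ
  invariant P y i := by
    have := hc.invariant P (fun i => (y i : G)) i
    rw [← this]
    congr 1
    funext j
    by_cases hj : j = i
    · subst hj
      simp
    · rw [Function.update_of_ne hj, Function.update_of_ne hj]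
  cocycle P y := hc.cocycle P fun i => (y i : G)

end lift

end Pool.Agent.W644.CY
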