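import Pool.Agent.W644.CY.FinOrd
import Pool.Agent.W644.CY.Lift

/-!
# Restriction of class cochains to sets of conjugacy classes; all elements of finite order
-/

set_option autoImplicit false
set_option linter.unusedSectionVars false

namespace Pool.Agent.W644.CY

open Finset Pool.Agent.W644.HK Equiv Function

universe u v w x y z

section rs

variable {G : Type v} [Group G] {V : Type x} [AddCommGroup V]

open Classical in
/-- restriction of a class cochain to a set -/
noncomputable def rs (S : Set G) (c : G → List G → V) : G → List G → V :=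
  fun P l => if P ∈ S then c P l else 0

lemma rs_of_mem (S : Set G) (c : G → List G → V) (P : G) (hP : P ∈ S) (l : List G) :
    rs S c P l = c P l := if_pos hP

lemma rs_of_notMem (S : Set G) (c : G → List G → V) (P : G) (hP : P ∉ S) (l : List G) :
    rs S c P l = 0 := if_neg hP

lemma coc_rs {N : ℕ} {c : G → List G → V} (hc : Coc N c) (S : Set G)
    (hS : ∀ x P, x * P * x⁻¹ ∈ S ↔ P ∈ S) : Coc N (rs S c) where
  equiv x P l := by
    by_cases h : P ∈ S
    · rw [rs_of_mem _ _ _ h, rs_of_mem _ _ _ ((hS x P).2 h), hc.equiv]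
    · rw [rs_of_notMem _ _ _ h, rs_of_notMem _ _ _ fun h' => h ((hS x P).1 h')]
  coc P l hl := by
    by_cases h : P ∈ S
    · rw [show rs S c P = c P from funext fun l => rs_of_mem _ _ _ h l]
      exact hc.coc P l hl
    · rw [show rs S c P = fun _ => 0 from funext fun l => rs_of_notMem _ _ _ h l, bd_eq_sum]
      simp
  alt P := by
    by_cases h : P ∈ S
    · rw [show rs S c P = c P from funext fun l => rs_of_mem _ _ _ h l]
      exact hc.alt P
    · rw [show rs S c P = fun _ => 0 from funext fun l => rs_of_notMem _ _ _ h l]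
      intro σ l _
      simp
  inv P l l' hl := by
    by_cases h : P ∈ S
    · rw [rs_of_mem _ _ _ h, rs_of_mem _ _ _ h]
      exact hc.inv P l l' hl
    · rw [rs_of_notMem _ _ _ h, rs_of_notMem _ _ _ h]

end rs

section congr

variable {k : Type u} [CommRing k] {G : Type v} [Group G] {r : Type w} [Fintype r]
  [DecidableEq r] {V : Type x} [AddCommGroup V] [Module k V] {𝒢 : Type y} [Group 𝒢]
  (θ : 𝒢 →ₙ* Matrix r r (MonoidAlgebra k G))

lemma JJ_congr_TN (B : Finset G) (w : List 𝒢)
    (hB : ∀ x ∈ cw w, ∀ a b, (θ x a b).coeff.support ⊆ B) (c c' : G → List G → V)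
    (h : ∀ P ∈ TN B w.length, ∀ l, c P l = c' P l) : JJ θ c w = JJ θ c' w := by
  classical
  rw [JJ_eq_LS θ B w hB, JJ_eq_LS θ B w hB]
  apply sum_congr rfl
  intro l hl
  congr 1
  refine h _ ?_ _
  rw [TN]
  exact mem_image_of_mem _ hl

lemma Phi_congr_TN (B : Finset G) (N : ℕ) (c c' : G → List G → V) {ι : Type z} (I : Finset ι)
    (mu : ι → ℤ) (w : ι → List 𝒢) (hlen : ∀ i ∈ I, (w i).length = N)
    (hB : ∀ i ∈ I, ∀ u ∈ w i, ∀ v ∈ w i, ∀ a b, (θ (u⁻¹ * v) a b).coeff.support ⊆ B)
    (h : ∀ P ∈ TN B N, ∀ l, c P l = c' P l) (σ : Perm (Fin N)) :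
    Phi θ N c I mu w σ = Phi θ N c' I mu w σ := by
  unfold Phi
  congr 1
  apply sum_congr rfl
  intro i hi
  congr 1
  apply JJ_congr_TN θ B
  · intro x hx a b
    obtain ⟨u, hu, v, hv, rfl⟩ := mem_cw _ x hx
    exact hB i hi u (mem_reidx σ _ (hlen i hi) u hu) v (mem_reidx σ _ (hlen i hi) v hv) a b
  · rw [length_reidx]
    exact h

open Classical in
/-- all differences of letters of a family of words -/
noncomputable def diffs {ι : Type z} (I : Finset ι) (w : ι → List 𝒢) : Finset 𝒢 :=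
  I.biUnion fun i => (w i).toFinset.biUnion fun u => (w i).toFinset.image fun v => u⁻¹ * v

lemma mem_diffs {ι : Type z} (I : Finset ι) (w : ι → List 𝒢) (i : ι) (hi : i ∈ I) (u v : 𝒢)
    (hu : u ∈ w i) (hv : v ∈ w i) : u⁻¹ * v ∈ diffs I w := by
  classical
  refine mem_biUnion.2 ⟨i, hi, mem_biUnion.2 ⟨u, List.mem_toFinset.2 hu,
    mem_image.2 ⟨v, List.mem_toFinset.2 hv, rfl⟩⟩⟩

end congr

section fin

variable {K : Type u} [Field K] [CharZero K] {G : Type v} [Group G] {r : Type w} [Fintype r]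
  [DecidableEq r] {𝒢 : Type y} [Group 𝒢] (θ : 𝒢 →ₙ* Matrix r r (MonoidAlgebra K G))

theorem finite_order_all (n : ℕ) (hn : 1 ≤ n) (c : G → List G → K) (hc : Coc (n + 1) c)
    (s : Finset K) (hs : ∀ P l, c P l ∈ Algebra.adjoin ℤ (s : Set K))
    (hsupp : ∀ P l, ¬ IsOfFinOrder P → c P l = 0) {ι : Type z} (I : Finset ι) (mu : ι → ℤ)
    (w : ι → List 𝒢) (hw : IsLam K n I mu w) :
    Phi θ (n + 1) c I mu w 1 =
      (∑ σ : Perm (Fin (n + 1)), Phi θ (n + 1) c I mu w σ) / ((n + 1).factorial : K) := by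
  classical
  set B : Finset G := supps θ (diffs I w) with hBdef
  have hB : ∀ i ∈ I, ∀ u ∈ w i, ∀ v ∈ w i, ∀ a b, (θ (u⁻¹ * v) a b).coeff.support ⊆ B :=
    fun i hi u hu v hv a b => subset_supps θ _ _ (mem_diffs I w i hi u v hu hv) a b
  set m : ℕ := ∏ h ∈ (TN B (n + 1)).filter IsOfFinOrder, orderOf h with hm
  have hm0 : 0 < m := by
    apply Finset.prod_pos
    intro h hh
    exact orderOf_pos_iff.2 (mem_filter.1 hh).2
  set S : Set G := {P | P ^ m = 1} with hS
  have hSc : ∀ x P, x * P * x⁻¹ ∈ S ↔ P ∈ S := by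
    intro x P
    simp only [hS, Set.mem_ofPred_eq, conj_pow]
    constructor
    · intro h
      have h2 : P ^ m = x⁻¹ * (x * P ^ m * x⁻¹) * x := by group
      rw [h2, h]
      group
    · intro h
      rw [h]
      group
  have hcong : ∀ P ∈ TN B (n + 1), ∀ l, c P l = rs S c P l := by
    intro P hP l
    by_cases h : IsOfFinOrder P
    · rw [rs_of_mem]
      rw [hS, Set.mem_ofPred_eq]
      apply orderOf_dvd_iff_pow_eq_one.1
      exact Finset.dvd_prod_of_mem _ (mem_filter.2 ⟨hP, h⟩)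
    · rw [hsupp P l h]
      by_cases h2 : P ∈ S
      · rw [rs_of_mem _ _ _ h2, hsupp P l h]
      · rw [rs_of_notMem _ _ _ h2]
  have h1 := finite_order_core θ n hn (rs S c) (coc_rs hc S hSc) s (by
    intro P l
    by_cases h : P ∈ S
    · rw [rs_of_mem _ _ _ h]
      exact hs P l
    · rw [rs_of_notMem _ _ _ h]
      exact Subalgebra.zero_mem _) m hm0 (by
    intro P l hP
    exact rs_of_notMem S c P hP _) I mu w hw
  have h2 : ∀ σ, Phi θ (n + 1) c I mu w σ = Phi θ (n + 1) (rs S c) I mu w σ := fun σ =>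
    Phi_congr_TN θ B (n + 1) c _ I mu w hw.len hB hcong σ
  simp_rw [h2]
  exact h1

end fin

end Pool.Agent.W644.CY
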