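import Pool.Agent.W644.CY.TrFrob
import Pool.Agent.W644.CY.Restr

/-!
# The Frobenius congruence for the transfer of closed paths
-/

set_option autoImplicit false
set_option linter.unusedSectionVars false

namespace Pool.Agent.W644.CY

open Finset Pool.Agent.W644.HK Equiv Function

universe u v w x y z

section rep

lemma rep_zero {α : Type*} [One α] (w : List α) : rep 0 w = [] :=
  List.eq_nil_of_length_eq_zero (by simp)

lemma rep_succ {α : Type*} [One α] (q : ℕ) (w : List α) : rep (q + 1) w = w ++ rep q w := by
  apply ext_getD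
  · rw [length_rep, List.length_append, length_rep]
    ring
  · intro t ht
    rw [length_rep] at ht
    rw [getD_rep _ _ _ ht]
    by_cases h : t < w.length
    · rw [List.getD_append _ _ _ _ h, Nat.mod_eq_of_lt h]
    · have h2 : t - w.length < q * w.length := by
        rw [add_mul, one_mul] at ht
        omega
      rw [List.getD_append_right _ _ _ _ (by omega), getD_rep _ _ _ h2,
        Nat.mod_eq_sub_mod (by omega)]

lemma prod_rep {α : Type*} [Monoid α] (q : ℕ) (w : List α) : (rep q w).prod = w.prod ^ q := by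
  induction q with
  | zero => rw [rep_zero]; simp
  | succ q ih => rw [rep_succ, List.prod_append, ih, pow_succ']

lemma map_rep {α β : Type*} [One α] [One β] (f : α → β) (q : ℕ) (w : List α) :
    (rep q w).map f = rep q (w.map f) := by
  induction q with
  | zero => rw [rep_zero, rep_zero]; rfl
  | succ q ih => rw [rep_succ, rep_succ, List.map_append, ih]

lemma zipWith_rep {α β γ : Type*} [One α] [One β] [One γ] (f : α → β → γ) (q : ℕ) (X : List α)
    (Y : List β) (h : X.length = Y.length) :
    List.zipWith f (rep q X) (rep q Y) = rep q (List.zipWith f X Y) := by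
  induction q with
  | zero => rw [rep_zero, rep_zero, rep_zero]; rfl
  | succ q ih => rw [rep_succ, rep_succ, rep_succ, List.zipWith_append h, ih]

lemma take_rep {α : Type*} [One α] (q : ℕ) (hq : 0 < q) (w : List α) :
    (rep q w).take w.length = w := by
  obtain ⟨q, rfl⟩ : ∃ q', q = q' + 1 := ⟨q - 1, by omega⟩
  rw [rep_succ, List.take_left]

/-- a list invariant under rotation by `N` is a repetition -/
lemma eq_rep {α : Type*} [One α] (q N : ℕ) (l : List α) (hl : l.length = q * N)
    (hr : l.rotate N = l) (hq : 0 < q) : l = rep q (l.take N) := by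
  have hlen : (l.take N).length = N := by
    rw [List.length_take, hl]
    exact min_eq_left (Nat.le_mul_of_pos_left N hq)
  have hrk : ∀ k, l.rotate (N * k) = l := by
    intro k
    induction k with
    | zero => simp
    | succ k ih => rw [mul_add, mul_one, ← List.rotate_rotate, ih, hr]
  apply ext_getD
  · rw [length_rep, hlen, hl]
  · intro t ht
    have hM : t < q * N := by rw [← hl]; exact ht
    have hN : 0 < N := by
      rcases Nat.eq_zero_or_pos N with h | h
      · rw [h, mul_zero] at hM
        omega
      · exact h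
    have hmod := Nat.mod_lt t hN
    have hle : N ≤ l.length := by rw [hl]; exact Nat.le_mul_of_pos_left N hq
    rw [getD_rep _ _ _ (by rw [hlen]; exact hM), hlen]
    have h1 : (l.take N).getD (t % N) 1 = l.getD (t % N) 1 := by
      rw [List.getD_eq_getElem _ _ (by rw [hlen]; exact hmod), List.getD_eq_getElem _ _ (by omega),
        List.getElem_take]
    rw [h1]
    have h2 : (l.rotate (N * (t / N))).getD (t % N) 1 = l.getD t 1 := by
      rw [List.getD_eq_getElem _ _ (by rw [List.length_rotate]; omega),
        List.getD_eq_getElem _ _ ht, List.getElem_rotate]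
      congr 1
      rw [Nat.mod_add_div, Nat.mod_eq_of_lt ht]
    rw [← h2, hrk]

end rep

section hat

variable {G : Type v} [Group G] {V : Type x} [AddCommGroup V] [Module ℚ V]

/-- the value on columns which are invariant up to powers of `P` -/
lemma hat_fixed (q : ℕ) (η : (ℕ → G) → ℕ → ℚ) (P : G) (c : List G → V)
    (hinv : ∀ l l', List.Forall₂ (RP P) l l' → c l = c l') (L : List ((ℕ → G) × Bool))
    (hL : ∀ a ∈ L, (∑ b ∈ range q, η (uu a.1) b = 1) ∧ ∀ b, ∃ e : ℕ, a.1 b = P ^ e * a.1 0) :
    hat q (fun _ => η) c L = c (L.map fun a => a.1 0) := by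
  induction L generalizing c with
  | nil => simp
  | cons a L ih =>
    obtain ⟨h1, h2⟩ := hL a (by simp)
    have hL' := fun a' ha' => hL a' (List.mem_cons_of_mem a ha')
    have hinv' : ∀ x : G, ∀ l l', List.Forall₂ (RP P) l l' → c (x :: l) = c (x :: l') :=
      fun x l l' h => hinv _ _ (List.Forall₂.cons (Or.inl rfl) h)
    rw [hat_cons, List.map_cons]
    have h3 : ∀ b ∈ range q, η (uu a.1) b • hat q (fun _ => η) (fun l => c (a.1 b :: l)) L =
        η (uu a.1) b • c (a.1 0 :: L.map fun a => a.1 0) := by
      intro b _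
      obtain ⟨e, he⟩ := h2 b
      rw [ih _ (hinv' _) hL', he, inv_pow_cons P c hinv e]
    rw [sum_congr rfl h3, ← sum_smul, h1, one_smul]

/-- integrality of the value on a list of columns -/
lemma hat_mem' (A : AddSubgroup V) (q : ℕ) (η : (ℕ → G) → ℕ → ℚ) (P : G) (c : List G → V)
    (hc : ∀ l, c l ∈ A) (hinv : ∀ l l', List.Forall₂ (RP P) l l' → c l = c l')
    (L : List ((ℕ → G) × Bool))
    (hL : ∀ a ∈ L, (∑ b ∈ range q, η (uu a.1) b = 1) ∧
      ((∀ b, ∃ z : ℤ, η (uu a.1) b = z) ∨ ∀ b, ∃ e : ℕ, a.1 b = P ^ e * a.1 0)) :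
    hat q (fun _ => η) c L ∈ A := by
  induction L generalizing c with
  | nil => simpa using hc []
  | cons a L ih =>
    obtain ⟨h1, h2⟩ := hL a (by simp)
    have hL' := fun a' ha' => hL a' (List.mem_cons_of_mem a ha')
    have hinv' : ∀ x : G, ∀ l l', List.Forall₂ (RP P) l l' → c (x :: l) = c (x :: l') :=
      fun x l l' h => hinv _ _ (List.Forall₂.cons (Or.inl rfl) h)
    have ih' : ∀ x : G, hat q (fun _ => η) (fun l => c (x :: l)) L ∈ A :=
      fun x => ih _ (fun l => hc _) (hinv' x) hL'
    rw [hat_cons]
    rcases h2 with h2 | h2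
    · apply A.sum_mem
      intro b _
      obtain ⟨z, hz⟩ := h2 b
      rw [hz, Int.cast_smul_eq_zsmul]
      exact A.zsmul_mem (ih' _) z
    · have h3 : ∀ b ∈ range q, η (uu a.1) b • hat q (fun _ => η) (fun l => c (a.1 b :: l)) L =
          η (uu a.1) b • hat q (fun _ => η) (fun l => c (a.1 0 :: l)) L := by
        intro b _
        obtain ⟨e, he⟩ := h2 b
        have : (fun l => c (a.1 b :: l)) = fun l => c (a.1 0 :: l) := by
          funext l
          rw [he]
          exact inv_pow_cons P c hinv e _ l
        rw [this]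
      rw [sum_congr rfl h3, ← sum_smul, h1, one_smul]
      exact ih' _

/-- the roots are powers -/
lemma root_pow (z P : G) (m p : ℕ) (hp : p.Prime) (hP : P ^ m = 1) (hz : z ^ p = P)
    (hord : orderOf z < p) (hfin : IsOfFinOrder z) : z ^ m = 1 ∧ ∃ e : ℕ, z = P ^ e := by
  have h1 : z ^ (p * m) = 1 := by rw [pow_mul, hz, hP]
  have h2 : orderOf z ∣ p * m := orderOf_dvd_of_pow_eq_one h1
  have h3 : Nat.Coprime p (orderOf z) := by
    rw [hp.coprime_iff_not_dvd]
    intro h
    have := Nat.le_of_dvd (orderOf_pos_iff.2 hfin) h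
    omega
  have h4 : orderOf z ∣ m := h3.symm.dvd_of_dvd_mul_left h2
  obtain ⟨e, he⟩ := exists_pow_eq_self_of_coprime h3
  rw [hz] at he
  exact ⟨orderOf_dvd_iff_pow_eq_one.1 h4, e, he.symm⟩

end hat

end Pool.Agent.W644.CY
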