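import Pool.Agent.W644.CY.FrobTE

/-!
# The Frobenius congruence for the transfer of closed paths: main lemma
-/

set_option autoImplicit false
set_option linter.unusedSectionVars false

namespace Pool.Agent.W644.CY

open Finset Pool.Agent.W644.HK Equiv Function

universe u v w x y z

section core

variable {K : Type u} [Field K] [CharZero K] {G : Type v} [Group G] {r : Type w} [Fintype r]
  [DecidableEq r] {𝒢 : Type y} [Group 𝒢] (θ : 𝒢 →ₙ* Matrix r r (MonoidAlgebra K G))

lemma col_cases' (N p m : ℕ) (hp : p.Prime) (hm : 0 < m) (B : Finset G)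
    (hord : ∀ h ∈ TN B N, IsOfFinOrder h → orderOf h < p) (l : List G) (hl : l ∈ LS B (p * N))
    (hP : l.prod ^ m = 1) (Y : ℕ → G) (hY : Y ∈ colsOf p N l.prod (pts 1 l)) :
    (∑ b ∈ range p, rk p (uu Y) b = 1) ∧
      ((∀ b, ∃ z : ℤ, rk p (uu Y) b = z) ∨ ∀ b, ∃ e : ℕ, Y b = l.prod ^ e * Y 0) := by
  have hqp := qp_colsOf p N hp.pos l.prod (pts 1 l) Y hY
  have hper := uu_per p hqp
  refine ⟨(good_rk p hp.pos).mass _ hper, ?_⟩
  rcases (Nat.dvd_prime hp).1 (per_dvd p _ hper) with hd | hd
  · right
    have hu : ∀ b, uu Y (b + 1) = uu Y b := by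
      intro b
      have := per_spec (uu Y) b
      rwa [hd] at this
    have hz := eq_pow_of_period p 1 p (by ring) l.prod Y hqp hu
    obtain ⟨i, hi⟩ := (mem_colsOf _ _ _ _ _).1 hY
    have hT := mem_TN B p N hp.two_le l hl i
    rw [← hi] at hT
    have hconj : Y 1 * (Y 0)⁻¹ = Y 0 * uu Y 0 * (Y 0)⁻¹ := by
      unfold uu
      group
    have hfin : IsOfFinOrder (Y 1 * (Y 0)⁻¹) := by
      rw [isOfFinOrder_iff_pow_eq_one]
      refine ⟨p * m, Nat.mul_pos hp.pos hm, ?_⟩
      rw [pow_mul, ← hz, hP]
    have hfin' : IsOfFinOrder (uu Y 0) := by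
      rw [← orderOf_pos_iff] at hfin ⊢
      rwa [hconj, orderOf_conj'] at hfin
    have hlt : orderOf (Y 1 * (Y 0)⁻¹) < p := by
      rw [hconj, orderOf_conj']
      exact hord _ hT hfin'
    obtain ⟨_, e, he⟩ := root_pow (Y 1 * (Y 0)⁻¹) l.prod m p hp hP hz.symm hlt hfin
    intro b
    refine ⟨e * b, ?_⟩
    have h1 := col_pow 1 Y hu b
    rw [mul_one, he, ← pow_mul] at h1
    exact h1
  · left
    intro b
    by_cases h : rk p (uu Y) b = 0
    · exact ⟨0, by rw [h]; simp⟩
    · refine ⟨1, ?_⟩
      rw [rk_val p hp.pos _ hper b h, hd]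
      have : (p : ℚ) ≠ 0 := by exact_mod_cast hp.ne_zero
      rw [div_self this]
      simp

/-- the contribution of a closed path -/
noncomputable def fT (p : ℕ) (c : G → List G → K) (w : List 𝒢) (l : List G) : K :=
  wgt ((cw (rep p w)).map θ) l • hat p (fun _ => rk p) (c l.prod)
    ((colsOf p w.length l.prod (pts 1 l)).map fun Y => (Y, true))

lemma TE_eq_fT (p : ℕ) (c : G → List G → K) (w : List 𝒢) (B : Finset G)
    (hB : ∀ x ∈ cw w, ∀ a b, (θ x a b).coeff.support ⊆ B) :
    TE θ p (fun _ => rk p) true c w = ∑ l ∈ LS B (p * w.length), fT θ p c w l := by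
  rw [TE, Tq_eq_LS θ B p w hB]
  rfl

lemma fT_mem (A : Subring K) (p m : ℕ) (hp : p.Prime) (hm : 0 < m)
    (c : G → List G → K) (hinv : ∀ P l l', List.Forall₂ (RP P) l l' → c P l = c P l')
    (hcA : ∀ P l, c P l ∈ A) (hsupp : ∀ P l, P ^ m ≠ 1 → c P l = 0) (w : List 𝒢) (B : Finset G)
    (hA : ∀ x ∈ cw w, ∀ a b g, (θ x a b).coeff g ∈ A)
    (hord : ∀ h ∈ TN B w.length, IsOfFinOrder h → orderOf h < p)
    (l : List G) (hl : l ∈ LS B (p * w.length)) : fT θ p c w l ∈ A := by
  rw [fT, smul_eq_mul]
  apply A.mul_mem
  · apply wgt_mem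
    intro X hX
    obtain ⟨x, hx, rfl⟩ := List.mem_map.1 hX
    rw [cw_rep] at hx
    exact hA x (mem_rep _ _ _ hx)
  · by_cases hP : l.prod ^ m = 1
    · exact hat_mem' A.toAddSubgroup p (rk p) l.prod (c l.prod) (hcA l.prod)
        (hinv l.prod) ((colsOf p w.length l.prod (pts 1 l)).map fun Y => (Y, true)) (by
          intro a ha
          obtain ⟨Y, hY, rfl⟩ := List.mem_map.1 ha
          exact col_cases' w.length p m hp hm B hord l hl hP Y hY)
    · rw [hat_zero]
      · exact A.zero_mem
      · intro l' _
        exact hsupp _ _ hP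

lemma fT_rot (p : ℕ) (hp : 0 < p) (c : G → List G → K)
    (hequiv : ∀ x P l, c (x * P * x⁻¹) (l.map (x * ·)) = c P l)
    (hinv : ∀ P l l', List.Forall₂ (RP P) l l' → c P l = c P l') (w : List 𝒢)
    (l : List G) (hlen : l.length = p * w.length) :
    fT θ p c w (rot1^[w.length] l) = fT θ p c w l := by
  set N := w.length with hN
  set F : G → List (ℕ → G) → K := fun P L =>
    hat p (fun _ => rk p) (c P) (L.map fun Y => (Y, true)) with hF
  set Xs := (cw (rep p w)).map θ with hXs
  have hXlen : Xs.length = p * N := by rw [hXs, List.length_map, length_cw, length_rep]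
  have hXrot : rot1^[N] Xs = Xs := by
    have h1 := rot1_iterate_rep p (cw w)
    rw [length_cw] at h1
    rw [hXs, rot1_iterate_map, cw_rep, h1]
  have hEqv : Eqv l.length (fun P l => F P (colsOf p N P l)) := by
    rw [hlen]
    apply eqv_cols p N hp F
    intro x P L _
    have h1 := hat_conj p (fun _ => rk p) x (c P) (c (x * P * x⁻¹)) (hequiv x P)
      (L.map fun Y => (Y, true))
    rw [List.map_map] at h1
    simp only [hF]
    rw [List.map_map]
    exact h1
  have h1 : wgt Xs (rot1^[N] l) = wgt Xs l := by
    conv_lhs => rw [← hXrot]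
    exact wgt_rot_iterate Xs l (by rw [hlen, hXlen]) N
  have h2 := CF_rot_iterate (fun P l => F P (colsOf p N P l)) l hEqv N
  unfold CF at h2
  simp only [] at h2
  show wgt Xs (rot1^[N] l) • F (rot1^[N] l).prod (colsOf p N (rot1^[N] l).prod
    (pts 1 (rot1^[N] l))) = wgt Xs l • F l.prod (colsOf p N l.prod (pts 1 l))
  rw [h1, h2, colsOf_rotP_iterate p N hp _ _ (by rw [length_pts, hlen])]
  simp only [hF]
  rw [hat_Sh p (rk p) (good_rk p hp) l.prod _ (hinv l.prod) _
    (qp_colsOf p N hp l.prod (pts 1 l))]

/-- the class function `Q ↦ c (Q ^ p)` -/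
def cpow (p : ℕ) (c : G → List G → K) : G → List G → K := fun Q l => c (Q ^ p) l

/-- the product of the matrices along a path -/
noncomputable def pm (Xs : List (Matrix r r (MonoidAlgebra K G))) (l : List G) : Matrix r r K :=
  (List.zipWith coeffMat Xs l).prod

lemma pm_mem (A : Subring K) (Xs : List (Matrix r r (MonoidAlgebra K G)))
    (hA : ∀ X ∈ Xs, ∀ a b g, (X a b).coeff g ∈ A) (l : List G) : MatIn A (pm Xs l) := by
  unfold pm
  induction Xs generalizing l with
  | nil =>
    intro a b
    rw [List.zipWith_nil_left, List.prod_nil, Matrix.one_apply]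
    split_ifs
    · exact A.one_mem
    · exact A.zero_mem
  | cons X Xs ih =>
    match l with
    | [] =>
      intro a b
      rw [List.zipWith_nil_right, List.prod_nil, Matrix.one_apply]
      split_ifs
      · exact A.one_mem
      · exact A.zero_mem
    | g :: l =>
      rw [List.zipWith_cons_cons, List.prod_cons]
      apply MatIn.mul
      · intro a b
        exact hA X (by simp) a b g
      · exact ih (fun Y hY => hA Y (by simp [hY])) l

lemma fT_rep (p m : ℕ) (hp : p.Prime) (hm : 0 < m)
    (c : G → List G → K) (hinv : ∀ P l l', List.Forall₂ (RP P) l l' → c P l = c P l')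
    (hsupp : ∀ P l, P ^ m ≠ 1 → c P l = 0) (w : List 𝒢) (hw : 0 < w.length) (B : Finset G)
    (hord : ∀ h ∈ TN B w.length, IsOfFinOrder h → orderOf h < p)
    (l : List G) (hl : l ∈ LS B w.length) :
    fT θ p c w (rep p l) = (pm ((cw w).map θ) l ^ p).trace * CF (cpow p c) l := by
  obtain ⟨hlen, hlB⟩ := (mem_LS _ _ _).1 hl
  rw [fT, smul_eq_mul]
  congr 1
  · rw [wgt, cw_rep, map_rep, zipWith_rep _ _ _ _ (by rw [List.length_map, length_cw, hlen]),
      prod_rep]
    rfl
  · rw [prod_rep]
    by_cases hP : (l.prod ^ p) ^ m = 1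
    · have hfin : IsOfFinOrder l.prod := by
        rw [isOfFinOrder_iff_pow_eq_one]
        exact ⟨p * m, Nat.mul_pos hp.pos hm, by rw [pow_mul, hP]⟩
      have hT : l.prod ∈ TN B w.length := by
        classical
        rw [TN]
        exact mem_image_of_mem _ hl
      obtain ⟨_, e, he⟩ := root_pow l.prod (l.prod ^ p) m p hp hP rfl (hord _ hT hfin) hfin
      have hcol : ∀ i : Fin w.length, ∀ b, qext (l.prod ^ p) (p * w.length) (pts 1 (rep p l))
          (i + b * w.length) = l.prod ^ b * (l.take i).prod := by
        intro i b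
        have hi := i.2
        have hbp := Nat.mod_lt b hp.pos
        have hlt : (i : ℕ) + (b % p) * w.length < p * w.length := by
          have h2 : (b % p + 1) * w.length ≤ p * w.length := Nat.mul_le_mul_right _ hbp
          rw [add_mul, one_mul] at h2
          omega
        rw [qext_col p w.length _ _ _ _ hi, getD_pts _ _ _ (by rw [length_rep, hlen]; omega),
          one_mul]
        have htake : ∀ j ≤ p, ((rep p l).take (i + j * w.length)).prod =
            l.prod ^ j * (l.take i).prod ∨ j = p := by
          intro j hj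
          by_cases hjp : j = p
          · exact Or.inr hjp
          · left
            have hjlt : j < p := by omega
            obtain ⟨q, hq⟩ : ∃ q, p = j + (q + 1) := ⟨p - j - 1, by omega⟩
            have happ : ∀ a b : ℕ, rep (a + b) l = rep a l ++ rep b l := by
              intro a b
              induction a with
              | zero => rw [zero_add, rep_zero]; rfl
              | succ a ih => rw [show a + 1 + b = (a + b) + 1 by ring, rep_succ, ih, rep_succ,
                  List.append_assoc]
            rw [hq, happ, rep_succ]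
            have hlj : (rep j l).length = j * w.length := by rw [length_rep, hlen]
            rw [show (i : ℕ) + j * w.length = (rep j l).length + i by rw [hlj]; ring,
              List.take_length_add_append, List.prod_append, prod_rep,
              List.take_append_of_le_length (by omega)]
        rcases htake (b % p) hbp.le with h | h
        · rw [h, ← mul_assoc, ← pow_mul, ← pow_add, Nat.div_add_mod]
        · omega
      rw [hat_fixed p (rk p) (l.prod ^ p) (c (l.prod ^ p)) (hinv _)]
      · unfold CF cpow
        congr 1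
        rw [List.map_map]
        unfold colsOf
        rw [List.map_ofFn]
        apply ext_getD
        · simp [hlen]
        · intro t ht
          have ht' : t < w.length := by simpa using ht
          rw [List.getD_eq_getElem _ _ ht, List.getElem_ofFn, getD_pts _ _ _ (by omega), one_mul]
          have h5 := hcol ⟨t, ht'⟩ 0
          simp only [pow_zero, one_mul] at h5
          exact h5
      · intro a ha
        obtain ⟨Y, hY, rfl⟩ := List.mem_map.1 ha
        refine ⟨(good_rk p hp.pos).mass _ (uu_per p (qp_colsOf p w.length hp.pos _ _ Y hY)), ?_⟩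
        intro b
        obtain ⟨i, hi⟩ := (mem_colsOf _ _ _ _ _).1 hY
        refine ⟨e * b, ?_⟩
        show Y b = _ * Y 0
        rw [hi]
        show qext _ _ _ (i + b * w.length) = _ * qext _ _ _ (i + 0 * w.length)
        rw [hcol i b, hcol i 0, pow_zero, one_mul, pow_mul, ← he]
    · rw [hat_zero]
      · unfold CF cpow
        rw [hsupp _ _ hP]
      · intro l' _
        exact hsupp _ _ hP

end core

end Pool.Agent.W644.CY
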