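import Pool.Agent.W644.CY.Stmt
import Pool.Agent.H23R2.Fin
import Pool.Agent.H219.WhP.LinInf

/-!
# Finitely generated domains are `p`-adically separated for almost all `p`; elements of infinite
order
-/

set_option autoImplicit false
set_option linter.unusedSectionVars false

namespace Pool.Agent.W644.CY

open Finset Pool.Agent.W644.HK Equiv Function

universe u v w x y z

section sep

variable {K : Type u} [Field K] [CharZero K]

lemma psep_of_not_inv (s : Finset K) (p : ℕ) (hp : p.Prime)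
    (h : (p : K)⁻¹ ∉ Algebra.adjoin ℤ (s : Set K)) :
    PSep (Algebra.adjoin ℤ (s : Set K)).toSubring p := by
  set R : Subalgebra ℤ K := Algebra.adjoin ℤ (s : Set K) with hR
  have hft : Algebra.FiniteType ℤ R := by
    rw [← Subalgebra.fg_iff_finiteType]
    exact ⟨s, rfl⟩
  have hN : IsNoetherianRing R := Algebra.FiniteType.isNoetherianRing ℤ R
  intro y hy hdiv
  have hne : (Ideal.span {(p : R)}) ≠ ⊤ := by
    intro htop
    rw [Ideal.span_singleton_eq_top] at htop
    obtain ⟨b, hb⟩ := htop.exists_right_inv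
    apply h
    have h1 : (p : K) * (b : K) = 1 := by
      have := congrArg (fun a : R => (a : K)) hb
      simpa using this
    rw [inv_eq_of_mul_eq_one_right h1]
    exact b.2
  have h2 := Ideal.iInf_pow_eq_bot_of_isDomain (Ideal.span {(p : R)}) hne
  have h3 : (⟨y, hy⟩ : R) ∈ (⨅ i : ℕ, (Ideal.span {(p : R)}) ^ i : Ideal R) := by
    rw [Ideal.mem_iInf]
    intro a
    obtain ⟨z, hz, hyz⟩ := hdiv a
    rw [Ideal.span_singleton_pow, Ideal.mem_span_singleton]
    refine ⟨⟨z, hz⟩, Subtype.ext ?_⟩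
    simpa using hyz
  rw [h2, Ideal.mem_bot] at h3
  exact congrArg (fun a : R => (a : K)) h3

lemma psep_cofinite (s : Finset K) :
    {p : ℕ | p.Prime ∧ ¬ PSep (Algebra.adjoin ℤ (s : Set K)).toSubring p}.Finite := by
  refine (Pool.Agent.H23R2.finite_inv_primes s).subset ?_
  rintro p ⟨hp, h⟩
  refine ⟨hp, ?_⟩
  by_contra hcon
  exact h (psep_of_not_inv s p hp hcon)

end sep

section inf

variable {K : Type u} [Field K] [CharZero K] {G : Type v} [Group G] {r : Type w} [Fintype r]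
  [DecidableEq r] {𝒢 : Type y} [Group 𝒢] (θ : 𝒢 →ₙ* Matrix r r (MonoidAlgebra K G))

open Classical in
/-- the coefficients of a finite set of matrices -/
noncomputable def coefs (xs : Finset 𝒢) : Finset K :=
  xs.biUnion fun x => univ.biUnion fun a => univ.biUnion fun b =>
    (θ x a b).coeff.support.image fun g => (θ x a b).coeff g

lemma mem_adjoin_coefs (xs : Finset 𝒢) (s : Finset K) (hs : coefs θ xs ⊆ s) (x : 𝒢) (hx : x ∈ xs)
    (a b : r) (g : G) : (θ x a b).coeff g ∈ Algebra.adjoin ℤ (s : Set K) := by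
  classical
  by_cases hg : g ∈ (θ x a b).coeff.support
  · apply Algebra.subset_adjoin
    exact hs (mem_biUnion.2 ⟨x, hx, mem_biUnion.2 ⟨a, mem_univ _, mem_biUnion.2 ⟨b, mem_univ _,
      mem_image_of_mem _ hg⟩⟩⟩)
  · rw [Finsupp.notMem_support_iff.1 hg]
    exact Subalgebra.zero_mem _

/-- the part of infinite order -/
theorem chern_inf {n : ℕ} (c : G → (Fin (n + 2) → G) → K) (hc : IsClassCocycle c)
    (s : Finset K) (hs : ∀ P y, c P y ∈ Algebra.adjoin ℤ (s : Set K))
    (hG : ∀ H : Subgroup G, H.FG → ∀ g ∈ H, (∃ y, c g y ≠ 0) →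
      {p : ℕ | p.Prime ∧ ∃ t : ℕ, ∀ x ∈ H, x ^ p ^ t ≠ g}.Infinite)
    (z : (Fin (n + 2) → 𝒢) →₀ ℤ) (hz : IsCyclicCycle z) : chern θ c z = 0 := by
  classical
  set s' : Finset K := s ∪ coefs θ (diffs z.support fun γ => List.ofFn γ) with hs'
  rw [chern_eq]
  refine vanish_core θ (n + 1) (by omega) c hc (Algebra.adjoin ℤ (s' : Set K)).toSubring ?_ ?_
    z.support z (fun γ => List.ofFn γ) (isLam_of_cycle z hz K) ?_
  · intro P y
    exact Algebra.adjoin_mono (by rw [hs', Finset.coe_union]; exact Set.subset_union_left) (hs P y)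
  · intro H hH g hg hgy
    obtain ⟨p, ⟨hp, t, ht⟩, hbad⟩ := ((hG H hH g hg hgy).sdiff (psep_cofinite s')).nonempty
    refine ⟨p, hp, ?_, t, ht⟩
    by_contra hcon
    exact hbad ⟨hp, hcon⟩
  · intro γ hγ u hu v hv a b g
    exact mem_adjoin_coefs θ _ s' subset_union_right _ (mem_diffs _ _ γ hγ u v hu hv) a b g

/-- linear groups over fields of characteristic zero -/
lemma linear_inf {L : Type x} [Field L] [CharZero L] {N : ℕ}
    (φ : G →* GL (Fin N) L) (hφ : Function.Injective φ) (H : Subgroup G) (hH : H.FG) (g : G)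
    (hg : g ∈ H) (hinf : ¬ IsOfFinOrder g) :
    {p : ℕ | p.Prime ∧ ∃ t : ℕ, ∀ x ∈ H, x ^ p ^ t ≠ g}.Infinite := by
  have : Group.FG H := (Group.fg_iff_subgroup_fg H).2 hH
  have h2 := H219.WhP.finite_bad_inf (H := H) (φ.comp H.subtype) (hφ.comp H.subtype_injective)
  refine (Nat.infinite_setOfPred_prime.sdiff h2).mono ?_
  rintro p ⟨hp, hbad⟩
  refine ⟨hp, ?_⟩
  have h3 : ∀ g : H, (∀ k : ℕ, 0 < k → g ^ k ≠ 1) → ∃ k : ℕ, ∀ x : H, x ^ (p ^ k) ≠ g := by
    by_contra h
    exact hbad ⟨hp, h⟩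
  obtain ⟨k, hk⟩ := h3 ⟨g, hg⟩ (by
    intro m hm h0
    apply hinf
    rw [isOfFinOrder_iff_pow_eq_one]
    exact ⟨m, hm, by simpa using congrArg Subtype.val h0⟩)
  refine ⟨k, fun x hx h => hk ⟨x, hx⟩ (Subtype.ext ?_)⟩
  simpa using h

end inf

end Pool.Agent.W644.CY
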