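import Pool.Agent.W644.CY.FrobTE2
import Pool.Agent.W644.CY.Sep

/-!
# The Frobenius congruence
-/

set_option autoImplicit false
set_option linter.unusedSectionVars false

namespace Pool.Agent.W644.CY

open Finset Pool.Agent.W644.HK Equiv Function

universe u v w x y z

section core

variable {K : Type u} [Field K] [CharZero K] {G : Type v} [Group G] {r : Type w} [Fintype r]
  [DecidableEq r] {𝒢 : Type y} [Group 𝒢] (θ : 𝒢 →ₙ* Matrix r r (MonoidAlgebra K G))

theorem TE_frob (A : Subring K) (p m : ℕ) (hp : p.Prime) (hm : 0 < m)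
    (c : G → List G → K) (hequiv : ∀ x P l, c (x * P * x⁻¹) (l.map (x * ·)) = c P l)
    (hinv : ∀ P l l', List.Forall₂ (RP P) l l' → c P l = c P l')
    (hcZ : ∀ P l, ∃ z : ℤ, c P l = z) (hsupp : ∀ P l, P ^ m ≠ 1 → c P l = 0) (w : List 𝒢)
    (hw : 0 < w.length) (B : Finset G) (hB : ∀ x ∈ cw w, ∀ a b, (θ x a b).coeff.support ⊆ B)
    (hA : ∀ x ∈ cw w, ∀ a b g, (θ x a b).coeff g ∈ A)
    (hord : ∀ h ∈ TN B w.length, IsOfFinOrder h → orderOf h < p) :
    Cg A p (TE θ p (fun _ => rk p) true c w) ((JJ θ (cpow p c) w) ^ p) := by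
  classical
  have hcA : ∀ P l, c P l ∈ A := by
    intro P l
    obtain ⟨z, hz⟩ := hcZ P l
    rw [hz]
    exact intCast_mem A z
  set N := w.length with hN
  set ρ : List G → List G := rot1^[N] with hρ
  have hp0 : 0 < p := hp.pos
  have hLS : ∀ l ∈ LS B (p * N), ρ l ∈ LS B (p * N) := by
    intro l hl
    rw [mem_LS] at hl ⊢
    rw [hρ, rot1_iterate, List.length_rotate]
    exact ⟨hl.1, fun x hx => hl.2 x (List.mem_rotate.1 hx)⟩
  have hit : ∀ b (l : List G), ρ^[b] l = l.rotate (N * b) := by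
    intro b l
    rw [hρ, ← iterate_mul, rot1_iterate]
  have hper : ∀ l ∈ LS B (p * N), ρ^[p] l = l := by
    intro l hl
    rw [hit, mul_comm, ← ((mem_LS _ _ _).1 hl).1, List.rotate_length]
  have hf : ∀ l ∈ LS B (p * N), fT θ p c w (ρ l) = fT θ p c w l := by
    intro l hl
    exact fT_rot θ p hp0 c hequiv hinv w l ((mem_LS _ _ _).1 hl).1
  have hterm : ∀ l ∈ LS B (p * N), Cg A p (((p : ℚ) * wt ρ p l) • fT θ p c w l)
      (if ρ l = l then fT θ p c w l else 0) := by
    intro l hl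
    have hpq : (p : ℚ) ≠ 0 := by exact_mod_cast hp.ne_zero
    have hfl := fT_mem θ A p m hp hm c hinv hcA hsupp w B hA hord l hl
    split_ifs with hfix
    · have h1 : wt ρ p l = 1 / p := by
        have hrp : l = rp ρ l := by
          obtain ⟨b, hb⟩ := rp_spec ρ l
          rw [hb, iterate_fixed hfix]
        have hmin : minimalPeriod ρ l = 1 := minimalPeriod_eq_one_iff_isFixedPt.2 hfix
        rw [wt, if_pos hrp, hmin, Nat.cast_one]
      rw [h1, mul_one_div_cancel hpq, one_smul]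
      exact Cg.refl _
    · have hmin : minimalPeriod ρ l = p := by
        rcases (Nat.dvd_prime hp).1 (IsPeriodicPt.minimalPeriod_dvd (hper l hl)) with h | h
        · exact absurd (minimalPeriod_eq_one_iff_isFixedPt.1 h) hfix
        · exact h
      by_cases hwt : wt ρ p l = 0
      · rw [hwt, mul_zero, zero_smul]
        exact Cg.refl _
      · rw [wt_val ρ p l hwt, hmin, div_self hpq, mul_one, Rat.smul_def]
        refine ⟨fT θ p c w l, hfl, ?_⟩
        rw [sub_zero, Rat.cast_natCast]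
  have hsum : ∑ l ∈ LS B (p * N), (if ρ l = l then fT θ p c w l else 0) =
      ∑ l ∈ LS B N, fT θ p c w (rep p l) := by
    rw [← sum_filter]
    symm
    refine sum_nbij' (fun l => rep p l) (fun l => l.take N) ?_ ?_ ?_ ?_ (fun _ _ => rfl)
    · intro l hl
      obtain ⟨hlen, hlB⟩ := (mem_LS _ _ _).1 hl
      rw [mem_filter, mem_LS]
      refine ⟨⟨by rw [length_rep, hlen], fun x hx => hlB x (mem_rep _ _ _ hx)⟩, ?_⟩
      have h1 := rot1_iterate_rep p l
      rw [hlen] at h1
      exact h1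
    · intro l hl
      rw [mem_filter, mem_LS] at hl
      rw [mem_LS]
      refine ⟨?_, fun x hx => hl.1.2 x (List.mem_of_mem_take hx)⟩
      rw [List.length_take, hl.1.1]
      exact min_eq_left (Nat.le_mul_of_pos_left N hp0)
    · intro l hl
      obtain ⟨hlen, _⟩ := (mem_LS _ _ _).1 hl
      show (rep p l).take N = l
      rw [← hlen]
      exact take_rep p hp0 l
    · intro l hl
      rw [mem_filter, mem_LS] at hl
      refine (eq_rep p N l hl.1.1 ?_ hp0).symm
      rw [← rot1_iterate]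
      exact hl.2
  rw [TE_eq_fT θ p c w B hB, ← hN, orbit_sum ρ p hp0 (LS B (p * N)) hLS hper _ hf]
  refine (Cg.sum _ hterm).trans ?_
  rw [hsum]
  have hXA : ∀ X ∈ (cw w).map θ, ∀ a b g, (X a b).coeff g ∈ A := by
    intro X hX
    obtain ⟨x, hx, rfl⟩ := List.mem_map.1 hX
    exact hA x hx
  have hCF : ∀ l : List G, ∃ z : ℤ, CF (cpow p c) l = z := by
    intro l
    unfold CF cpow
    exact hcZ _ _
  have hterm2 : ∀ l ∈ LS B N, Cg A p (fT θ p c w (rep p l))
      ((wgt ((cw w).map θ) l • CF (cpow p c) l) ^ p) := by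
    intro l hl
    rw [fT_rep θ p m hp hm c hinv hsupp w hw B hord l hl, smul_eq_mul, mul_pow]
    obtain ⟨z, hz⟩ := hCF l
    have hpm := pm_mem A ((cw w).map θ) hXA l
    have htr : ∀ M : Matrix r r K, MatIn A M → M.trace ∈ A := fun M hM =>
      A.sum_mem fun i _ => hM i i
    refine Cg.mul (Cg.trace_pow hp hpm) ?_ ?_ ?_
    · rw [hz]
      exact (Cg.int_pow hp z).symm
    · rw [hz]
      exact intCast_mem A z
    · exact A.pow_mem (htr _ hpm) _
  refine (Cg.sum _ hterm2).trans ?_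
  rw [JJ_eq_LS θ B w hB]
  refine (Cg.sum_pow hp _ ?_).symm
  intro l hl
  rw [smul_eq_mul]
  apply A.mul_mem
  · exact wgt_mem A _ hXA _
  · obtain ⟨z, hz⟩ := hCF l
    rw [hz]
    exact intCast_mem A z

end core

end Pool.Agent.W644.CY
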