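import Pool.Agent.W644.CY.Kern

/-!
# Two good kernels give the same value on cycles of the cyclic complex
-/

set_option autoImplicit false
set_option linter.unusedSectionVars false

namespace Pool.Agent.W644.CY

open Finset Pool.Agent.W644.HK Equiv

universe u v w x y z

section left

variable {k : Type u} [CommRing k] {G : Type v} [Group G] {r : Type w} [Fintype r] [DecidableEq r]
  {V : Type x} [AddCommGroup V] [Module k V] {𝒢 : Type y} [Group 𝒢]
  (θ : 𝒢 →ₙ* Matrix r r (MonoidAlgebra k G))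

lemma cwAux_left (g e : 𝒢) (l : List 𝒢) : cwAux (g * e) (l.map (g * ·)) = cwAux e l := by
  induction l with
  | nil => rfl
  | cons a l ih =>
    match l with
    | [] => simp [cwAux, mul_assoc]
    | b :: l =>
      simp only [List.map_cons, cwAux] at ih ⊢
      rw [ih]
      simp [mul_assoc]

lemma cw_left (g : 𝒢) (l : List 𝒢) : cw (l.map (g * ·)) = cw l := by
  match l with
  | [] => rfl
  | a :: l =>
    have := cwAux_left g a (a :: l)
    simpa [cw] using this

lemma getD_map_left {α : Type*} [One α] (f : α → α) (l : List α) (t : ℕ) (ht : t < l.length) :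
    (l.map f).getD t 1 = f (l.getD t 1) := by
  rw [List.getD_eq_getElem _ _ (by rw [List.length_map]; exact ht),
    List.getD_eq_getElem _ _ ht, List.getElem_map]

lemma rep_left (q : ℕ) (f : 𝒢 → 𝒢) (w : List 𝒢) : rep q (w.map f) = (rep q w).map f := by
  rcases Nat.eq_zero_or_pos w.length with h | h
  · have hw : w = [] := List.eq_nil_of_length_eq_zero h
    subst hw
    simp [rep]
  · apply ext_getD
    · simp
    · intro t ht
      rw [length_rep, List.length_map] at ht
      rw [getD_rep _ _ _ (by rw [List.length_map]; exact ht), List.length_map,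
        getD_map_left _ _ _ (Nat.mod_lt _ h), getD_map_left _ _ _ (by rw [length_rep]; exact ht),
        getD_rep _ _ _ ht]

lemma Tq_left (q : ℕ) (F : G → List (ℕ → G) → V) (g : 𝒢) (w : List 𝒢) :
    Tq θ q F (w.map (g * ·)) = Tq θ q F w := by
  rw [Tq, Tq, List.length_map, rep_left, JJ, JJ, cw_left]

end left

section test

variable {𝒢 : Type y} [Group 𝒢]

/-- cycles modulo rotation and left translation, tested on functions -/
structure IsLam (A : Type x) [AddCommGroup A] (n : ℕ) {ι : Type z} (I : Finset ι) (m : ι → ℤ)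
    (w : ι → List 𝒢) : Prop where
  len : ∀ i ∈ I, (w i).length = n + 1
  cyc : ∀ γ : List 𝒢 → A, (∀ v : List 𝒢, v.length = n → γ (rot1 v) = (-1 : ℤ) ^ (n + 1) • γ v) →
    (∀ g v, γ (v.map (g * ·)) = γ v) →
    ∑ i ∈ I, m i • ∑ j ∈ range (n + 1), (-1 : ℤ) ^ j • γ ((w i).eraseIdx j) = 0

end test

section rel

variable {α : Type*} [One α] {V : Type*} [AddCommGroup V]

lemma forall₂_reidx {R : α → α → Prop} {n : ℕ} (ι : Fin n → ℕ) (L L' : List α)
    (h : List.Forall₂ R L L') (hι : ∀ i, ι i < L.length) :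
    List.Forall₂ R (reidx ι L) (reidx ι L') := by
  have hlen := h.length_eq
  rw [List.forall₂_iff_get]
  refine ⟨by simp, ?_⟩
  intro i h1 h2
  rw [length_reidx] at h1
  simp only [reidx, List.get_eq_getElem, List.getElem_ofFn]
  have h3 := hι ⟨i, h1⟩
  rw [List.getD_eq_getElem _ _ h3, List.getD_eq_getElem _ _ (by omega)]
  exact (List.forall₂_iff_get.1 h).2 _ h3 (by omega)

lemma AL_rel {R : α → α → Prop} {n : ℕ} (h : List α → V)
    (hh : ∀ L L', List.Forall₂ R L L' → h L = h L') (L L' : List α) (hL : L.length = n)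
    (hR : List.Forall₂ R L L') : AL n h L = AL n h L' := by
  unfold AL
  apply sum_congr rfl
  intro σ _
  rw [hh _ _ (forall₂_reidx _ L L' hR fun i => by rw [hL]; exact (σ i).2)]

lemma reidx_map (f : α → α) {n m : ℕ} (ι : Fin n → ℕ) (L : List α) (hL : L.length = m)
    (hι : ∀ i, ι i < m) : reidx ι (L.map f) = (reidx ι L).map f := by
  unfold reidx
  rw [List.map_ofFn]
  congr 1
  funext i
  exact getD_map_left f L _ (by rw [hL]; exact hι i)

lemma mem_reidx {n : ℕ} (σ : Perm (Fin n)) (L : List α) (hL : L.length = n) (a : α)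
    (ha : a ∈ reidx (fun i => (σ i : ℕ)) L) : a ∈ L := by
  obtain ⟨i, rfl⟩ := (List.mem_ofFn' _ _).1 ha
  simp only []
  rw [List.getD_eq_getElem _ _ (by rw [hL]; exact (σ i).2)]
  exact List.getElem_mem _

end rel

section hom

variable {k : Type u} [CommRing k] {G : Type v} [Group G] {r : Type w} [Fintype r] [DecidableEq r]
  {V : Type x} [AddCommGroup V] [Module k V] [Module ℚ V] {𝒢 : Type y} [Group 𝒢]

/-- the cochains we use: `N` is the number of points -/
structure Coc (N : ℕ) (c : G → List G → V) : Prop where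
  equiv : ∀ x P l, c (x * P * x⁻¹) (l.map (x * ·)) = c P l
  coc : ∀ (P : G) (l : List G), l.length = N + 1 → bd (c P) l = 0
  alt : ∀ P, AltC N (c P)
  inv : ∀ P l l', List.Forall₂ (RP P) l l' → c P l = c P l'

lemma hat_conj (q : ℕ) (ε : Bool → (ℕ → G) → ℕ → ℚ) (x : G) (c c' : List G → V)
    (hc : ∀ l, c' (l.map (x * ·)) = c l) (L : List ((ℕ → G) × Bool)) :
    hat q ε c' (L.map fun a => ((fun b => x * a.1 b), a.2)) = hat q ε c L := by
  induction L generalizing c c' with
  | nil => simpa using hc []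
  | cons a L ih =>
    rw [List.map_cons, hat_cons, hat_cons]
    apply sum_congr rfl
    intro b _
    have h1 : uu (fun b => x * a.1 b) = uu a.1 := by
      funext b
      simp [uu]
    rw [h1]
    congr 1
    exact ih _ _ fun l => hc (a.1 b :: l)

/-- the alternating homotopy -/
noncomputable def hh (q : ℕ) (ε : Bool → (ℕ → G) → ℕ → ℚ) (n : ℕ) (c : G → List G → V) (P : G) :
    List (ℕ → G) → V :=
  AL n (prism (fun Y => (Y, false)) (fun Y => (Y, true)) (hat q ε (c P)))

lemma hh_eqv (q : ℕ) (ε : Bool → (ℕ → G) → ℕ → ℚ) (n : ℕ) (c : G → List G → V)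
    (hc : ∀ x P l, c (x * P * x⁻¹) (l.map (x * ·)) = c P l) : EqvC n (hh q ε n c) := by
  intro x P L hL
  unfold hh AL
  apply sum_congr rfl
  intro σ _
  rw [reidx_map (fun (Y : ℕ → G) b => x * Y b) _ L hL (fun i => (σ i).2)]
  congr 1
  exact prism_congr (fun Y : ℕ → G => (Y, false)) (fun Y => (Y, true)) (fun Y => (Y, false))
    (fun Y => (Y, true)) (fun (Y : ℕ → G) b => x * Y b)
    (fun a : (ℕ → G) × Bool => ((fun b => x * a.1 b), a.2)) (fun _ => rfl) (fun _ => rfl)
    (hat q ε (c P)) (hat q ε (c (x * P * x⁻¹)))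
    (fun l => hat_conj q ε x (c P) (c (x * P * x⁻¹)) (hc x P) l) _

lemma hh_rot (q : ℕ) (ε : Bool → (ℕ → G) → ℕ → ℚ) (hε : ∀ f, GoodK q (ε f)) (n : ℕ)
    (c : G → List G → V) (P : G) (hc : ∀ l l', List.Forall₂ (RP P) l l' → c P l = c P l')
    (L : List (ℕ → G)) (hL : L.length = n + 1) (hqp : ∀ Y ∈ L, QP q P Y) :
    hh q ε (n + 1) c P (rotS L) = (-1 : ℤ) ^ n • hh q ε (n + 1) c P L := by
  unfold hh
  rw [← AL_rot1 n _ L hL]
  match L, hL, hqp with
  | Y :: L, hL, hqp =>
    rw [rotS, rot1]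
    symm
    apply AL_rel (R := RS q P)
    · intro L1 L2 h12
      refine prism_rel (RS q P) (fun a a' => a'.2 = a.2 ∧ RS q P a.1 a'.1) _ _
        (fun a a' h => ⟨rfl, h⟩) (fun a a' h => ⟨rfl, h⟩) _ _ ?_ L1 L2 h12
      intro l l' hl
      exact hat_rel q ε hε P _ _ hc l l' hl
    · simp only [List.length_append, List.length_singleton]
      simpa using hL
    · have h1 : List.Forall₂ (RS q P) L L := List.forall₂_same.2 fun Z _ => Or.inl rfl
      have h2 : List.Forall₂ (RS q P) [Y] [fun b => Y (b + 1)] :=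
        List.Forall₂.cons (Or.inr ⟨hqp Y (by simp), rfl⟩) List.Forall₂.nil
      exact List.rel_append h1 h2

lemma hh_bd (q : ℕ) (ε : Bool → (ℕ → G) → ℕ → ℚ) (hε : ∀ f, GoodK q (ε f)) (n : ℕ)
    (c : G → List G → V) (hc : Coc (n + 1) c) (P : G)
    (L : List (ℕ → G)) (hL : L.length = n + 1) (hqp : ∀ Y ∈ L, QP q P Y) :
    (n + 1 : ℤ) • bd (hh q ε n c P) L = ((n + 1).factorial : ℤ) •
      (hat q ε (c P) (L.map fun Y => (Y, true)) - hat q ε (c P) (L.map fun Y => (Y, false))) := by
  rw [hh, ← sum_bd_reidx n _ L hL]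
  have h1 : ∀ σ : Perm (Fin (n + 1)),
      bd (prism (fun Y => (Y, false)) (fun Y => (Y, true)) (hat q ε (c P)))
        (reidx (fun i => (σ i : ℕ)) L) =
      (Perm.sign σ : ℤ) • (hat q ε (c P) (L.map fun Y => (Y, true)) -
        hat q ε (c P) (L.map fun Y => (Y, false))) := by
    intro σ
    have h2 := prism_identity (fun Y : ℕ → G => (Y, false)) (fun Y => (Y, true))
      (hat q ε (c P)) (reidx (fun i => (σ i : ℕ)) L)
    have h3 : prism (fun Y : ℕ → G => (Y, false)) (fun Y => (Y, true)) (bd (hat q ε (c P)))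
        (reidx (fun i => (σ i : ℕ)) L) = 0 := by
      apply prism_zero
      intro l hl hx
      rw [length_reidx] at hl
      rw [bd_hat]
      · apply hat_zero
        intro l' hl'
        exact hc.coc P l' (by omega)
      · intro a ha
        obtain ⟨Y, hY, h⟩ := hx a ha
        have hY' := mem_reidx σ L hL Y hY
        have hper := uu_per q (hqp Y hY')
        rcases h with rfl | rfl
        · exact (hε false).mass _ hper
        · exact (hε true).mass _ hper
    rw [h3, add_zero] at h2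
    rw [h2, hat_alt q ε (n + 1) true (c P) (hc.alt P) σ L hL,
      hat_alt q ε (n + 1) false (c P) (hc.alt P) σ L hL, smul_sub]
  simp_rw [h1, smul_smul]
  have h4 : ∀ σ : Perm (Fin (n + 1)), ((Perm.sign σ : ℤ)) * (Perm.sign σ : ℤ) = 1 := by
    intro σ
    rw [← Units.val_mul, ← sq, Int.units_sq]
    rfl
  simp_rw [h4, one_smul]
  rw [sum_const, card_univ, Fintype.card_perm, Fintype.card_fin, natCast_zsmul]

variable (θ : 𝒢 →ₙ* Matrix r r (MonoidAlgebra k G))

/-- the value of a cochain with independent choices by the kernel `η` -/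
noncomputable def TE (q : ℕ) (ε : Bool → (ℕ → G) → ℕ → ℚ) (f : Bool) (c : G → List G → V)
    (w : List 𝒢) : V :=
  Tq θ q (fun P L => hat q ε (c P) (L.map fun Y => (Y, f))) w

theorem TE_eq (q : ℕ) (hq : 0 < q) (ε : Bool → (ℕ → G) → ℕ → ℚ) (hε : ∀ f, GoodK q (ε f)) (n : ℕ)
    (hn : 1 ≤ n) (c : G → List G → V) (hc : Coc (n + 1) c) {ι : Type z} (I : Finset ι)
    (m : ι → ℤ) (w : ι → List 𝒢) (hw : IsLam V n I m w) :
    ∑ i ∈ I, m i • TE θ q ε true c (w i) = ∑ i ∈ I, m i • TE θ q ε false c (w i) := by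
  have h1 := hw.cyc (Tq θ q (hh q ε n c)) (fun v hv => by
      rw [Tq_rot θ q hq _ v (by rw [hv]; exact hh_eqv q ε n c hc.equiv), ← Tq_zsmul]
      apply Tq_congr θ q hq
      intro P L hL hqp
      obtain ⟨n', rfl⟩ : ∃ n', n = n' + 1 := ⟨n - 1, by omega⟩
      rw [hh_rot q ε hε n' c P (hc.inv P) L (by rw [hL, hv]) hqp, pow_add, pow_add]
      simp) (fun g v => Tq_left θ q _ g v)
  have h2 : ∀ i ∈ I, ∑ j ∈ range (n + 1), (-1 : ℤ) ^ j •
      Tq θ q (hh q ε n c) ((w i).eraseIdx j) = Tq θ q (fun P => bd (hh q ε n c P)) (w i) := by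
    intro i hi
    have hl := hw.len i hi
    rw [Tq_bd θ q hq _ (w i) (by omega) (by
      rw [hl]
      exact hh_eqv q ε n c hc.equiv), hl]
  have h3 : ∑ i ∈ I, m i • Tq θ q (fun P => bd (hh q ε n c P)) (w i) = 0 := by
    rw [← h1]
    apply sum_congr rfl
    intro i hi
    rw [h2 i hi]
  have h4 : ∀ i ∈ I, (n + 1 : ℤ) • Tq θ q (fun P => bd (hh q ε n c P)) (w i) =
      ((n + 1).factorial : ℤ) • (TE θ q ε true c (w i) - TE θ q ε false c (w i)) := by
    intro i hi
    rw [TE, TE, ← Tq_sub, ← Tq_zsmul, ← Tq_zsmul]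
    apply Tq_congr θ q hq
    intro P L hL hqp
    exact hh_bd q ε hε n c hc P L (by rw [hL, hw.len i hi]) hqp
  have h5 : ((n + 1).factorial : ℤ) • (∑ i ∈ I, m i • TE θ q ε true c (w i) -
      ∑ i ∈ I, m i • TE θ q ε false c (w i)) = 0 := by
    rw [← sum_sub_distrib, smul_sum, ← smul_zero (n + 1 : ℤ), ← h3, smul_sum]
    apply sum_congr rfl
    intro i hi
    rw [← smul_sub, smul_comm, ← h4 i hi, smul_comm]
  have h6 : ((n + 1).factorial : ℚ) ≠ 0 := by
    exact_mod_cast (n + 1).factorial_ne_zero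
  have h7 : ((n + 1).factorial : ℚ) • (∑ i ∈ I, m i • TE θ q ε true c (w i) -
      ∑ i ∈ I, m i • TE θ q ε false c (w i)) = 0 := by
    rw [← h5, natCast_zsmul, Nat.cast_smul_eq_nsmul]
  rcases smul_eq_zero.1 h7 with h | h
  · exact absurd h h6
  · exact sub_eq_zero.1 h

end hom

end Pool.Agent.W644.CY
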