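import Pool.Agent.H23R2.Fin

/-!
# Polynomials divisible by high powers of their arguments
-/

set_option autoImplicit false
set_option linter.unusedSectionVars false

namespace Pool.Agent.W644.CY

open Finset Polynomial

universe u

variable {K : Type u} [Field K]

lemma eval_mem (A : Subring K) (Q : K[X]) (hQ : ∀ i, Q.coeff i ∈ A) (x : K) (hx : x ∈ A) :
    Q.eval x ∈ A := by
  rw [eval_eq_sum_range]
  exact A.sum_mem fun i _ => A.mul_mem (hQ i) (A.pow_mem hx i)

lemma coeff_zero_of_dvd (A : Subring K) (T : Set K) (hT0 : (0 : K) ∉ T) (hTA : ∀ x ∈ T, x ∈ A)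
    (hsep : ∀ y ∈ A, (∀ x ∈ T, ∃ a ∈ A, y = x * a) → y = 0) (M : ℕ) :
    ∀ Q : K[X], (∀ i, Q.coeff i ∈ A) → (∀ x ∈ T, ∃ a ∈ A, Q.eval x = x ^ M * a) →
      ∀ i < M, Q.coeff i = 0 := by
  induction M with
  | zero => intro Q _ _ i hi; omega
  | succ M ih =>
    intro Q hQ hev
    have hdiv : ∀ x, Q.eval x = Q.divX.eval x * x + Q.coeff 0 := by
      intro x
      conv_lhs => rw [← Q.divX_mul_X_add]
      simp
    have hdA : ∀ i, Q.divX.coeff i ∈ A := by
      intro i
      rw [coeff_divX]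
      exact hQ _
    have h0 : Q.coeff 0 = 0 := by
      apply hsep _ (hQ 0)
      intro x hx
      obtain ⟨a, ha, hxa⟩ := hev x hx
      refine ⟨x ^ M * a - Q.divX.eval x, A.sub_mem (A.mul_mem (A.pow_mem (hTA x hx) M) ha)
        (eval_mem A _ hdA x (hTA x hx)), ?_⟩
      rw [hdiv x] at hxa
      linear_combination hxa
    have h1 := ih Q.divX hdA (by
      intro x hx
      obtain ⟨a, ha, hxa⟩ := hev x hx
      refine ⟨a, ha, ?_⟩
      have hx0 : x ≠ 0 := fun h => hT0 (h ▸ hx)
      rw [hdiv x, h0, add_zero] at hxa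
      apply mul_right_cancel₀ hx0
      rw [hxa]
      ring)
    intro i hi
    match i, hi with
    | 0, _ => exact h0
    | i + 1, hi =>
      have := h1 i (by omega)
      rwa [coeff_divX] at this

/-- the polynomial `∑ S_ℓ binomial(x, ℓ)` -/
noncomputable def bp (N : ℕ) (S : ℕ → K) : K[X] :=
  ∑ ℓ ∈ range (N + 1), C (S ℓ / (ℓ.factorial : K)) * descPochhammer K ℓ

variable [CharZero K]

lemma eval_bp (N : ℕ) (S : ℕ → K) (x : ℕ) :
    (bp N S).eval (x : K) = ∑ ℓ ∈ range (N + 1), (x.choose ℓ) • S ℓ := by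
  rw [bp, eval_finsetSum]
  apply sum_congr rfl
  intro ℓ _
  rw [eval_mul, eval_C, descPochhammer_eval_eq_descFactorial, Nat.descFactorial_eq_factorial_mul_choose,
    nsmul_eq_mul]
  have : (ℓ.factorial : K) ≠ 0 := by exact_mod_cast ℓ.factorial_ne_zero
  push_cast
  field_simp

lemma coeff_bp_top (N : ℕ) (S : ℕ → K) : (bp N S).coeff N = S N / (N.factorial : K) := by
  rw [bp, finsetSum_coeff, sum_range_succ, sum_eq_zero, zero_add, coeff_C_mul]
  · have h1 : (descPochhammer K N).coeff N = 1 := by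
      have := (monic_descPochhammer K N).coeff_natDegree
      rwa [descPochhammer_natDegree] at this
    rw [h1, mul_one]
  · intro ℓ hℓ
    rw [mem_range] at hℓ
    rw [coeff_C_mul, coeff_eq_zero_of_natDegree_lt, mul_zero]
    rw [descPochhammer_natDegree]
    exact hℓ

lemma coeff_bp_gt (N : ℕ) (S : ℕ → K) (i : ℕ) (hi : N < i) : (bp N S).coeff i = 0 := by
  rw [bp, finsetSum_coeff]
  apply sum_eq_zero
  intro ℓ hℓ
  rw [mem_range] at hℓ
  rw [coeff_C_mul, coeff_eq_zero_of_natDegree_lt, mul_zero]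
  rw [descPochhammer_natDegree]
  omega

/-- if the values at infinitely many primes `p` are divisible by `p ^ N` in a fixed finitely
generated ring then the polynomial is a monomial -/
theorem concl_primes (s : Finset K) (Pr : Set ℕ) (hPr : Pr.Infinite) (hprime : ∀ p ∈ Pr, p.Prime)
    (N : ℕ) (S : ℕ → K)
    (h : ∀ p ∈ Pr, ∃ a ∈ Algebra.adjoin ℤ (s : Set K),
      ∑ ℓ ∈ range (N + 1), (p.choose ℓ) • S ℓ = (p : K) ^ N * a) (x : ℕ) :
    ∑ ℓ ∈ range (N + 1), (x.choose ℓ) • S ℓ = (x : K) ^ N * (S N / (N.factorial : K)) := by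
  classical
  set s' : Finset K := s ∪ (range (N + 1)).image fun i => (bp N S).coeff i with hs'
  set A : Subring K := (Algebra.adjoin ℤ (s' : Set K)).toSubring with hA
  have hsub : ∀ y ∈ Algebra.adjoin ℤ (s : Set K), y ∈ A := fun y hy =>
    Algebra.adjoin_mono (by rw [hs', Finset.coe_union]; exact Set.subset_union_left) hy
  have hcoef : ∀ i, (bp N S).coeff i ∈ A := by
    intro i
    by_cases hi : i < N + 1
    · apply Algebra.subset_adjoin
      rw [Finset.mem_coe, hs', mem_union]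
      exact Or.inr (mem_image.2 ⟨i, mem_range.2 hi, rfl⟩)
    · rw [coeff_bp_gt N S i (by omega)]
      exact A.zero_mem
  have hzero := coeff_zero_of_dvd A ((fun p : ℕ => (p : K)) '' Pr) (by
      rintro ⟨p, hp, h0⟩
      have h1 := (hprime p hp).ne_zero
      have h2 : (p : K) = 0 := h0
      exact h1 (by exact_mod_cast h2)) (by
      rintro _ ⟨p, hp, rfl⟩
      exact natCast_mem A p) (by
      intro y _ hy
      by_contra hne
      have hfin := Pool.Agent.H23R2.finite_dvd_primes s' y hne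
      apply hPr
      apply hfin.subset
      intro p hp
      obtain ⟨a, ha, hya⟩ := hy _ ⟨p, hp, rfl⟩
      exact ⟨hprime p hp, a, ha, hya⟩) N (bp N S) hcoef (by
      rintro _ ⟨p, hp, rfl⟩
      obtain ⟨a, ha, hpa⟩ := h p hp
      refine ⟨a, hsub a ha, ?_⟩
      simp only []
      rw [eval_bp, hpa])
  rw [← eval_bp, eval_eq_sum_range' (n := N + 1), sum_range_succ, sum_eq_zero, zero_add,
    coeff_bp_top]
  · ring
  · intro i hi
    rw [hzero i (mem_range.1 hi), zero_mul]
  · rw [Nat.lt_succ_iff, natDegree_le_iff_coeff_eq_zero]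
    intro i hi
    exact coeff_bp_gt N S i hi

/-- if the values at the powers of `p` are divisible by a higher power than the degree then
the polynomial vanishes -/
theorem concl_powers (A : Subring K) (p : ℕ) (hp : p ≠ 0)
    (hsep : ∀ y ∈ A, (∀ a : ℕ, ∃ z ∈ A, y = (p : K) ^ a * z) → y = 0)
    (N : ℕ) (S : ℕ → K) (hS : ∀ ℓ, S ℓ ∈ A) (e : ℕ) (he : e ≠ 0) (a0 : ℕ)
    (h : ∀ a : ℕ, a0 ≤ a → ∃ z ∈ A,
      (e : K) * ∑ ℓ ∈ range (N + 1), ((p ^ a).choose ℓ) • S ℓ = ((p : K) ^ a) ^ (N + 1) * z)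
    (x : ℕ) :
    ∑ ℓ ∈ range (N + 1), (x.choose ℓ) • S ℓ = 0 := by
  set Q : K[X] := C (((e * N.factorial : ℕ) : K)) * bp N S with hQ
  have hpK : (p : K) ≠ 0 := by exact_mod_cast hp
  have hcoef : ∀ i, Q.coeff i ∈ A := by
    intro i
    rw [hQ, coeff_C_mul, bp, finsetSum_coeff, mul_sum]
    apply A.sum_mem
    intro ℓ hℓ
    rw [mem_range] at hℓ
    rw [coeff_C_mul]
    have h1 : (descPochhammer K ℓ).coeff i ∈ A := by
      rw [← descPochhammer_map (Int.castRingHom K), coeff_map]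
      exact intCast_mem A _
    have h2 : ℓ.factorial ∣ N.factorial := Nat.factorial_dvd_factorial (by omega)
    obtain ⟨m, hm⟩ := h2
    have h3 : ((e * N.factorial : ℕ) : K) * (S ℓ / (ℓ.factorial : K) *
        (descPochhammer K ℓ).coeff i) = ((e * m : ℕ) : K) * (S ℓ * (descPochhammer K ℓ).coeff i) := by
      rw [hm]
      have : (ℓ.factorial : K) ≠ 0 := by exact_mod_cast ℓ.factorial_ne_zero
      push_cast
      field_simp
    rw [h3]
    exact A.mul_mem (natCast_mem A _) (A.mul_mem (hS ℓ) h1)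
  have hzero := coeff_zero_of_dvd A ((fun a : ℕ => (p : K) ^ a) '' {a | a0 ≤ a}) (by
      rintro ⟨a, _, h0⟩
      exact pow_ne_zero a hpK h0) (by
      rintro _ ⟨a, _, rfl⟩
      exact A.pow_mem (natCast_mem A p) a) (by
      intro y hyA hy
      apply hsep y hyA
      intro a
      obtain ⟨z, hz, hyz⟩ := hy _ ⟨a0 + a, by simp, rfl⟩
      refine ⟨(p : K) ^ a0 * z, A.mul_mem (A.pow_mem (natCast_mem A p) _) hz, ?_⟩
      rw [hyz]
      ring) (N + 1) Q hcoef (by
      rintro _ ⟨a, ha, rfl⟩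
      obtain ⟨z, hz, hz'⟩ := h a ha
      refine ⟨(N.factorial : K) * z, A.mul_mem (natCast_mem A _) hz, ?_⟩
      rw [hQ, eval_mul, eval_C]
      have h5 : (bp N S).eval ((p : K) ^ a) = ∑ ℓ ∈ range (N + 1), ((p ^ a).choose ℓ) • S ℓ := by
        rw [← eval_bp]
        push_cast
        rfl
      rw [h5]
      push_cast
      linear_combination (N.factorial : K) * hz')
  have hQ0 : Q = 0 := by
    ext i
    rw [coeff_zero]
    by_cases hi : i < N + 1
    · exact hzero i hi
    · rw [hQ, coeff_C_mul, coeff_bp_gt N S i (by omega), mul_zero]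
  have hb : bp N S = 0 := by
    rw [hQ, mul_eq_zero] at hQ0
    rcases hQ0 with h1 | h1
    · exfalso
      rw [C_eq_zero] at h1
      have h2 : e * N.factorial ≠ 0 := Nat.mul_ne_zero he N.factorial_ne_zero
      exact h2 (by exact_mod_cast h1)
    · exact h1
  rw [← eval_bp, hb, eval_zero]

end Pool.Agent.W644.CY
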