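import Pool.Agent.W644.CY.Path
import Pool.Agent.W644.CY.Poly

/-!
# Integrality of the choices of vertices
-/

set_option autoImplicit false
set_option linter.unusedSectionVars false

namespace Pool.Agent.W644.CY

open Finset Pool.Agent.W644.HK Equiv Function

universe u v w x y z

section hatmem

variable {G : Type v} [Group G] {V : Type x} [AddCommGroup V] [Module ℚ V]

lemma inv_pow_cons (P : G) (c : List G → V)
    (hinv : ∀ l l', List.Forall₂ (RP P) l l' → c l = c l') (b : ℕ) (x : G) (l : List G) :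
    c (P ^ b * x :: l) = c (x :: l) := by
  induction b with
  | zero => simp
  | succ b ih =>
    rw [← ih]
    symm
    apply hinv
    refine List.Forall₂.cons (Or.inr ?_) (List.forall₂_same.2 fun _ _ => Or.inl rfl)
    rw [pow_succ', mul_assoc]

/-- the value on a list of columns, up to a denominator -/
lemma hat_mem (A : AddSubgroup V) (q D : ℕ) (η : (ℕ → G) → ℕ → ℚ) (P : G) (c : List G → V)
    (hc : ∀ l, c l ∈ A) (hinv : ∀ l l', List.Forall₂ (RP P) l l' → c l = c l')
    (L : List ((ℕ → G) × Bool))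
    (hL : ∀ a ∈ L, (∑ b ∈ range q, η (uu a.1) b = 1) ∧
      ((∀ b, ∃ z : ℤ, (D : ℚ) * η (uu a.1) b = z) ∨ ∀ b, a.1 b = P ^ b * a.1 0)) :
    (D ^ L.length : ℤ) • hat q (fun _ => η) c L ∈ A := by
  induction L generalizing c with
  | nil => simpa using hc []
  | cons a L ih =>
    obtain ⟨h1, h2⟩ := hL a (by simp)
    have hL' := fun a' ha' => hL a' (List.mem_cons_of_mem a ha')
    have hinv' : ∀ x : G, ∀ l l', List.Forall₂ (RP P) l l' → c (x :: l) = c (x :: l') :=
      fun x l l' h => hinv _ _ (List.Forall₂.cons (Or.inl rfl) h)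
    have ih' : ∀ x : G, (D ^ L.length : ℤ) • hat q (fun _ => η) (fun l => c (x :: l)) L ∈ A :=
      fun x => ih _ (fun l => hc _) (hinv' x) hL'
    rw [hat_cons, List.length_cons, pow_succ]
    rcases h2 with h2 | h2
    · rw [mul_comm, mul_smul, smul_sum]
      have h3 : ∀ b ∈ range q, (D ^ L.length : ℤ) • (η (uu a.1) b •
          hat q (fun _ => η) (fun l => c (a.1 b :: l)) L) =
          η (uu a.1) b • ((D ^ L.length : ℤ) • hat q (fun _ => η) (fun l => c (a.1 b :: l)) L) := by
        intro b _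
        rw [smul_comm]
      rw [sum_congr rfl h3, smul_sum]
      apply A.sum_mem
      intro b _
      obtain ⟨z, hz⟩ := h2 b
      rw [natCast_zsmul, ← Nat.cast_smul_eq_nsmul ℚ, smul_smul, hz, Int.cast_smul_eq_zsmul]
      exact A.zsmul_mem (ih' _) z
    · have h3 : ∀ b ∈ range q, η (uu a.1) b • hat q (fun _ => η) (fun l => c (a.1 b :: l)) L =
          η (uu a.1) b • hat q (fun _ => η) (fun l => c (a.1 0 :: l)) L := by
        intro b _
        have : (fun l => c (a.1 b :: l)) = fun l => c (a.1 0 :: l) := by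
          funext l
          rw [h2 b]
          exact inv_pow_cons P c hinv b _ l
        rw [this]
      rw [sum_congr rfl h3, ← sum_smul, h1, one_smul, mul_comm, mul_smul]
      exact A.zsmul_mem (ih' _) _

end hatmem

section cols

variable {G : Type v} [Group G]

lemma take_mem_closure (H : Subgroup G) (l : List G) (hl : ∀ x ∈ l, x ∈ H) (t : ℕ) :
    (l.take t).prod ∈ H :=
  H.list_prod_mem fun x hx => hl x (List.mem_of_mem_take hx)

/-- the entries of the columns of a path -/
lemma col_apply (q N : ℕ) (l : List G) (hl : l.length = q * N) (i : Fin N) (b : ℕ) (hb : b < q) :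
    qext l.prod (q * N) (pts 1 l) (i + b * N) = (l.take (i + b * N)).prod := by
  have hi := i.2
  have hlt : (i : ℕ) + b * N < q * N := by
    have h2 : (b + 1) * N ≤ q * N := Nat.mul_le_mul_right _ hb
    rw [add_mul, one_mul] at h2
    omega
  rw [qext_col q N _ _ _ _ hi, Nat.div_eq_of_lt hb, Nat.mod_eq_of_lt hb, pow_zero, one_mul,
    getD_pts _ _ _ (by omega), one_mul]

lemma qext_mem (H : Subgroup G) (l : List G) (hl : ∀ x ∈ l, x ∈ H) (M : ℕ) (hM : l.length = M)
    (hM0 : 0 < M) (t : ℕ) : qext l.prod M (pts 1 l) t ∈ H := by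
  have hlt := Nat.mod_lt t hM0
  rw [qext, getD_pts _ _ _ (by omega), one_mul]
  exact H.mul_mem (H.pow_mem (H.list_prod_mem hl) _) (take_mem_closure H l hl _)

lemma uu_zero (q N : ℕ) (hq : 2 ≤ q) (l : List G) (hl : l.length = q * N) (i : Fin N) :
    uu (fun b => qext l.prod (q * N) (pts 1 l) (i + b * N)) 0 = ((l.drop i).take N).prod := by
  have h0 := col_apply q N l hl i 0 (by omega)
  have h1 := col_apply q N l hl i 1 (by omega)
  unfold uu
  simp only []
  rw [h0, show (0 + 1 : ℕ) = 1 from rfl, h1]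
  simp only [zero_mul, one_mul, add_zero]
  rw [List.take_add, List.prod_append, inv_mul_cancel_left]

lemma mem_colsOf (q N : ℕ) (P : G) (l : List G) (Y : ℕ → G) :
    Y ∈ colsOf q N P l ↔ ∃ i : Fin N, Y = fun b => qext P (q * N) l (i + b * N) := by
  unfold colsOf
  rw [List.mem_ofFn']
  constructor
  · rintro ⟨i, hi⟩
    exact ⟨i, hi.symm⟩
  · rintro ⟨i, hi⟩
    exact ⟨i, hi.symm⟩

/-- an element of finite order whose `p`-th power is fixed by `m`-torsion considerations -/
lemma root_eq (z P : G) (m p : ℕ) (hp : p.Prime) (hP : P ^ m = 1) (hpm : p ≡ 1 [MOD m])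
    (hz : z ^ p = P) (hord : orderOf z < p) (hfin : IsOfFinOrder z) : z = P := by
  have h1 : z ^ (p * m) = 1 := by rw [pow_mul, hz, hP]
  have h2 : orderOf z ∣ p * m := orderOf_dvd_of_pow_eq_one h1
  have h3 : Nat.Coprime (orderOf z) p := by
    apply Nat.Coprime.symm
    rw [hp.coprime_iff_not_dvd]
    intro h
    have := Nat.le_of_dvd (orderOf_pos_iff.2 hfin) h
    omega
  have h4 : orderOf z ∣ m := h3.dvd_of_dvd_mul_left h2
  have h5 : m ∣ p - 1 := by
    have := (Nat.modEq_iff_dvd' hp.one_lt.le).1 hpm.symm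
    exact this
  have h6 : z ^ (p - 1) = 1 := orderOf_dvd_iff_pow_eq_one.1 (h4.trans h5)
  have h7 : z ^ p = z := by
    conv_lhs => rw [show p = (p - 1) + 1 by have := hp.one_lt; omega]
    rw [pow_succ, h6, one_mul]
  rw [← hz, h7]

end cols

end Pool.Agent.W644.CY
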