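import Pool.Agent.W644.CY.Alt

/-!
# Kernels choosing entries of columns
-/

set_option autoImplicit false
set_option linter.unusedSectionVars false

namespace Pool.Agent.W644.CY

open Finset Pool.Agent.W644.HK Equiv

universe u v w x y

section prismrel

variable {α : Type u} {β : Type w} {V : Type v} [AddCommGroup V]

lemma prism_rel (R : α → α → Prop) (R' : β → β → Prop) (e0 e1 : α → β)
    (h0 : ∀ a a', R a a' → R' (e0 a) (e0 a')) (h1 : ∀ a a', R a a' → R' (e1 a) (e1 a'))
    (c c' : List β → V) (hc : ∀ l l', List.Forall₂ R' l l' → c l = c' l') (L L' : List α)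
    (hL : List.Forall₂ R L L') : prism e0 e1 c L = prism e0 e1 c' L' := by
  induction hL generalizing c c' with
  | nil => simp
  | @cons a a' L L' ha hL ih =>
    rw [prism_cons, prism_cons]
    have h2 : List.Forall₂ R' (L.map e1) (L'.map e1) := by
      rw [List.forall₂_map_left_iff, List.forall₂_map_right_iff]
      exact hL.imp fun a a' h => h1 a a' h
    rw [hc _ _ (List.Forall₂.cons (h0 _ _ ha) (List.Forall₂.cons (h1 _ _ ha) h2)),
      ih _ _ fun l l' hl => hc _ _ (List.Forall₂.cons (h0 _ _ ha) hl)]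

lemma prism_zero (e0 e1 : α → β) (c : List β → V) (L : List α)
    (hc : ∀ l : List β, l.length = L.length + 1 → (∀ x ∈ l, ∃ a ∈ L, x = e0 a ∨ x = e1 a) →
      c l = 0) : prism e0 e1 c L = 0 := by
  induction L generalizing c with
  | nil => simp
  | cons a L ih =>
    rw [prism_cons, hc, ih, sub_zero]
    · intro l hl hx
      apply hc
      · simp [hl]
      · intro x hx'
        rw [List.mem_cons] at hx'
        rcases hx' with rfl | hx'
        · exact ⟨a, by simp, Or.inl rfl⟩
        · obtain ⟨a', ha', h⟩ := hx x hx'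
          exact ⟨a', List.mem_cons_of_mem _ ha', h⟩
    · simp
    · intro x hx
      simp only [List.mem_cons, List.mem_map] at hx
      rcases hx with rfl | rfl | ⟨a', ha', rfl⟩
      · exact ⟨a, by simp, Or.inl rfl⟩
      · exact ⟨a, by simp, Or.inr rfl⟩
      · exact ⟨a', List.mem_cons_of_mem _ ha', Or.inr rfl⟩

lemma bd_sum_fun {ι : Type*} (s : Finset ι) (c : ι → List α → V) (l : List α) :
    bd (fun l => ∑ i ∈ s, c i l) l = ∑ i ∈ s, bd (c i) l := by
  simp only [bd_eq_sum, smul_sum]
  rw [sum_comm]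

lemma bd_qsmul [Module ℚ V] (a : ℚ) (c : List α → V) (l : List α) :
    bd (fun l => a • c l) l = a • bd c l := by
  simp only [bd_eq_sum, smul_sum]
  apply sum_congr rfl
  intro i _
  rw [smul_comm]

lemma bd_congr_len (c c' : List α → V) (l : List α)
    (h : ∀ l' : List α, l'.length + 1 = l.length → c l' = c' l') : bd c l = bd c' l := by
  rw [bd_eq_sum, bd_eq_sum]
  apply sum_congr rfl
  intro i hi
  rw [mem_range] at hi
  rw [h]
  rw [List.length_eraseIdx_of_lt hi]
  omega

end prismrel

section hat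

variable {G : Type v} [Group G] {V : Type x} [AddCommGroup V] [Module ℚ V] {κ : Type y}

/-- the quotients of successive entries of a column -/
def uu (Y : ℕ → G) (b : ℕ) : G := (Y b)⁻¹ * Y (b + 1)

/-- the expectation of a cochain for independent choices of entries of the columns -/
def hat (q : ℕ) (ε : κ → (ℕ → G) → ℕ → ℚ) : (List G → V) → List ((ℕ → G) × κ) → V
  | c, [] => c []
  | c, a :: L => ∑ b ∈ range q, ε a.2 (uu a.1) b • hat q ε (fun l => c (a.1 b :: l)) L

variable (q : ℕ) (ε : κ → (ℕ → G) → ℕ → ℚ)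

@[simp] lemma hat_nil (c : List G → V) : hat q ε c [] = c [] := by rw [hat]

lemma hat_cons (c : List G → V) (a : (ℕ → G) × κ) (L : List ((ℕ → G) × κ)) :
    hat q ε c (a :: L) = ∑ b ∈ range q, ε a.2 (uu a.1) b • hat q ε (fun l => c (a.1 b :: l)) L := by
  rw [hat]

lemma hat_sub (c c' : List G → V) (L : List ((ℕ → G) × κ)) :
    hat q ε (fun l => c l - c' l) L = hat q ε c L - hat q ε c' L := by
  induction L generalizing c c' with
  | nil => simp
  | cons a L ih =>
    rw [hat_cons, hat_cons, hat_cons, ← sum_sub_distrib]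
    apply sum_congr rfl
    intro b _
    rw [ih, smul_sub]

lemma hat_zero (c : List G → V) (L : List ((ℕ → G) × κ))
    (hc : ∀ l : List G, l.length = L.length → c l = 0) : hat q ε c L = 0 := by
  induction L generalizing c with
  | nil => simpa using hc [] rfl
  | cons a L ih =>
    rw [hat_cons]
    apply sum_eq_zero
    intro b _
    rw [ih, smul_zero]
    intro l hl
    exact hc _ (by simp [hl])

/-- total mass one on a list of decorated columns -/
def Mass (L : List ((ℕ → G) × κ)) : Prop := ∀ a ∈ L, ∑ b ∈ range q, ε a.2 (uu a.1) b = 1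

lemma bd_hat (c : List G → V) (L : List ((ℕ → G) × κ)) (hL : Mass q ε L) :
    bd (hat q ε c) L = hat q ε (bd c) L := by
  induction L generalizing c with
  | nil => simp
  | cons a L ih =>
    have h1 : Mass q ε L := fun b hb => hL b (List.mem_cons_of_mem _ hb)
    have h2 := hL a (by simp)
    rw [bd_cons, hat_cons]
    have h3 : (fun l' => hat q ε c (a :: l')) = fun l' => ∑ b ∈ range q, ε a.2 (uu a.1) b •
        hat q ε (fun l => c (a.1 b :: l)) l' := by
      funext l'
      rw [hat_cons]
    rw [h3, bd_sum_fun]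
    simp_rw [bd_qsmul]
    have h4 : ∀ b, hat q ε (fun l => bd c (a.1 b :: l)) L =
        hat q ε c L - bd (hat q ε fun l => c (a.1 b :: l)) L := by
      intro b
      rw [ih _ h1, ← hat_sub]
      simp only [bd_cons]
    simp_rw [h4, smul_sub]
    rw [sum_sub_distrib, ← sum_smul, h2, one_smul]

/-- the relation of changing entries by left multiplication by `P` -/
def RP (P : G) (x x' : G) : Prop := x' = x ∨ x' = P * x

/-- the relation of shifting quasi-periodic columns -/
def RS (q : ℕ) (P : G) (Y Y' : ℕ → G) : Prop := Y' = Y ∨ (QP q P Y ∧ Y' = fun b => Y (b + 1))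

/-- good kernels -/
structure GoodK (η : (ℕ → G) → ℕ → ℚ) : Prop where
  mass : ∀ u : ℕ → G, (∀ b, u (b + q) = u b) → ∑ b ∈ range q, η u b = 1
  shift : ∀ u : ℕ → G, (∀ b, u (b + q) = u b) → ∀ b, η (fun b => u (b + 1)) b = η u (b + 1)
  per : ∀ u : ℕ → G, (∀ b, u (b + q) = u b) → η u q = η u 0

lemma uu_per {P : G} {Y : ℕ → G} (hY : QP q P Y) (b : ℕ) : uu Y (b + q) = uu Y b := by
  unfold uu
  have h1 := hY b
  have h2 := hY (b + 1)
  rw [show b + q + 1 = b + 1 + q by ring, h1, h2]
  group

lemma hat_rel (hε : ∀ f, GoodK q (ε f)) (P : G) (c c' : List G → V)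
    (hc : ∀ l l', List.Forall₂ (RP P) l l' → c l = c' l') (L L' : List ((ℕ → G) × κ))
    (hL : List.Forall₂ (fun a a' => a'.2 = a.2 ∧ RS q P a.1 a'.1) L L') :
    hat q ε c L = hat q ε c' L' := by
  induction hL generalizing c c' with
  | nil => simpa using hc [] [] List.Forall₂.nil
  | @cons a a' L L' ha hL ih =>
    rw [hat_cons, hat_cons]
    obtain ⟨hf, hY⟩ := ha
    rcases hY with hY | ⟨hqp, hY⟩
    · rw [hf, hY]
      apply sum_congr rfl
      intro b _
      rw [ih _ _ fun l l' hl => hc _ _ (List.Forall₂.cons (Or.inl rfl) hl)]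
    · have hper := uu_per q hqp
      have h1 : uu a'.1 = fun b => uu a.1 (b + 1) := by
        rw [hY]
        rfl
      have h2 : ∀ b, hat q ε (fun l => c' (a'.1 b :: l)) L' =
          hat q ε (fun l => c (a.1 (b + 1) :: l)) L := by
        intro b
        rw [hY]
        exact (ih _ _ fun l l' hl => hc _ _ (List.Forall₂.cons (Or.inl rfl) hl)).symm
      simp_rw [h2, h1, hf, (hε a.2).shift _ hper]
      have h3 : hat q ε (fun l => c (a.1 q :: l)) L = hat q ε (fun l => c (a.1 0 :: l)) L := by
        have h4 : hat q ε (fun l => c (a.1 q :: l)) L =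
            hat q ε (fun l => c' (a.1 q :: l)) L' :=
          ih _ _ fun l l' hl => hc _ _ (List.Forall₂.cons (Or.inl rfl) hl)
        have h5 : hat q ε (fun l => c (a.1 0 :: l)) L =
            hat q ε (fun l => c' (a.1 q :: l)) L' := by
          refine ih _ _ fun l l' hl => hc _ _ (List.Forall₂.cons (Or.inr ?_) hl)
          have := hqp 0
          rwa [zero_add] at this
        rw [h4, h5]
      have h6 := sum_range_succ' (fun b => ε a.2 (uu a.1) b •
        hat q ε (fun l => c (a.1 b :: l)) L) q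
      rw [sum_range_succ, (hε a.2).per _ hper, h3] at h6
      exact add_right_cancel h6

/-- expansion of the expectation -/
lemma hat_eq_sum (N : ℕ) (f : κ) (Y : Fin N → ℕ → G) (c : List G → V) :
    hat q ε c (List.ofFn fun i => (Y i, f)) =
      ∑ b : Fin N → Fin q, (∏ i, ε f (uu (Y i)) (b i)) • c (List.ofFn fun i => Y i (b i)) := by
  induction N generalizing c with
  | zero => simp
  | succ N ih =>
    rw [List.ofFn_succ, hat_cons]
    simp_rw [ih]
    rw [← Fintype.sum_equiv (Fin.consEquiv fun _ : Fin (N + 1) => Fin q)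
      (fun b : Fin q × (Fin N → Fin q) => (ε f (uu (Y 0)) b.1 *
        ∏ i : Fin N, ε f (uu (Y i.succ)) (b.2 i)) •
          c (Y 0 b.1 :: List.ofFn fun i : Fin N => Y i.succ (b.2 i)))]
    · rw [Fintype.sum_prod_type, ← Fin.sum_univ_eq_sum_range
        fun b => ε f (uu (Y 0)) b • ∑ b' : Fin N → Fin q,
          (∏ i, ε f (uu (Y i.succ)) (b' i)) • c (Y 0 b :: List.ofFn fun i => Y i.succ (b' i))]
      apply sum_congr rfl
      intro b _
      rw [smul_sum]
      apply sum_congr rfl
      intro b' _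
      rw [mul_smul]
    · rintro ⟨b, b'⟩
      rw [Fin.prod_univ_succ, List.ofFn_succ]
      simp [Fin.consEquiv]

/-- alternating on lists of length `N` -/
def AltC (N : ℕ) (c : List G → V) : Prop :=
  ∀ (σ : Perm (Fin N)) (l : List G), l.length = N →
    c (reidx (fun i => (σ i : ℕ)) l) = (Perm.sign σ : ℤ) • c l

lemma eq_ofFn {α : Type*} [One α] (L : List α) (N : ℕ) (hL : L.length = N) :
    L = List.ofFn fun i : Fin N => L.getD i 1 := by
  apply ext_getD
  · simp [hL]
  · intro t ht
    rw [List.getD_eq_getElem (List.ofFn _) _ (by simpa using by omega)]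
    simp

lemma reidx_ofFn {α : Type*} [One α] {N : ℕ} (σ : Perm (Fin N)) (Y : Fin N → α) :
    reidx (fun i => (σ i : ℕ)) (List.ofFn Y) = List.ofFn fun i => Y (σ i) := by
  unfold reidx
  congr 1
  funext i
  rw [List.getD_eq_getElem _ _ (by simp)]
  simp

lemma hat_alt (N : ℕ) (f : κ) (c : List G → V) (hc : AltC N c) (σ : Perm (Fin N))
    (L : List (ℕ → G)) (hL : L.length = N) :
    hat q ε c ((reidx (fun i => (σ i : ℕ)) L).map fun Y => (Y, f)) =
      (Perm.sign σ : ℤ) • hat q ε c (L.map fun Y => (Y, f)) := by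
  obtain ⟨Y, rfl⟩ : ∃ Y : Fin N → ℕ → G, L = List.ofFn Y := ⟨_, eq_ofFn L N hL⟩
  rw [reidx_ofFn, List.map_ofFn, List.map_ofFn]
  have h1 := hat_eq_sum q ε N f (fun i => Y (σ i)) c
  have h2 := hat_eq_sum q ε N f Y c
  refine Eq.trans h1 (Eq.trans ?_ (congrArg (fun z => (Perm.sign σ : ℤ) • z) h2).symm)
  rw [smul_sum]
  refine Fintype.sum_equiv (Equiv.arrowCongr σ (Equiv.refl (Fin q))) _ _ fun b => ?_
  simp only [Equiv.arrowCongr_apply, Function.comp_apply, Equiv.coe_refl, id]
  have h3 : (∏ i, ε f (uu (Y (σ i))) (b i)) = ∏ i, ε f (uu (Y i)) (b (σ.symm i)) := by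
    refine Fintype.prod_equiv σ _ _ fun i => ?_
    simp
  rw [h3]
  have h4 := hc σ (List.ofFn fun i => Y i (b (σ.symm i))) (by simp)
  rw [reidx_ofFn] at h4
  simp only [Equiv.symm_apply_apply] at h4
  rw [h4, smul_comm]

end hat

end Pool.Agent.W644.CY
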