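import Pool.Agent.W644.CY.FinOrd

/-!
# Components of elements with bounded `p`-divisibility
-/

set_option autoImplicit false
set_option linter.unusedSectionVars false

namespace Pool.Agent.W644.CY

open Finset Pool.Agent.W644.HK Equiv Function

universe u v w x y z

section rot

lemma rot1_getD {α : Type*} [One α] (l : List α) (t : ℕ) (ht : t < l.length) :
    (rot1 l).getD t 1 = l.getD ((t + 1) % l.length) 1 := by
  match l, ht with
  | b :: l, ht =>
    rw [List.length_cons] at ht
    rw [rot1]
    by_cases h : t < l.length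
    · rw [List.getD_append _ _ _ _ h, List.length_cons, Nat.mod_eq_of_lt (by omega),
        List.getD_cons_succ]
    · have h3 : t = l.length := by omega
      subst h3
      rw [List.getD_append_right _ _ _ _ le_rfl]
      simp

lemma rot1_rep {α : Type*} [One α] (q : ℕ) (w : List α) : rep q (rot1 w) = rot1 (rep q w) := by
  apply ext_getD
  · simp
  · intro t ht
    rw [length_rep, length_rot1] at ht
    have hN : 0 < w.length := by
      rcases Nat.eq_zero_or_pos w.length with h | h
      · exfalso
        have h2 : q * w.length = 0 := by rw [h, mul_zero]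
        omega
      · exact h
    have hM : 0 < q * w.length := by omega
    rw [getD_rep _ _ _ (by rw [length_rot1]; exact ht), length_rot1,
      rot1_getD _ _ (Nat.mod_lt _ hN), rot1_getD _ _ (by rw [length_rep]; exact ht), length_rep,
      getD_rep _ _ _ (Nat.mod_lt _ hM), Nat.mod_mul_left_mod, Nat.mod_add_mod]

lemma rot1_iterate_rep {α : Type*} [One α] (q : ℕ) (w : List α) :
    rot1^[w.length] (rep q w) = rep q w := by
  have h : ∀ b, rot1^[b] (rep q w) = rep q (rot1^[b] w) := by
    intro b
    induction b with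
    | zero => rfl
    | succ b ih => rw [iterate_succ_apply', ih, iterate_succ_apply', rot1_rep]
  rw [h, rot1_iterate, List.rotate_length]

lemma rot1_map {α β : Type*} (f : α → β) (l : List α) : rot1 (l.map f) = (rot1 l).map f := by
  match l with
  | [] => rfl
  | a :: l => simp [rot1]

lemma rot1_iterate_map {α β : Type*} (f : α → β) (b : ℕ) (l : List α) :
    rot1^[b] (l.map f) = (rot1^[b] l).map f := by
  induction b with
  | zero => rfl
  | succ b ih => rw [iterate_succ_apply', ih, iterate_succ_apply', rot1_map]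

lemma mem_cw {𝒢 : Type*} [Group 𝒢] (w : List 𝒢) (x : 𝒢) (hx : x ∈ cw w) :
    ∃ u ∈ w, ∃ v ∈ w, x = u⁻¹ * v := by
  obtain ⟨t, ht, rfl⟩ := List.getElem_of_mem hx
  have ht' : t < w.length := by simpa using ht
  have hlt := Nat.mod_lt (t + 1) (show 0 < w.length by omega)
  refine ⟨w.getD t 1, ?_, w.getD ((t + 1) % w.length) 1, ?_, ?_⟩
  · rw [List.getD_eq_getElem _ _ ht']
    exact List.getElem_mem _
  · rw [List.getD_eq_getElem _ _ hlt]
    exact List.getElem_mem _
  · rw [← getD_cw w t ht', List.getD_eq_getElem _ _ ht]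

end rot

section orb

variable {K : Type u} [Field K] [CharZero K] {G : Type v} [Group G] {r : Type w} [Fintype r]
  [DecidableEq r] {𝒢 : Type y} [Group 𝒢] (θ : 𝒢 →ₙ* Matrix r r (MonoidAlgebra K G))

lemma hat_Sh (q : ℕ) (η : (ℕ → G) → ℕ → ℚ) (hη : GoodK q η) (P : G) (c : List G → K)
    (hinv : ∀ l l', List.Forall₂ (RP P) l l' → c l = c l') (L : List (ℕ → G))
    (hL : ∀ Y ∈ L, QP q P Y) :
    hat q (fun _ : Bool => η) c ((L.map Sh).map fun Y => (Y, true)) =
      hat q (fun _ => η) c (L.map fun Y => (Y, true)) := by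
  symm
  apply hat_rel q (fun _ : Bool => η) (fun _ => hη) P c c hinv
  rw [List.forall₂_map_left_iff, List.map_map, List.forall₂_map_right_iff, List.forall₂_same]
  intro Y hY
  exact ⟨rfl, Or.inr ⟨hL Y hY, rfl⟩⟩

lemma pow_dvd_case (p a s1 : ℕ) (hp : p.Prime) (H : Subgroup G) (c : G → List G → K)
    (hH : ∀ x ∈ H, ∀ l, c (x ^ p ^ s1) l = 0) (P : G) (hP : ∃ l, c P l ≠ 0) (d : ℕ)
    (hd : d ∣ p ^ a) (z : G) (hz : z ∈ H) (hPz : P = z ^ (p ^ a / d)) :
    ∃ t, t ≤ a ∧ d = p ^ t ∧ a < t + s1 := by
  obtain ⟨t, ht, rfl⟩ := (Nat.dvd_prime_pow hp).1 hd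
  refine ⟨t, ht, rfl, ?_⟩
  by_contra hcon
  push Not at hcon
  obtain ⟨l, hl⟩ := hP
  apply hl
  have h1 : p ^ a / p ^ t = p ^ (a - t) := Nat.pow_div ht hp.pos
  rw [hPz, h1, show a - t = (a - t - s1) + s1 by omega, pow_add, pow_mul]
  exact hH _ (H.pow_mem hz _) l

lemma TE_mem_pow (A : Subring K) (N p a s1 : ℕ) (hN : 1 ≤ N) (hp : p.Prime) (ha : s1 ≤ a)
    (c : G → List G → K) (hequiv : ∀ x P l, c (x * P * x⁻¹) (l.map (x * ·)) = c P l)
    (hinv : ∀ P l l', List.Forall₂ (RP P) l l' → c P l = c P l')
    (hcA : ∀ P l, c P l ∈ A) (H : Subgroup G) (hH : ∀ x ∈ H, ∀ l, c (x ^ p ^ s1) l = 0)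
    (w : List 𝒢) (hw : w.length = N) (B : Finset G) (hBH : ∀ g ∈ B, g ∈ H)
    (hB : ∀ x ∈ cw w, ∀ a b, (θ x a b).coeff.support ⊆ B)
    (hA : ∀ x ∈ cw w, ∀ a b g, (θ x a b).coeff g ∈ A) :
    ∃ z ∈ A, ((p ^ s1 : ℕ) : K) ^ N * TE θ (p ^ a) (fun _ => rk (p ^ a)) true c w =
      (p : K) ^ (a - s1) * z := by
  set q := p ^ a with hq
  have hq0 : 0 < q := pow_pos hp.pos a
  have hM0 : 0 < q * N := Nat.mul_pos hq0 hN
  set Xs := (cw (rep q w)).map θ with hXs
  set F : G → List (ℕ → G) → K := fun P L =>
    hat q (fun _ => rk q) (c P) (L.map fun Y => (Y, true)) with hF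
  set f : List G → K := fun l => wgt Xs l • F l.prod (colsOf q N l.prod (pts 1 l)) with hf
  set ρ : List G → List G := rot1^[N] with hρ
  have hTE : TE θ q (fun _ => rk q) true c w = ∑ l ∈ LS B (q * N), f l := by
    rw [TE, Tq_eq_LS θ B q w hB, hw]
  have hXlen : Xs.length = q * N := by rw [hXs, List.length_map, length_cw, length_rep, hw]
  have hXrot : rot1^[N] Xs = Xs := by
    have h1 := rot1_iterate_rep q (cw w)
    rw [length_cw, hw] at h1
    rw [hXs, rot1_iterate_map, cw_rep, h1]
  have hLS : ∀ l ∈ LS B (q * N), ρ l ∈ LS B (q * N) := by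
    intro l hl
    rw [mem_LS] at hl ⊢
    rw [hρ, rot1_iterate, List.length_rotate]
    exact ⟨hl.1, fun x hx => hl.2 x (List.mem_rotate.1 hx)⟩
  have hit : ∀ b (l : List G), ρ^[b] l = l.rotate (N * b) := by
    intro b l
    rw [hρ, ← iterate_mul, rot1_iterate]
  have hper : ∀ l ∈ LS B (q * N), ρ^[q] l = l := by
    intro l hl
    rw [hit, mul_comm, ← ((mem_LS _ _ _).1 hl).1, List.rotate_length]
  have hinvF : ∀ l ∈ LS B (q * N), f (ρ l) = f l := by
    intro l hl
    have hlen := ((mem_LS _ _ _).1 hl).1
    have hEqv : Eqv l.length (fun P l => F P (colsOf q N P l)) := by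
      rw [hlen]
      apply eqv_cols q N hq0 F
      intro x P L _
      have h1 := hat_conj q (fun _ => rk q) x (c P) (c (x * P * x⁻¹)) (hequiv x P)
        (L.map fun Y => (Y, true))
      rw [List.map_map] at h1
      simp only [hF]
      rw [List.map_map]
      exact h1
    have h1 : wgt Xs (ρ l) = wgt Xs l := by
      conv_lhs => rw [← hXrot]
      exact wgt_rot_iterate Xs l (by rw [hlen, hXlen]) N
    have h2 := CF_rot_iterate (fun P l => F P (colsOf q N P l)) l hEqv N
    unfold CF at h2
    simp only [] at h2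
    simp only [hf]
    rw [h1, hρ, h2, colsOf_rotP_iterate q N hq0 _ _ (by rw [length_pts, hlen])]
    simp only [hF]
    rw [hat_Sh q (rk q) (good_rk q hq0) l.prod _ (hinv l.prod) _
      (qp_colsOf q N hq0 l.prod (pts 1 l))]
  rw [hTE, orbit_sum ρ q hq0 (LS B (q * N)) hLS hper f hinvF, mul_sum]
  have hterm : ∀ l ∈ LS B (q * N), ∃ z ∈ A, ((p ^ s1 : ℕ) : K) ^ N *
      (((q : ℚ) * wt ρ q l) • f l) = (p : K) ^ (a - s1) * z := by
    intro l hl
    obtain ⟨hlen, hlB⟩ := (mem_LS _ _ _).1 hl
    have hlH : ∀ x ∈ l, x ∈ H := fun x hx => hBH x (hlB x hx)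
    by_cases hP : ∃ l', c l.prod l' ≠ 0
    · by_cases hwt : wt ρ q l = 0
      · exact ⟨0, A.zero_mem, by rw [hwt]; simp⟩
      · have hval := wt_val ρ q l hwt
        have hdvd : minimalPeriod ρ l ∣ q := IsPeriodicPt.minimalPeriod_dvd (hper l hl)
        have hm : q = q / minimalPeriod ρ l * minimalPeriod ρ l := (Nat.div_mul_cancel hdvd).symm
        have hdpos : 0 < minimalPeriod ρ l := Nat.pos_of_dvd_of_pos hdvd hq0
        have hrot : l.rotate (N * minimalPeriod ρ l) = l := by
          rw [← hit]
          exact iterate_minimalPeriod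
        have hprod := prod_of_rotate (q / minimalPeriod ρ l) (N * minimalPeriod ρ l) l (by
          rw [hlen]
          conv_lhs => rw [hm]
          ring) (Nat.div_pos (Nat.le_of_dvd hq0 hdvd) hdpos) hrot
        obtain ⟨t, hta, ht, hts⟩ := pow_dvd_case p a s1 hp H c hH l.prod hP (minimalPeriod ρ l)
          hdvd _ (take_mem_closure H l hlH (N * minimalPeriod ρ l)) hprod
        have h1 : (q : ℚ) * wt ρ q l = ((p ^ t : ℕ) : ℚ) := by
          rw [hval, ht]
          have : (q : ℚ) ≠ 0 := by exact_mod_cast hq0.ne'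
          field_simp
        have h2 : ((p ^ s1 : ℕ) : K) ^ N * F l.prod (colsOf q N l.prod (pts 1 l)) ∈ A := by
          have h3 := hat_mem A.toAddSubgroup q (p ^ s1) (rk q) l.prod (c l.prod) (hcA l.prod)
            (hinv l.prod) ((colsOf q N l.prod (pts 1 l)).map fun Y => (Y, true)) (by
              intro a' ha'
              obtain ⟨Y, hY, rfl⟩ := List.mem_map.1 ha'
              have hqp := qp_colsOf q N hq0 l.prod (pts 1 l) Y hY
              have hpr := uu_per q hqp
              refine ⟨(good_rk q hq0).mass _ hpr, Or.inl ?_⟩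
              intro b
              by_cases h : rk q (uu Y) b = 0
              · exact ⟨0, by simp only []; rw [h]; simp⟩
              · have hd := per_dvd q _ hpr
                have hdY : 0 < minimalPeriod Sh (uu Y) := Nat.pos_of_dvd_of_pos hd hq0
                have hz := eq_pow_of_period q (minimalPeriod Sh (uu Y))
                  (q / minimalPeriod Sh (uu Y)) (Nat.div_mul_cancel hd).symm l.prod Y hqp
                  (per_spec (uu Y))
                obtain ⟨i, hi⟩ := (mem_colsOf _ _ _ _ _).1 hY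
                have hYH : ∀ b, Y b ∈ H := by
                  intro b
                  rw [hi]
                  exact qext_mem H l hlH (q * N) hlen hM0 _
                obtain ⟨t', hta', ht', hts'⟩ := pow_dvd_case p a s1 hp H c hH l.prod hP
                  (minimalPeriod Sh (uu Y)) hd _
                  (H.mul_mem (hYH _) (H.inv_mem (hYH 0))) hz
                refine ⟨((p ^ (s1 + t' - a) : ℕ) : ℤ), ?_⟩
                simp only []
                rw [rk_val q hq0 _ hpr b h, ht', hq]
                have hp0 : (p : ℚ) ≠ 0 := by exact_mod_cast hp.ne_zero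
                push_cast
                rw [mul_div_assoc', div_eq_iff (pow_ne_zero _ hp0), ← pow_add, ← pow_add]
                congr 1
                omega)
          rw [List.length_map, length_colsOf, zsmul_eq_mul] at h3
          push_cast at h3
          push_cast
          exact h3
        refine ⟨(p : K) ^ (t + s1 - a) * (wgt Xs l * (((p ^ s1 : ℕ) : K) ^ N *
          F l.prod (colsOf q N l.prod (pts 1 l)))), ?_, ?_⟩
        · refine A.mul_mem (A.pow_mem (natCast_mem A p) _) (A.mul_mem ?_ h2)
          apply wgt_mem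
          intro X hX
          obtain ⟨x, hx, rfl⟩ := List.mem_map.1 hX
          rw [cw_rep] at hx
          exact hA x (mem_rep _ _ _ hx)
        · rw [h1, Rat.smul_def]
          simp only [hf, smul_eq_mul]
          have h4 : (((p ^ t : ℕ) : ℚ) : K) = (p : K) ^ (a - s1) * (p : K) ^ (t + s1 - a) := by
            rw [← pow_add]
            push_cast
            congr 1
            omega
          rw [h4]
          ring
    · push Not at hP
      refine ⟨0, A.zero_mem, ?_⟩
      have : f l = 0 := by
        simp only [hf, hF]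
        rw [hat_zero, smul_zero]
        intro l' _
        exact hP l'
      rw [this]
      simp
  choose! z hz hzeq using hterm
  refine ⟨∑ l ∈ LS B (q * N), z l, A.sum_mem hz, ?_⟩
  rw [mul_sum]
  exact sum_congr rfl hzeq

end orb

end Pool.Agent.W644.CY
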