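import Pool.Agent.W644.CY.Wt
import Pool.Agent.W644.HK.Trans

/-!
# Closed path functionals as finite sums over lists of letters
-/

set_option autoImplicit false
set_option linter.unusedSectionVars false

namespace Pool.Agent.W644.CY

open Finset Pool.Agent.W644.HK Equiv Function

universe u v w x y z

section lists

variable {G : Type v} [Group G]

open Classical in
/-- the lists of length `M` with entries in `B` -/
noncomputable def LS (B : Finset G) (M : ℕ) : Finset (List G) :=
  (Fintype.piFinset fun _ : Fin M => B).image List.ofFn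

lemma mem_LS (B : Finset G) (M : ℕ) (l : List G) :
    l ∈ LS B M ↔ l.length = M ∧ ∀ x ∈ l, x ∈ B := by
  classical
  rw [LS, mem_image]
  constructor
  · rintro ⟨f, hf, rfl⟩
    refine ⟨by simp, ?_⟩
    intro x hx
    obtain ⟨i, rfl⟩ := (List.mem_ofFn' _ _).1 hx
    exact Fintype.mem_piFinset.1 hf i
  · rintro ⟨hl, hx⟩
    refine ⟨fun i => l.getD i 1, ?_, (eq_ofFn l M hl).symm⟩
    rw [Fintype.mem_piFinset]
    intro i
    rw [List.getD_eq_getElem _ _ (by rw [hl]; exact i.2)]
    exact hx _ (List.getElem_mem _)

variable {𝒢 : Type y} [Group 𝒢]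

lemma getD_cwAux (e : 𝒢) (l : List 𝒢) (t : ℕ) (ht : t < l.length) :
    (cwAux e l).getD t 1 = (l.getD t 1)⁻¹ * if t + 1 < l.length then l.getD (t + 1) 1 else e := by
  induction l generalizing t with
  | nil => simp at ht
  | cons a l ih =>
    match l, t, ht with
    | [], 0, _ => simp [cwAux]
    | [], t + 1, ht => simp at ht
    | b :: l, 0, _ => simp [cwAux]
    | b :: l, t + 1, ht =>
      rw [cwAux, List.getD_cons_succ, ih t (by simpa using ht)]
      simp only [List.length_cons, Nat.add_lt_add_iff_right, List.getD_cons_succ]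

lemma getD_cw (l : List 𝒢) (t : ℕ) (ht : t < l.length) :
    (cw l).getD t 1 = (l.getD t 1)⁻¹ * l.getD ((t + 1) % l.length) 1 := by
  match l, ht with
  | a :: l, ht =>
    rw [cw, getD_cwAux _ _ _ ht]
    split_ifs with h
    · rw [Nat.mod_eq_of_lt h]
    · have h1 : t + 1 = (a :: l).length := by omega
      rw [h1, Nat.mod_self, List.getD_cons_zero]

lemma cw_rep (q : ℕ) (w : List 𝒢) : cw (rep q w) = rep q (cw w) := by
  apply ext_getD
  · simp
  · intro t ht
    rw [length_cw, length_rep] at ht
    have hN : 0 < w.length := by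
      rcases Nat.eq_zero_or_pos w.length with h | h
      · rw [h] at ht
        omega
      · exact h
    have hM : 0 < q * w.length := by omega
    rw [getD_cw _ _ (by rw [length_rep]; exact ht), getD_rep _ _ _ ht, length_rep,
      getD_rep _ _ _ (Nat.mod_lt _ hM), getD_rep _ _ _ (by rw [length_cw]; exact ht), length_cw,
      getD_cw _ _ (Nat.mod_lt _ hN), Nat.mod_mul_left_mod, Nat.mod_add_mod]

lemma mem_rep {α : Type*} [One α] (q : ℕ) (w : List α) (x : α) (hx : x ∈ rep q w) : x ∈ w := by
  obtain ⟨t, rfl⟩ := (List.mem_ofFn' _ _).1 hx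
  have ht := t.2
  have hN : 0 < w.length := by
    rcases Nat.eq_zero_or_pos w.length with h | h
    · exfalso
      have h2 : q * w.length = 0 := by rw [h, mul_zero]
      omega
    · exact h
  simp only []
  rw [List.getD_eq_getElem _ _ (Nat.mod_lt _ hN)]
  exact List.getElem_mem _

lemma rot1_eq_rotate {α : Type*} (l : List α) : rot1 l = l.rotate 1 := by
  match l with
  | [] => rfl
  | a :: l => simp [rot1]

lemma rot1_iterate {α : Type*} (b : ℕ) (l : List α) : rot1^[b] l = l.rotate b := by
  induction b generalizing l with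
  | zero => simp
  | succ b ih =>
    rw [iterate_succ_apply, ih, rot1_eq_rotate, List.rotate_rotate, add_comm]

lemma rot1_cw (l : List 𝒢) : cw (rot1 l) = rot1 (cw l) := by
  match l with
  | [] => rfl
  | [a] => simp [rot1, cw, cwAux]
  | a :: b :: w =>
    have h1 : cw (rot1 (a :: b :: w)) = cwAux a (b :: w) ++ [a⁻¹ * b] := by
      rw [rot1, List.cons_append, cw, ← List.cons_append, cwAux_snoc]
    have h3 : cw (a :: b :: w) = (a⁻¹ * b) :: cwAux a (b :: w) := by rw [cw, cwAux]
    rw [h1, h3, rot1]

lemma prod_of_comm (m : ℕ) : ∀ (x y : List G), y.length = m * x.length → x ++ y = y ++ x →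
    y.prod = x.prod ^ m := by
  induction m with
  | zero =>
    intro x y hy _
    rw [zero_mul] at hy
    rw [List.eq_nil_of_length_eq_zero hy]
    simp
  | succ m ih =>
    intro x y hy hxy
    have h1 : x <+: y := by
      have h2 : x <+: y ++ x := by
        rw [← hxy]
        exact List.prefix_append x y
      refine List.prefix_of_prefix_length_le h2 (List.prefix_append y x) ?_
      rw [hy, add_mul, one_mul]
      omega
    obtain ⟨y', rfl⟩ := h1
    have h3 : x ++ y' = y' ++ x := by
      rw [List.append_assoc] at hxy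
      exact List.append_cancel_left hxy
    have h4 : y'.length = m * x.length := by
      rw [List.length_append, add_mul, one_mul] at hy
      omega
    rw [List.prod_append, ih x y' h4 h3, pow_succ']

/-- the product of a list with a period -/
lemma prod_of_rotate (m e : ℕ) (l : List G) (hl : l.length = m * e) (hm : 1 ≤ m)
    (hr : l.rotate e = l) : l.prod = (l.take e).prod ^ m := by
  obtain ⟨m, rfl⟩ : ∃ m', m = m' + 1 := ⟨m - 1, by omega⟩
  have he : e ≤ l.length := by
    rw [hl, add_mul, one_mul]
    omega
  have h1 : l.take e ++ l.drop e = l := List.take_append_drop e l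
  have h2 : l.drop e ++ l.take e = l := by
    rw [← List.rotate_eq_drop_append_take he, hr]
  have h3 : (l.take e).length = e := by
    rw [List.length_take]
    omega
  have h4 := prod_of_comm m (l.take e) (l.drop e) (by
    rw [List.length_drop, h3, hl, add_mul, one_mul]
    omega) (by rw [h1, h2])
  conv_lhs => rw [← h1]
  rw [List.prod_append, h4, pow_succ']

end lists

section sums

variable {k : Type u} [CommRing k] {G : Type v} [Group G] {r : Type w} [Fintype r] [DecidableEq r]
  {V : Type x} [AddCommGroup V] [Module k V] {𝒢 : Type y} [Group 𝒢]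

lemma mem_of_mu (B : Finset G) (Xs : List (Matrix r r (MonoidAlgebra k G)))
    (hB : ∀ X ∈ Xs, ∀ a b, (X a b).coeff.support ⊆ B) (s t : r) (l : List G)
    (h : mu Xs s t l ≠ 0) : ∀ x ∈ l, x ∈ B := by
  induction Xs generalizing s l with
  | nil =>
    match l with
    | [] => intro x hx; simp at hx
    | a :: l => exact absurd (mu_nil_cons _ _ _ _) h
  | cons X Xs ih =>
    match l with
    | [] => exact absurd (mu_cons_nil _ _ _ _) h
    | a :: l =>
      rw [mu_cons_cons] at h
      obtain ⟨s', _, hs'⟩ := exists_ne_zero_of_sum_ne_zero h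
      intro x hx
      rw [List.mem_cons] at hx
      rcases hx with rfl | hx
      · exact hB X (by simp) s s' (Finsupp.mem_support_iff.2 (left_ne_zero_of_mul hs'))
      · exact ih (fun Y hY => hB Y (List.mem_cons_of_mem _ hY)) s' l (right_ne_zero_of_mul hs') x hx

/-- the weight of a list of letters -/
noncomputable def wgt (Xs : List (Matrix r r (MonoidAlgebra k G))) (l : List G) : k :=
  (List.zipWith coeffMat Xs l).prod.trace

lemma TT_eq_LS (B : Finset G) (Xs : List (Matrix r r (MonoidAlgebra k G)))
    (hB : ∀ X ∈ Xs, ∀ a b, (X a b).coeff.support ⊆ B) (F : List G → V) :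
    TT (Equiv.refl r) F Xs = ∑ l ∈ LS B Xs.length, wgt Xs l • F l := by
  classical
  rw [TT_eq_sum]
  apply sum_subset_zero_on_sdiff
  · intro l hl
    rw [mem_LS]
    refine ⟨length_of_mem_Lset Xs l hl, ?_⟩
    classical
    rw [Lset, mem_biUnion] at hl
    obtain ⟨s, _, hl⟩ := hl
    rw [mem_biUnion] at hl
    obtain ⟨t, _, hl⟩ := hl
    exact mem_of_mu B Xs hB s t l (Finsupp.mem_support_iff.1 hl)
  · intro l hl
    rw [mem_sdiff] at hl
    have h1 : wgt Xs l = 0 := by
      rw [wgt, Matrix.trace]
      apply sum_eq_zero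
      intro s _
      rw [Matrix.diag_apply, ← mu_eq_zipWith _ _ _ _ ((mem_LS _ _ _).1 hl.1).1]
      by_contra hne
      exact hl.2 (mem_Lset _ _ _ _ hne)
    rw [h1, zero_smul]
  · intro l _
    rfl

variable (θ : 𝒢 →ₙ* Matrix r r (MonoidAlgebra k G))

lemma JJ_eq_LS (B : Finset G) (w : List 𝒢)
    (hB : ∀ x ∈ cw w, ∀ a b, (θ x a b).coeff.support ⊆ B) (C : G → List G → V) :
    JJ θ C w = ∑ l ∈ LS B w.length, wgt ((cw w).map θ) l • CF C l := by
  rw [JJ, TT_eq_LS B]
  · rw [List.length_map, length_cw]
  · intro X hX
    obtain ⟨x, hx, rfl⟩ := List.mem_map.1 hX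
    exact hB x hx

lemma Tq_eq_LS (B : Finset G) (q : ℕ) (w : List 𝒢)
    (hB : ∀ x ∈ cw w, ∀ a b, (θ x a b).coeff.support ⊆ B) (F : G → List (ℕ → G) → V) :
    Tq θ q F w = ∑ l ∈ LS B (q * w.length), wgt ((cw (rep q w)).map θ) l •
      F l.prod (colsOf q w.length l.prod (pts 1 l)) := by
  rw [Tq, JJ_eq_LS θ B]
  · rw [length_rep]
    rfl
  · intro x hx
    rw [cw_rep] at hx
    exact hB x (mem_rep _ _ _ hx)

/-- entries in a subring -/
def MatIn (A : Subring k) (M : Matrix r r k) : Prop := ∀ a b, M a b ∈ A

omit [DecidableEq r] in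
lemma MatIn.mul {A : Subring k} {M N : Matrix r r k} (hM : MatIn A M) (hN : MatIn A N) :
    MatIn A (M * N) := by
  intro a b
  rw [Matrix.mul_apply]
  exact A.sum_mem fun j _ => A.mul_mem (hM a j) (hN j b)

lemma wgt_mem (A : Subring k) (Xs : List (Matrix r r (MonoidAlgebra k G)))
    (hA : ∀ X ∈ Xs, ∀ a b g, (X a b).coeff g ∈ A) (l : List G) : wgt Xs l ∈ A := by
  have h1 : MatIn A (List.zipWith coeffMat Xs l).prod := by
    induction Xs generalizing l with
    | nil =>
      intro a b
      rw [List.zipWith_nil_left, List.prod_nil, Matrix.one_apply]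
      split_ifs
      · exact A.one_mem
      · exact A.zero_mem
    | cons X Xs ih =>
      match l with
      | [] =>
        intro a b
        rw [List.zipWith_nil_right, List.prod_nil, Matrix.one_apply]
        split_ifs
        · exact A.one_mem
        · exact A.zero_mem
      | g :: l =>
        rw [List.zipWith_cons_cons, List.prod_cons]
        exact MatIn.mul (fun a b => hA X (by simp) a b g)
          (ih (fun Y hY => hA Y (List.mem_cons_of_mem _ hY)) l)
  exact A.sum_mem fun a _ => h1 a a

lemma wgt_rot1 (Xs : List (Matrix r r (MonoidAlgebra k G))) (l : List G)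
    (hl : l.length = Xs.length) : wgt (rot1 Xs) (rot1 l) = wgt Xs l := by
  match Xs, l, hl with
  | [], [], _ => rfl
  | X :: Xs, a :: l, hl =>
    rw [rot1, rot1, wgt, wgt, List.zipWith_append (by simpa using hl.symm), List.prod_append,
      Matrix.trace_mul_comm, List.zipWith_cons_cons, List.prod_cons]
    simp

lemma wgt_rot_iterate (Xs : List (Matrix r r (MonoidAlgebra k G))) (l : List G)
    (hl : l.length = Xs.length) (b : ℕ) : wgt (rot1^[b] Xs) (rot1^[b] l) = wgt Xs l := by
  induction b with
  | zero => rfl
  | succ b ih =>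
    rw [iterate_succ_apply', iterate_succ_apply', wgt_rot1, ih]
    rw [rot1_iterate, rot1_iterate, List.length_rotate, List.length_rotate, hl]

lemma CF_rot1 (C : G → List G → V) (l : List G) (hC : Eqv l.length C) :
    CF C (rot1 l) = CF (fun P l => C P (rotP P l)) l := by
  match l, hC with
  | [], _ => rfl
  | h :: l, hC =>
    rw [CF, CF, rot1, pts_cons, rotP, pts_append, List.prod_append]
    refine Eq.trans (hC h _ _ (by simp)).symm ?_
    congr 1
    · simp [mul_assoc]
    · have := pts_mul h 1 l
      rw [mul_one] at this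
      rw [List.map_append, ← this]
      simp

lemma Eqv_rotP (n : ℕ) (C : G → List G → V) (hC : Eqv n C) : Eqv n fun P l => C P (rotP P l) := by
  intro x P l hl
  simp only []
  rw [← hC x P (rotP P l) (by rw [length_rotP, hl])]
  congr 1
  match l with
  | [] => rfl
  | a :: l =>
    simp only [rotP, List.map_cons, List.map_append, List.map_nil]
    congr 2
    group

lemma length_rotP_iterate (P : G) (b : ℕ) (l : List G) : ((rotP P)^[b] l).length = l.length := by
  induction b generalizing l with
  | zero => rfl
  | succ b ih => rw [iterate_succ_apply, ih, length_rotP]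

lemma CF_rot_iterate (C : G → List G → V) (l : List G) (hC : Eqv l.length C) (b : ℕ) :
    CF C (rot1^[b] l) = CF (fun P l => C P ((rotP P)^[b] l)) l := by
  induction b generalizing C with
  | zero => rfl
  | succ b ih =>
    have hlen : (rot1^[b] l).length = l.length := by rw [rot1_iterate, List.length_rotate]
    rw [iterate_succ_apply', CF_rot1 C _ (by rw [hlen]; exact hC), ih _ (Eqv_rotP _ _ hC)]
    unfold CF
    simp only []
    rw [iterate_succ_apply']

lemma qext_rotP_iterate (P : G) (M : ℕ) (hM : 0 < M) (l : List G) (hl : l.length = M) (b t : ℕ) :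
    qext P M ((rotP P)^[b] l) t = qext P M l (t + b) := by
  induction b generalizing t with
  | zero => rfl
  | succ b ih =>
    rw [iterate_succ_apply', qext_rotP P M hM _ (by rw [length_rotP_iterate, hl]), ih]
    congr 1
    ring

lemma colsOf_rotP_iterate (q N : ℕ) (hq : 0 < q) (P : G) (l : List G) (hl : l.length = q * N) :
    colsOf q N P ((rotP P)^[N] l) = (colsOf q N P l).map Sh := by
  unfold colsOf
  rw [List.map_ofFn]
  congr 1
  funext i b
  have hi := i.2
  rw [qext_rotP_iterate P _ (Nat.mul_pos hq (by omega)) l hl]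
  show _ = qext P (q * N) l (i + (b + 1) * N)
  congr 1
  ring

end sums

end Pool.Agent.W644.CY
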