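import Pool.Agent.W644.CY.Sep

/-!
# Fields of characteristic zero: the theorem
-/

set_option autoImplicit false
set_option linter.unusedSectionVars false

namespace Pool.Agent.W644.CY

open Finset Pool.Agent.W644.HK Equiv Function

universe u v w x y z

section r1

variable {K : Type u} [Field K] [CharZero K] {G : Type v} [Group G] {r : Type w} [Fintype r]
  [DecidableEq r] {𝒢 : Type y} [Group 𝒢] (θ : 𝒢 →ₙ* Matrix r r (MonoidAlgebra K G))

lemma fin_conj (x P : G) : x * P * x⁻¹ ∈ {P : G | IsOfFinOrder P} ↔ P ∈ {P : G | IsOfFinOrder P} := by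
  show IsOfFinOrder _ ↔ IsOfFinOrder _
  rw [← orderOf_pos_iff, ← orderOf_pos_iff, orderOf_conj']

theorem r1_main {n : ℕ} (c : G → (Fin (n + 2) → G) → K) (hc : IsClassCocycle c)
    (s : Finset K) (hs : ∀ P y, c P y ∈ Algebra.adjoin ℤ (s : Set K))
    (hG : ∀ H : Subgroup G, H.FG → ∀ g ∈ H, ¬ IsOfFinOrder g → (∃ y, c g y ≠ 0) →
      {p : ℕ | p.Prime ∧ ∃ t : ℕ, ∀ x ∈ H, x ^ p ^ t ≠ g}.Infinite)
    (z : (Fin (n + 2) → 𝒢) →₀ ℤ) (hz : IsCyclicCycle z) :
    ((n + 2).factorial : K) * chern θ c z =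
      chern θ (restrictTo {P | IsOfFinOrder P} c) (alternation z) := by
  classical
  set S : Set G := {P | IsOfFinOrder P} with hS
  have hSc : ∀ x P, x * P * x⁻¹ ∈ S ↔ P ∈ S := fin_conj
  have hSc' : ∀ x P, x * P * x⁻¹ ∈ Sᶜ ↔ P ∈ Sᶜ := fun x P => not_congr (hSc x P)
  have h1 : chern θ (restrictTo Sᶜ c) z = 0 := by
    refine chern_inf θ _ (class_restrictTo c hc Sᶜ hSc') s ?_ ?_ z hz
    · intro P y
      unfold restrictTo
      split_ifs
      · exact hs _ _
      · exact Subalgebra.zero_mem _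
    · rintro H hH g hg ⟨y, hy⟩
      unfold restrictTo at hy
      split_ifs at hy with h
      · exact hG H hH g hg h ⟨y, hy⟩
      · exact absurd rfl hy
  have h2 : ((n + 2).factorial : K) * chern θ (restrictTo S c) z =
      chern θ (restrictTo S c) (alternation z) := by
    refine chern_fin θ _ (class_restrictTo c hc S hSc) s ?_ ?_ z hz
    · intro P y
      unfold restrictTo
      split_ifs
      · exact hs _ _
      · exact Subalgebra.zero_mem _
    · intro P y hP
      exact if_neg hP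
  rw [chern_add θ c S z, h1, add_zero, h2]

theorem r1_zero {n : ℕ} (c : G → (Fin (n + 2) → G) → K) (hc : IsClassCocycle c)
    (s : Finset K) (hs : ∀ P y, c P y ∈ Algebra.adjoin ℤ (s : Set K))
    (hG : ∀ H : Subgroup G, H.FG → ∀ g ∈ H, ¬ IsOfFinOrder g → (∃ y, c g y ≠ 0) →
      {p : ℕ | p.Prime ∧ ∃ t : ℕ, ∀ x ∈ H, x ^ p ^ t ≠ g}.Infinite)
    (z : (Fin (n + 2) → 𝒢) →₀ ℤ) (hz : IsCyclicCycle z) (hz0 : IsRationallyZero z) :
    chern θ c z = 0 := by
  have h1 := r1_main θ c hc s hs hG z hz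
  rw [chern_alt_zero θ _ (class_restrictTo c hc _ fin_conj) z hz0] at h1
  rcases mul_eq_zero.1 h1 with h2 | h2
  · exfalso
    have : ((n + 2).factorial : K) ≠ 0 := by exact_mod_cast Nat.factorial_ne_zero _
    exact this h2
  · exact h2

end r1

section idem

variable {K : Type u} [Field K] [CharZero K] {G : Type v} [Group G] {r : Type w} [Fintype r]
  [DecidableEq r]

/-- an idempotent matrix as a homomorphism -/
def idemHom (e : Matrix r r (MonoidAlgebra K G)) (he : e * e = e) :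
    Unit →ₙ* Matrix r r (MonoidAlgebra K G) where
  toFun _ := e
  map_mul' _ _ := he.symm

/-- twice the tuple of ones is a cycle -/
lemma idem_cycle (n : ℕ) :
    IsCyclicCycle (Finsupp.single (fun _ : Fin (n + 2) => (1 : Unit)) 2) := by
  unfold IsCyclicCycle simpBoundary
  rw [Finsupp.sum_single_index (by simp)]
  have h1 : (∑ i : Fin (n + 2), Finsupp.single (fun _ : Fin (n + 1) => (1 : Unit))
      ((-1 : ℤ) ^ (i : ℕ) * 2)) = Finsupp.single (fun _ : Fin (n + 1) => (1 : Unit))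
      (1 - (-1 : ℤ) ^ n) := by
    rw [← Finsupp.single_finsetSum]
    congr 1
    rw [← Finset.sum_mul, Fin.sum_univ_eq_sum_range fun i => (-1 : ℤ) ^ i]
    rcases Nat.even_or_odd n with h | h
    · rw [neg_one_geom_sum, if_pos (by rw [Nat.even_add]; simp [h]), h.neg_one_pow]
      simp
    · have h2 : ¬ Even (n + 2) := by
        rw [Nat.even_add]
        simp [h]
      rw [neg_one_geom_sum, if_neg h2, h.neg_one_pow]
      simp
  rw [h1, Finsupp.single_sub]
  exact AddSubgroup.subset_closure (Or.inr ⟨fun _ => 1, rfl⟩)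

lemma idem_zero (n : ℕ) :
    IsRationallyZero (Finsupp.single (fun _ : Fin (n + 2) => (1 : Unit)) 2) := by
  refine ⟨1, one_ne_zero, 0, ?_⟩
  have h0 : simpBoundary (0 : (Fin (n + 3) → Unit) →₀ ℤ) = 0 := by
    unfold simpBoundary
    rw [Finsupp.sum_zero_index]
  rw [h0, one_smul, sub_zero]
  have h1 : (Finsupp.single (fun _ : Fin (n + 2) => (1 : Unit)) (2 : ℤ)) =
      Finsupp.single (fun j : Fin (n + 2) => (fun _ : Fin (n + 2) => (1 : Unit))
        (Equiv.swap (0 : Fin (n + 2)) 1 j)) 1 -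
      Finsupp.single (fun _ : Fin (n + 2) => (1 : Unit))
        (Equiv.Perm.sign (Equiv.swap (0 : Fin (n + 2)) 1) : ℤ) := by
    rw [Equiv.Perm.sign_swap (by simp), ← Finsupp.single_sub]
    simp
  rw [h1]
  exact AddSubgroup.subset_closure (Or.inr ⟨fun _ => 1, _, rfl⟩)

theorem r1_idem {n : ℕ} (c : G → (Fin (n + 2) → G) → K) (hc : IsClassCocycle c)
    (s : Finset K) (hs : ∀ P y, c P y ∈ Algebra.adjoin ℤ (s : Set K))
    (hG : ∀ H : Subgroup G, H.FG → ∀ g ∈ H, ¬ IsOfFinOrder g → (∃ y, c g y ≠ 0) →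
      {p : ℕ | p.Prime ∧ ∃ t : ℕ, ∀ x ∈ H, x ^ p ^ t ≠ g}.Infinite)
    (e : Matrix r r (MonoidAlgebra K G)) (he : e * e = e) :
    classPairing c (fun _ : Fin (n + 2) => e) = 0 := by
  have h1 := r1_zero (idemHom e he) c hc s hs hG _ (idem_cycle n) (idem_zero n)
  rw [chern, Finsupp.sum_single_index (by simp)] at h1
  rcases smul_eq_zero.1 h1 with h2 | h2
  · exact absurd h2 two_ne_zero
  · exact h2

end idem

end Pool.Agent.W644.CY
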