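import Pool.Agent.W644.CY.Vanish
import Pool.Agent.W644.CY.Defs2

/-!
# The theorems in terms of chains of tuples
-/

set_option autoImplicit false
set_option linter.unusedSectionVars false

namespace Pool.Agent.W644.CY

open Finset Pool.Agent.W644.HK Equiv Function

universe u v w x y z

section chain

variable {k : Type u} [CommRing k] {G : Type v} [Group G] {r : Type w} [Fintype r]
  [DecidableEq r] {V : Type x} [AddCommGroup V] [Module k V] {𝒢 : Type y} [Group 𝒢]
  (θ : 𝒢 →ₙ* Matrix r r (MonoidAlgebra k G))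

lemma JJ_bd {n : ℕ} (hn : 1 ≤ n) (c : G → List G → V) (hc : Coc n c) (l : List 𝒢)
    (hl : l.length = n + 1) : bd (JJ θ c) l = 0 := by
  rw [bd_eq_sum]
  have h1 : ∀ j ∈ range l.length, (-1 : ℤ) ^ j • JJ θ c (l.eraseIdx j) =
      JJ θ (fun P l' => (-1 : ℤ) ^ j • c P (l'.eraseIdx j)) l := by
    intro j hj
    rw [JJ_zsmul, JJ_erase θ c l (by omega) (fun x P l' _ => hc.equiv x P l') j (mem_range.1 hj)]
  rw [sum_congr rfl h1, ← JJ_sum]
  have h2 : JJ θ (fun P l' => ∑ j ∈ range l.length, (-1 : ℤ) ^ j • c P (l'.eraseIdx j)) l =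
      JJ θ (fun P l' => (0 : ℤ) • c P l') l := by
    apply JJ_congr'
    intro P l' hl'
    rw [zero_smul, ← hc.coc P l' (by rw [hl', hl]), bd_eq_sum, hl']
  rw [h2, JJ_zsmul, zero_smul]

/-- the functional on chains given by a function on words -/
noncomputable def lin {m : ℕ} (h : List 𝒢 → V) : ((Fin m → 𝒢) →₀ ℤ) →+ V :=
  Finsupp.liftAddHom fun v => (zmultiplesHom V) (h (List.ofFn v))

lemma lin_single {m : ℕ} (h : List 𝒢 → V) (v : Fin m → 𝒢) (a : ℤ) :
    lin h (Finsupp.single v a) = a • h (List.ofFn v) := by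
  simp [lin]

lemma lin_eq {m : ℕ} (h : List 𝒢 → V) (z : (Fin m → 𝒢) →₀ ℤ) :
    lin h z = ∑ γ ∈ z.support, z γ • h (List.ofFn γ) := by
  conv_lhs => rw [← Finsupp.sum_single z]
  rw [Finsupp.sum, map_sum]
  apply sum_congr rfl
  intro γ _
  rw [lin_single]

lemma chern_lin {n : ℕ} (c : G → (Fin (n + 1) → G) → V) (z : (Fin (n + 1) → 𝒢) →₀ ℤ) :
    chern θ c z = lin (JJ θ (cl c)) z := by
  rw [chern_eq, lin_eq]

lemma lin_mapDomain {m : ℕ} (h : List 𝒢 → V) (f : (Fin m → 𝒢) → (Fin m → 𝒢))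
    (z : (Fin m → 𝒢) →₀ ℤ) :
    lin h (z.mapDomain f) = ∑ γ ∈ z.support, z γ • h (List.ofFn (f γ)) := by
  rw [Finsupp.mapDomain, Finsupp.sum, map_sum]
  apply sum_congr rfl
  intro γ _
  rw [lin_single]

lemma lin_alternation {n : ℕ} (h : List 𝒢 → V) (z : (Fin (n + 1) → 𝒢) →₀ ℤ) :
    lin h (alternation z) = lin (AL (n + 1) h) z := by
  rw [alternation, map_sum, lin_eq]
  simp_rw [map_zsmul, lin_mapDomain, AL, smul_sum]
  rw [sum_comm]
  apply sum_congr rfl
  intro γ _
  apply sum_congr rfl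
  intro σ _
  rw [reidx_ofFn, smul_comm]

lemma chern_alternation {n : ℕ} (c : G → (Fin (n + 1) → G) → V) (z : (Fin (n + 1) → 𝒢) →₀ ℤ) :
    chern θ c (alternation z) = ∑ σ : Perm (Fin (n + 1)),
      Phi θ (n + 1) (cl c) z.support z (fun γ => List.ofFn γ) σ := by
  rw [chern_lin, lin_alternation, lin_eq]
  simp_rw [AL, Phi, smul_sum]
  rw [sum_comm]
  apply sum_congr rfl
  intro σ _
  apply sum_congr rfl
  intro γ _
  rw [smul_comm]

lemma chern_Phi {n : ℕ} (c : G → (Fin (n + 1) → G) → V) (z : (Fin (n + 1) → 𝒢) →₀ ℤ) :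
    chern θ c z = Phi θ (n + 1) (cl c) z.support z (fun γ => List.ofFn γ) 1 := by
  rw [chern_lin, lin_eq, Phi_one]
  intro γ _
  simp

lemma lin_boundary {n : ℕ} (h : List 𝒢 → V) (w : (Fin (n + 2) → 𝒢) →₀ ℤ) :
    lin h (simpBoundary w) = lin (bd h) w := by
  rw [simpBoundary, Finsupp.sum, map_sum, lin_eq]
  apply sum_congr rfl
  intro γ _
  rw [map_sum, bd_eq_sum, List.length_ofFn, ← Fin.sum_univ_eq_sum_range
    fun j => (-1 : ℤ) ^ j • h ((List.ofFn γ).eraseIdx j), smul_sum]
  apply sum_congr rfl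
  intro j _
  rw [lin_single, eraseIdx_ofFn, smul_smul, mul_comm]

lemma chern_left {n : ℕ} (h : List 𝒢 → V) (hh : ∀ g v, h (v.map (g * ·)) = h v) (g : 𝒢)
    (v : Fin (n + 1) → 𝒢) :
    AL (n + 1) h (List.ofFn fun j => g * v j) = AL (n + 1) h (List.ofFn v) := by
  unfold AL
  apply sum_congr rfl
  intro σ _
  rw [reidx_ofFn, reidx_ofFn]
  congr 1
  rw [← hh g (List.ofFn fun i => v (σ i)), List.map_ofFn]
  rfl

lemma lin_alt_relations {n : ℕ} (h : List 𝒢 → V) (hh : ∀ g v, h (v.map (g * ·)) = h v)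
    (a : (Fin (n + 1) → 𝒢) →₀ ℤ) (ha : a ∈ alternatingRelations 𝒢 n) :
    lin (AL (n + 1) h) a = 0 := by
  have hker : alternatingRelations 𝒢 n ≤ (lin (m := n + 1) (AL (n + 1) h)).ker := by
    rw [alternatingRelations, AddSubgroup.closure_le]
    rintro a (⟨g, v, rfl⟩ | ⟨v, σ, rfl⟩)
    · rw [SetLike.mem_coe, AddMonoidHom.mem_ker, map_sub, lin_single, lin_single, one_smul,
        one_smul, sub_eq_zero, chern_left h hh]
    · rw [SetLike.mem_coe, AddMonoidHom.mem_ker, map_sub, lin_single, lin_single, one_smul,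
        sub_eq_zero, ← reidx_ofFn, AL_perm]
  exact hker ha

lemma JJ_left (c : G → List G → V) (g : 𝒢) (v : List 𝒢) : JJ θ c (v.map (g * ·)) = JJ θ c v := by
  rw [JJ, JJ, cw_left]

end chain

section zero

variable {K : Type u} [Field K] [CharZero K] {G : Type v} [Group G] {r : Type w} [Fintype r]
  [DecidableEq r] {𝒢 : Type y} [Group 𝒢] (θ : 𝒢 →ₙ* Matrix r r (MonoidAlgebra K G))

lemma chern_alt_zero {n : ℕ} (c : G → (Fin (n + 1) → G) → K) (hc : IsClassCocycle c)
    (z : (Fin (n + 1) → 𝒢) →₀ ℤ) (hz : IsRationallyZero z) : chern θ c (alternation z) = 0 := by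
  obtain ⟨N, hN, w, hw⟩ := hz
  have hcoc := coc_cl c hc
  have h1 : lin (AL (n + 1) (JJ θ (cl c))) (simpBoundary w) = 0 := by
    rw [lin_boundary, lin_eq]
    apply sum_eq_zero
    intro γ _
    have h2 := sum_bd_reidx (n + 1) (JJ θ (cl c)) (List.ofFn γ) (by simp)
    have h3 : ∀ σ : Perm (Fin (n + 2)), (Perm.sign σ : ℤ) •
        bd (JJ θ (cl c)) (reidx (fun i => (σ i : ℕ)) (List.ofFn γ)) = 0 := by
      intro σ
      rw [JJ_bd θ (by omega) (cl c) hcoc _ (by simp), smul_zero]
    rw [sum_eq_zero fun σ _ => h3 σ] at h2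
    have h4 : bd (AL (n + 1) (JJ θ (cl c))) (List.ofFn γ) = 0 := by
      rcases smul_eq_zero.1 h2.symm with h5 | h5
      · exfalso
        push_cast at h5
        omega
      · exact h5
    rw [h4, smul_zero]
  have h2 := lin_alt_relations (JJ θ (cl c)) (fun g v => JJ_left θ (cl c) g v) _ hw
  rw [map_sub, h1, sub_zero, map_nsmul] at h2
  rw [chern_lin, lin_alternation]
  rcases smul_eq_zero.1 h2 with h5 | h5
  · exact absurd h5 hN
  · exact h5

/-- the class cochain restricted to a set -/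
lemma cl_restrictTo {n : ℕ} (c : G → (Fin (n + 1) → G) → K) (S : Set G) :
    cl (restrictTo S c) = rs S (cl c) := by
  classical
  funext P l
  unfold cl rs restrictTo
  by_cases h : l.length = n + 1 <;> by_cases h2 : P ∈ S <;> simp [h, h2]

lemma class_restrictTo {n : ℕ} (c : G → (Fin (n + 1) → G) → K) (hc : IsClassCocycle c) (S : Set G)
    (hS : ∀ x P, x * P * x⁻¹ ∈ S ↔ P ∈ S) : IsClassCocycle (restrictTo S c) where
  equivariant x P y := by
    by_cases h : P ∈ S
    · rw [restrictTo, if_pos ((hS x P).2 h), hc.equivariant, restrictTo, if_pos h]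
    · rw [restrictTo, if_neg fun h' => h ((hS x P).1 h'), restrictTo, if_neg h]
  alternating P y σ := by
    by_cases h : P ∈ S
    · rw [restrictTo, if_pos h, hc.alternating, restrictTo, if_pos h]
    · rw [restrictTo, if_neg h, restrictTo, if_neg h, smul_zero]
  invariant P y i := by
    by_cases h : P ∈ S
    · rw [restrictTo, if_pos h, hc.invariant, restrictTo, if_pos h]
    · rw [restrictTo, if_neg h, restrictTo, if_neg h]
  cocycle P y := by
    by_cases h : P ∈ S
    · rw [← hc.cocycle P y]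
      apply sum_congr rfl
      intro i _
      rw [restrictTo, if_pos h]
    · apply sum_eq_zero
      intro i _
      rw [restrictTo, if_neg h, smul_zero]

lemma chern_add {n : ℕ} (c : G → (Fin (n + 1) → G) → K) (S : Set G)
    (z : (Fin (n + 1) → 𝒢) →₀ ℤ) :
    chern θ c z = chern θ (restrictTo S c) z + chern θ (restrictTo Sᶜ c) z := by
  classical
  rw [chern_eq, chern_eq, chern_eq, ← sum_add_distrib]
  apply sum_congr rfl
  intro γ _
  rw [← smul_add]
  congr 1
  have h1 := JJ_sum θ (univ : Finset Bool) (fun b => cl (restrictTo (if b then S else Sᶜ) c))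
    (List.ofFn γ)
  rw [Fintype.sum_bool] at h1
  simp only [if_true, Bool.false_eq_true, if_false] at h1
  rw [← h1]
  apply JJ_congr'
  intro P l _
  rw [Fintype.sum_bool]
  simp only [if_true, Bool.false_eq_true, if_false]
  rw [cl_restrictTo, cl_restrictTo]
  by_cases h : P ∈ S
  · rw [rs_of_mem _ _ _ h, rs_of_notMem _ _ _ (by simpa using h), add_zero]
  · rw [rs_of_notMem _ _ _ h, rs_of_mem _ _ _ (by simpa using h), zero_add]

/-- the part of finite order -/
theorem chern_fin {n : ℕ} (c : G → (Fin (n + 2) → G) → K) (hc : IsClassCocycle c)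
    (s : Finset K) (hs : ∀ P y, c P y ∈ Algebra.adjoin ℤ (s : Set K))
    (hsupp : ∀ P y, ¬ IsOfFinOrder P → c P y = 0) (z : (Fin (n + 2) → 𝒢) →₀ ℤ)
    (hz : IsCyclicCycle z) :
    ((n + 2).factorial : K) * chern θ c z = chern θ c (alternation z) := by
  have h1 := finite_order_all θ (n + 1) (by omega) (cl c) (coc_cl c hc) s (by
    intro P l
    unfold cl
    split_ifs
    · exact hs _ _
    · exact Subalgebra.zero_mem _) (by
    intro P l hP
    unfold cl
    split_ifs
    · exact hsupp _ _ hP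
    · rfl) z.support z (fun γ => List.ofFn γ) (isLam_of_cycle z hz K)
  rw [← chern_Phi, ← chern_alternation] at h1
  rw [h1]
  have : ((n + 2).factorial : K) ≠ 0 := by exact_mod_cast Nat.factorial_ne_zero _
  field_simp

end zero

end Pool.Agent.W644.CY
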