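import Pool.Agent.W644.CY.Bdd
import Pool.Agent.W644.CY.Defs

/-!
# Translation between tuples and lists
-/

set_option autoImplicit false
set_option linter.unusedSectionVars false

namespace Pool.Agent.W644.CY

open Finset Pool.Agent.W644.HK Equiv Function

universe u v w x y z

section coc

variable {G : Type v} [Group G] {V : Type x} [AddCommGroup V]

/-- the list version of a class cochain -/
def cl {n : ℕ} (c : G → (Fin (n + 1) → G) → V) (P : G) (l : List G) : V :=
  if l.length = n + 1 then c P fun i => l.getD i 1 else 0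

lemma inv_all {n : ℕ} (c : G → (Fin (n + 1) → G) → V) (hc : IsClassCocycle c) (P : G)
    (y : Fin (n + 1) → G) (S : Finset (Fin (n + 1))) :
    c P (fun i => if i ∈ S then P * y i else y i) = c P y := by
  classical
  induction S using Finset.induction_on with
  | empty => simp
  | insert a S ha ih =>
    rw [← ih]
    have h1 := hc.invariant P (fun i => if i ∈ S then P * y i else y i) a
    rw [← h1]
    congr 1
    funext i
    by_cases hi : i = a
    · subst hi
      simp [ha]
    · rw [Function.update_of_ne hi]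
      simp [hi]

lemma coc_cl {n : ℕ} (c : G → (Fin (n + 1) → G) → V) (hc : IsClassCocycle c) :
    Coc (n + 1) (cl c) where
  equiv x P l := by
    unfold cl
    rw [List.length_map]
    split_ifs with h
    · rw [← hc.equivariant x P]
      congr 1
      funext i
      exact getD_map_left _ _ _ (by rw [h]; exact i.2)
    · rfl
  coc P l hl := by
    have h0 := hc.cocycle P fun i => l.getD i 1
    rw [bd_eq_sum, hl, ← Fin.sum_univ_eq_sum_range fun j => (-1 : ℤ) ^ j • cl c P (l.eraseIdx j),
      ← h0]
    apply sum_congr rfl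
    intro i _
    congr 1
    have hlen : (l.eraseIdx i).length = n + 1 := by
      rw [List.length_eraseIdx_of_lt (by rw [hl]; exact i.2), hl]
      rfl
    rw [cl, if_pos hlen]
    congr 1
    funext j
    rw [getD_eraseIdx']
    simp only [Fin.succAbove, Fin.lt_def]
    split_ifs with h3 h4 h4
    · rfl
    · exact absurd h3 h4
    · exact absurd h4 h3
    · rfl
  alt P σ l hl := by
    unfold cl
    rw [if_pos (by simp), if_pos hl, ← hc.alternating P (fun i => l.getD i 1) σ]
    congr 1
    funext i
    rw [getD_reidx _ _ _ i.2]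
  inv P l l' h := by
    classical
    unfold cl
    rw [h.length_eq]
    split_ifs with hl
    · have hl' : l.length = n + 1 := by rw [h.length_eq]; exact hl
      let S : Finset (Fin (n + 1)) := univ.filter fun i => ¬ l'.getD i 1 = l.getD i 1
      rw [← inv_all c hc P (fun i => l.getD i 1) S]
      congr 1
      funext i
      have hi := i.2
      have h1 : RP P (l.getD i 1) (l'.getD i 1) := by
        rw [List.getD_eq_getElem _ _ (by omega), List.getD_eq_getElem _ _ (by omega)]
        exact (List.forall₂_iff_get.1 h).2 _ (by omega) (by omega)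
      have hS : i ∈ S ↔ ¬ l'.getD i 1 = l.getD i 1 := by
        simp only [S, mem_filter, mem_univ, true_and]
      by_cases h2 : l'.getD i 1 = l.getD i 1
      · rw [if_neg (fun h => (hS.1 h) h2), h2]
      · rw [if_pos (hS.2 h2)]
        rcases h1 with h1 | h1
        · exact absurd h1 h2
        · exact h1.symm
    · rfl

end coc

section pair

variable {k : Type u} [CommRing k] {G : Type v} [Group G] {r : Type w} [Fintype r] [DecidableEq r]
  {V : Type x} [AddCommGroup V] [Module k V] {𝒢 : Type y} [Group 𝒢]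
  (θ : 𝒢 →ₙ* Matrix r r (MonoidAlgebra k G))

lemma cw_ofFn {n : ℕ} (γ : Fin (n + 1) → 𝒢) :
    (cw (List.ofFn γ)).map θ = List.ofFn fun i => θ ((γ i)⁻¹ * γ (i + 1)) := by
  have h1 : cw (List.ofFn γ) = List.ofFn fun i => (γ i)⁻¹ * γ (i + 1) := by
    apply ext_getD
    · simp
    · intro t ht
      have ht' : t < n + 1 := by simpa using ht
      rw [getD_cw _ _ (by simpa using ht'), List.getD_eq_getElem (List.ofFn _) _ (by simpa using ht'),
        List.getD_eq_getElem (List.ofFn _) _ (by simpa using Nat.mod_lt _ (Nat.succ_pos n)),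
        List.getD_eq_getElem (List.ofFn _) _ (by simpa using ht')]
      simp only [List.getElem_ofFn, List.length_ofFn]
      congr 2
      apply Fin.ext
      simp [Fin.val_add]
  rw [h1, List.map_ofFn]
  rfl

lemma zipWith_ofFn {α β γ : Type*} (f : α → β → γ) {n : ℕ} (X : Fin n → α) (g : Fin n → β) :
    List.zipWith f (List.ofFn X) (List.ofFn g) = List.ofFn fun i => f (X i) (g i) := by
  apply List.ext_getElem
  · rw [List.length_zipWith, List.length_ofFn, List.length_ofFn, List.length_ofFn, min_self]
  · intro i h1 h2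
    simp only [List.getElem_zipWith, List.getElem_ofFn]

lemma classPairing_eq {n : ℕ} (c : G → (Fin (n + 1) → G) → V) (γ : Fin (n + 1) → 𝒢) :
    classPairing c (fun i => θ ((γ i)⁻¹ * γ (i + 1))) = JJ θ (cl c) (List.ofFn γ) := by
  classical
  set X : Fin (n + 1) → Matrix r r (MonoidAlgebra k G) := fun i => θ ((γ i)⁻¹ * γ (i + 1)) with hX
  set B : Finset G := supps θ (cw (List.ofFn γ)).toFinset with hB
  rw [JJ_eq_LS θ B (List.ofFn γ)
    (fun x hx a b => subset_supps θ _ x (List.mem_toFinset.2 hx) a b), cw_ofFn, List.length_ofFn]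
  have hsub : ∀ i a b, (X i a b).coeff.support ⊆ B := by
    intro i a b
    have h1 : X i ∈ (cw (List.ofFn γ)).map θ := by
      rw [cw_ofFn]
      exact (List.mem_ofFn' _ _).2 ⟨i, rfl⟩
    obtain ⟨x, hx, hxi⟩ := List.mem_map.1 h1
    rw [← hxi]
    exact subset_supps θ _ x (List.mem_toFinset.2 hx) a b
  unfold classPairing trPairing
  have hterm : ∀ g : Fin (n + 1) → G,
      (List.ofFn fun i => coeffMat (X i) (g i)).prod.trace •
        c (List.ofFn g).prod (fun i => ((List.ofFn g).take (i : ℕ)).prod) =
      wgt (List.ofFn X) (List.ofFn g) • CF (cl c) (List.ofFn g) := by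
    intro g
    congr 1
    · rw [wgt, zipWith_ofFn]
    · rw [CF, cl, if_pos (by simp)]
      congr 1
      funext i
      rw [getD_pts _ _ _ (by rw [List.length_ofFn]; exact i.2), one_mul]
  simp_rw [hterm]
  rw [LS, sum_image (fun _ _ _ _ h => List.ofFn_injective h)]
  apply finsum_eq_sum_of_support_subset
  intro g hg
  rw [Finset.mem_coe, Fintype.mem_piFinset]
  by_contra hcon
  push Not at hcon
  obtain ⟨i, hi⟩ := hcon
  apply hg
  have h1 : coeffMat (X i) (g i) = 0 := by
    ext a b
    rw [coeffMat, Matrix.map_apply, Matrix.zero_apply]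
    by_contra hne
    exact hi (hsub i a b (Finsupp.mem_support_iff.2 hne))
  have h2 : (List.zipWith coeffMat (List.ofFn X) (List.ofFn g)).prod = 0 := by
    apply List.prod_eq_zero
    rw [← h1]
    rw [zipWith_ofFn]
    exact (List.mem_ofFn' _ _).2 ⟨i, rfl⟩
  simp only [wgt, h2, Matrix.trace_zero, zero_smul]

lemma chern_eq {n : ℕ} (c : G → (Fin (n + 1) → G) → V) (z : (Fin (n + 1) → 𝒢) →₀ ℤ) :
    chern θ c z = ∑ γ ∈ z.support, z γ • JJ θ (cl c) (List.ofFn γ) := by
  rw [chern, Finsupp.sum]
  apply sum_congr rfl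
  intro γ _
  rw [classPairing_eq]

end pair

section cyc

variable {𝒢 : Type y} [Group 𝒢]

lemma rot1_ofFn {n : ℕ} (v : Fin (n + 1) → 𝒢) :
    rot1 (List.ofFn v) = List.ofFn fun j => v (j + 1) := by
  apply ext_getD
  · simp
  · intro t ht
    have ht' : t < n + 1 := by simpa using ht
    rw [rot1_getD _ _ (by simpa using ht'), List.length_ofFn,
      List.getD_eq_getElem (List.ofFn _) _ (by simpa using Nat.mod_lt _ (Nat.succ_pos n)),
      List.getD_eq_getElem (List.ofFn _) _ (by simpa using ht')]
    simp only [List.getElem_ofFn]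
    congr 1
    apply Fin.ext
    simp [Fin.val_add]

lemma eraseIdx_ofFn {n : ℕ} (γ : Fin (n + 1) → 𝒢) (i : Fin (n + 1)) :
    (List.ofFn γ).eraseIdx i = List.ofFn fun j => γ (i.succAbove j) := by
  apply List.ext_getElem
  · rw [List.length_eraseIdx_of_lt (by rw [List.length_ofFn]; exact i.2)]
    simp
  · intro j h1 h2
    rw [List.getElem_eraseIdx]
    simp only [List.getElem_ofFn, Fin.succAbove, Fin.lt_def]
    split_ifs with h3 h4 h4
    · rfl
    · exact absurd h3 h4
    · exact absurd h4 h3
    · rfl

lemma isLam_of_cycle {n : ℕ} (z : (Fin (n + 2) → 𝒢) →₀ ℤ) (hz : IsCyclicCycle z)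
    (A : Type x) [AddCommGroup A] :
    IsLam A (n + 1) z.support z fun γ => List.ofFn γ := by
  refine ⟨fun γ _ => by simp, fun γ hrot hleft => ?_⟩
  let Φ : ((Fin (n + 1) → 𝒢) →₀ ℤ) →+ A := Finsupp.liftAddHom fun v =>
    (zmultiplesHom A) (γ (List.ofFn v))
  have hΦ : ∀ v a, Φ (Finsupp.single v a) = a • γ (List.ofFn v) := by
    intro v a
    simp [Φ]
  have hker : cyclicRelations 𝒢 n ≤ Φ.ker := by
    rw [cyclicRelations, AddSubgroup.closure_le]
    rintro a (⟨g, v, rfl⟩ | ⟨v, rfl⟩)
    · rw [SetLike.mem_coe, AddMonoidHom.mem_ker, map_sub, hΦ, hΦ, one_smul, one_smul, sub_eq_zero]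
      have h1 : List.ofFn (fun j => g * v j) = (List.ofFn v).map (g * ·) := by
        rw [List.map_ofFn]
        rfl
      rw [h1, hleft]
    · rw [SetLike.mem_coe, AddMonoidHom.mem_ker, map_sub, hΦ, hΦ, one_smul, sub_eq_zero,
        ← rot1_ofFn, hrot _ (by simp), pow_add, pow_add]
      simp
  have h1 : Φ (simpBoundary z) = 0 := hker hz
  rw [← h1, simpBoundary, Finsupp.sum, map_sum]
  apply sum_congr rfl
  intro x _
  rw [map_sum, smul_sum, ← Fin.sum_univ_eq_sum_range
    fun j => z x • (-1 : ℤ) ^ j • γ ((List.ofFn x).eraseIdx j)]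
  apply sum_congr rfl
  intro j _
  rw [hΦ, eraseIdx_ofFn, smul_smul, mul_comm]

end cyc

end Pool.Agent.W644.CY
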