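import Pool.Agent.W644.CY.Path

/-!
# Traces of `p`-th powers modulo `p`
-/

set_option autoImplicit false
set_option linter.unusedSectionVars false

namespace Pool.Agent.W644.CY

open Finset Polynomial Matrix

universe u v

section tr

variable {n : Type u} [Fintype n] [DecidableEq n] {R : Type v} [CommRing R]

lemma charpoly_pow_char (p : ℕ) [hp : Fact p.Prime] [CharP R p] (M : Matrix n n R) :
    expand R p (M ^ p).charpoly = M.charpoly ^ p := by
  cases (isEmpty_or_nonempty n).symm
  · have : CharP (Matrix n n R) p := inferInstance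
    unfold charpoly
    rw [AlgHom.map_det, ← coe_detMonoidHom, ← (detMonoidHom : Matrix n n R[X] →* R[X]).map_pow]
    apply congr_arg det
    refine matPolyEquiv.injective ?_
    rw [map_pow, matPolyEquiv_charmatrix, sub_pow_char_of_commute, ← C_pow]
    · exact (id (matPolyEquiv_eq_X_pow_sub_C p M) :)
    · exact (C M).commute_X
  · simp [charpoly]

lemma trace_pow_char (p : ℕ) [hp : Fact p.Prime] [CharP R p] (M : Matrix n n R) :
    (M ^ p).trace = M.trace ^ p := by
  rcases subsingleton_or_nontrivial R with h | h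
  · exact Subsingleton.elim _ _
  cases (isEmpty_or_nonempty n).symm
  · have h1 : (M ^ p).charpoly = M.charpoly.map (frobenius R p) := by
      apply expand_injective hp.out.pos
      rw [charpoly_pow_char, ← map_expand, map_frobenius_expand]
    rw [trace_eq_neg_charpoly_coeff, trace_eq_neg_charpoly_coeff, h1, coeff_map, ← neg_one_mul,
      ← neg_one_mul (M.charpoly.coeff _), mul_pow, frobenius_def]
    congr 1
    have h2 := (frobenius R p).map_neg 1
    rw [map_one, frobenius_def] at h2
    exact h2.symm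
  · simp [hp.out.ne_zero, Matrix.trace]

end tr

section cg

variable {K : Type u} [CommRing K]

/-- congruence modulo `p` in a subring -/
def Cg (A : Subring K) (p : ℕ) (x y : K) : Prop := ∃ b ∈ A, x - y = (p : K) * b

variable {A : Subring K} {p : ℕ}

lemma Cg.refl (x : K) : Cg A p x x := ⟨0, A.zero_mem, by simp⟩

lemma Cg.symm {x y : K} (h : Cg A p x y) : Cg A p y x := by
  obtain ⟨b, hb, h⟩ := h
  exact ⟨-b, A.neg_mem hb, by linear_combination -h⟩

lemma Cg.trans {x y z : K} (h : Cg A p x y) (h' : Cg A p y z) : Cg A p x z := by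
  obtain ⟨b, hb, h⟩ := h
  obtain ⟨b', hb', h'⟩ := h'
  exact ⟨b + b', A.add_mem hb hb', by linear_combination h + h'⟩

lemma Cg.add {x y x' y' : K} (h : Cg A p x y) (h' : Cg A p x' y') : Cg A p (x + x') (y + y') := by
  obtain ⟨b, hb, h⟩ := h
  obtain ⟨b', hb', h'⟩ := h'
  exact ⟨b + b', A.add_mem hb hb', by linear_combination h + h'⟩

lemma Cg.mul_left {x y : K} (h : Cg A p x y) {a : K} (ha : a ∈ A) : Cg A p (a * x) (a * y) := by
  obtain ⟨b, hb, h⟩ := h
  exact ⟨a * b, A.mul_mem ha hb, by linear_combination a * h⟩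

lemma Cg.mul {x y x' y' : K} (h : Cg A p x y) (h' : Cg A p x' y') (hx' : x' ∈ A) (hy : y ∈ A) :
    Cg A p (x * x') (y * y') := by
  obtain ⟨b, hb, h⟩ := h
  obtain ⟨b', hb', h'⟩ := h'
  exact ⟨b * x' + y * b', A.add_mem (A.mul_mem hb hx') (A.mul_mem hy hb'), by
    linear_combination x' * h + y * h'⟩

lemma Cg.sum {ι : Type*} (s : Finset ι) {f g : ι → K} (h : ∀ i ∈ s, Cg A p (f i) (g i)) :
    Cg A p (∑ i ∈ s, f i) (∑ i ∈ s, g i) := by
  classical
  induction s using Finset.induction_on with
  | empty => simp only [sum_empty]; exact Cg.refl _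
  | insert a s ha ih =>
    rw [sum_insert ha, sum_insert ha]
    exact (h a (mem_insert_self _ _)).add (ih fun i hi => h i (mem_insert_of_mem hi))

lemma Cg.add_pow (hp : p.Prime) {x y : K} (hx : x ∈ A) (hy : y ∈ A) :
    Cg A p ((x + y) ^ p) (x ^ p + y ^ p) := by
  obtain ⟨r, hr⟩ := (Commute.all (⟨x, hx⟩ : A) ⟨y, hy⟩).exists_add_pow_prime_eq hp
  have hr' : (x + y) ^ p = x ^ p + y ^ p + p * x * y * (r : K) := by
    have := congrArg (fun a : A => (a : K)) hr
    simpa using this
  exact ⟨x * y * r, A.mul_mem (A.mul_mem hx hy) r.2, by rw [hr']; ring⟩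

lemma Cg.sum_pow (hp : p.Prime) {ι : Type*} (s : Finset ι) {f : ι → K} (h : ∀ i ∈ s, f i ∈ A) :
    Cg A p ((∑ i ∈ s, f i) ^ p) (∑ i ∈ s, f i ^ p) := by
  classical
  induction s using Finset.induction_on with
  | empty => simp only [sum_empty, zero_pow hp.ne_zero]; exact Cg.refl _
  | insert a s ha ih =>
    rw [sum_insert ha, sum_insert ha]
    have h1 : ∀ i ∈ s, f i ∈ A := fun i hi => h i (mem_insert_of_mem hi)
    exact (Cg.add_pow hp (h a (mem_insert_self _ _)) (A.sum_mem h1)).trans
      ((Cg.refl _).add (ih h1))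

lemma Cg.int_pow (hp : p.Prime) (z : ℤ) : Cg A p ((z : K) ^ p) (z : K) := by
  have : Fact p.Prime := ⟨hp⟩
  have h1 : (p : ℤ) ∣ z ^ p - z := by
    rw [← ZMod.intCast_zmod_eq_zero_iff_dvd]
    push_cast
    rw [ZMod.pow_card, sub_self]
  obtain ⟨k, hk⟩ := h1
  refine ⟨(k : K), intCast_mem A k, ?_⟩
  have := congrArg (fun a : ℤ => (a : K)) hk
  push_cast at this
  exact this

lemma Cg.trace_pow (hp : p.Prime) {r : Type v} [Fintype r] [DecidableEq r] {M : Matrix r r K}
    (hM : MatIn A M) : Cg A p (M ^ p).trace (M.trace ^ p) := by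
  classical
  have : Fact p.Prime := ⟨hp⟩
  let M' : Matrix r r A := Matrix.of fun a b => ⟨M a b, hM a b⟩
  have hM' : M'.map A.subtype = M := by
    ext a b
    rfl
  have h1 : ∃ y : A, (M' ^ p).trace - M'.trace ^ p = (p : A) * y := by
    by_cases hu : IsUnit (p : A)
    · obtain ⟨u, hu⟩ := hu
      refine ⟨(u⁻¹ : Aˣ) * ((M' ^ p).trace - M'.trace ^ p), ?_⟩
      rw [← mul_assoc, ← hu, Units.mul_inv, one_mul]
    · have hcz : CharP (A ⧸ Ideal.span {(p : A)}) p := CharP.quotient A p hu
      let π := Ideal.Quotient.mk (Ideal.span {(p : A)})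
      have h2 : π ((M' ^ p).trace - M'.trace ^ p) = 0 := by
        have h3 := trace_pow_char p (M'.map π)
        have h4 : (M'.map π) ^ p = (M' ^ p).map π := by
          have := (map_pow π.mapMatrix M' p).symm
          simpa using this
        rw [h4] at h3
        have h5 : ((M' ^ p).map π).trace = π (M' ^ p).trace := by
          simp [Matrix.trace, Matrix.diag]
        have h6 : (M'.map π).trace = π M'.trace := by
          simp [Matrix.trace, Matrix.diag]
        rw [h5, h6] at h3
        rw [map_sub, map_pow, h3, sub_self]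
      rw [Ideal.Quotient.eq_zero_iff_mem, Ideal.mem_span_singleton] at h2
      exact h2
  obtain ⟨y, hy⟩ := h1
  refine ⟨y, y.2, ?_⟩
  have h2 := congrArg (fun a : A => (a : K)) hy
  have h3 : (((M' ^ p).trace : A) : K) = (M ^ p).trace := by
    have h4 : (M' ^ p).map A.subtype = M ^ p := by
      have := map_pow A.subtype.mapMatrix M' p
      rw [RingHom.mapMatrix_apply, RingHom.mapMatrix_apply, hM'] at this
      exact this
    rw [← h4]
    simp [Matrix.trace, Matrix.diag]
  have h4 : ((M'.trace : A) : K) = M.trace := by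
    rw [← hM']
    simp [Matrix.trace, Matrix.diag]
  push_cast at h2
  rw [h3, h4] at h2
  exact h2

end cg

end Pool.Agent.W644.CY
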