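import Pool.Agent.W644.CY.Hom

/-!
# The uniform kernel: a polynomial in the number of repetitions
-/

set_option autoImplicit false
set_option linter.unusedSectionVars false

namespace Pool.Agent.W644.CY

open Finset Pool.Agent.W644.HK Equiv

universe u v w x y z

section comb

variable {V : Type x} [AddCommGroup V]

lemma sort_comp {N ℓ q : ℕ} (φ : Fin ℓ → Fin q) (hφ : StrictMono φ) (β : Fin N → Fin ℓ) :
    Tuple.sort (φ ∘ β) = Tuple.sort β := by
  symm
  have h := (Tuple.eq_sort_iff (f := β) (σ := Tuple.sort β)).1 rfl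
  rw [Tuple.eq_sort_iff]
  refine ⟨?_, ?_⟩
  · intro i j hij
    exact hφ.monotone (h.1 hij)
  · intro i j hij heq
    exact h.2 i j hij (hφ.injective heq)

/-- the sum over the surjections to `Fin ℓ` -/
def Sf (N : ℕ) (Φ : Perm (Fin N) → V) (ℓ : ℕ) : V :=
  ∑ β ∈ (univ : Finset (Fin N → Fin ℓ)).filter (fun β => Function.Surjective β),
    Φ (Tuple.sort β)

lemma Sf_eq_zero (N : ℕ) (Φ : Perm (Fin N) → V) (ℓ : ℕ) (h : N < ℓ) : Sf N Φ ℓ = 0 := by
  unfold Sf
  apply sum_eq_zero
  intro β hβ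
  rw [mem_filter] at hβ
  have := Fintype.card_le_of_surjective β hβ.2
  simp at this
  omega

lemma sum_fiber (N q : ℕ) (Φ : Perm (Fin N) → V) (S : Finset (Fin q)) :
    ∑ b ∈ (univ : Finset (Fin N → Fin q)).filter (fun b => univ.image b = S), Φ (Tuple.sort b) =
      Sf N Φ S.card := by
  unfold Sf
  symm
  refine sum_bij (fun β _ => S.orderEmbOfFin rfl ∘ β) ?_ ?_ ?_ ?_
  · intro β hβ
    rw [mem_filter] at hβ ⊢
    refine ⟨mem_univ _, ?_⟩
    ext x
    rw [mem_image]
    constructor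
    · rintro ⟨i, _, rfl⟩
      exact S.orderEmbOfFin_mem rfl _
    · intro hx
      have : x ∈ Set.range (S.orderEmbOfFin rfl) := by
        rw [Finset.range_orderEmbOfFin]
        exact hx
      obtain ⟨j, rfl⟩ := this
      obtain ⟨i, rfl⟩ := hβ.2 j
      exact ⟨i, mem_univ _, rfl⟩
  · intro β _ β' _ h
    funext i
    exact (S.orderEmbOfFin rfl).injective (congrFun h i)
  · intro b hb
    rw [mem_filter] at hb
    have h1 : ∀ i, ∃ j, S.orderEmbOfFin rfl j = b i := by
      intro i
      have : b i ∈ Set.range (S.orderEmbOfFin rfl) := by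
        rw [Finset.range_orderEmbOfFin, ← hb.2]
        simp
      exact this
    choose β hβ using h1
    refine ⟨β, ?_, ?_⟩
    · rw [mem_filter]
      refine ⟨mem_univ _, ?_⟩
      intro j
      have h2 : S.orderEmbOfFin rfl j ∈ univ.image b := by
        rw [hb.2]
        exact S.orderEmbOfFin_mem rfl j
      obtain ⟨i, _, hi⟩ := mem_image.1 h2
      refine ⟨i, (S.orderEmbOfFin rfl).injective ?_⟩
      rw [hβ, hi]
    · funext i
      exact hβ i
  · intro β _
    rw [sort_comp _ (S.orderEmbOfFin rfl).strictMono]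

lemma sum_sort (N q : ℕ) (Φ : Perm (Fin N) → V) :
    ∑ b : Fin N → Fin q, Φ (Tuple.sort b) =
      ∑ ℓ ∈ range (N + 1), (q.choose ℓ) • Sf N Φ ℓ := by
  have h1 := sum_fiberwise_of_maps_to (s := (univ : Finset (Fin N → Fin q)))
    (t := (univ : Finset (Fin q)).powerset) (g := fun b => univ.image b)
    (fun b _ => mem_powerset.2 (subset_univ _)) (fun b => Φ (Tuple.sort b))
  rw [← h1]
  simp_rw [sum_fiber]
  rw [sum_powerset_apply_card, card_univ, Fintype.card_fin]
  rcases le_total q N with h | h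
  · apply sum_subset (range_subset_range.2 (by omega))
    intro ℓ _ hℓ
    rw [mem_range, not_lt] at hℓ
    rw [Nat.choose_eq_zero_of_lt (by omega), zero_smul]
  · symm
    apply sum_subset (range_subset_range.2 (by omega))
    intro ℓ _ hℓ
    rw [mem_range, not_lt] at hℓ
    rw [Sf_eq_zero N Φ ℓ (by omega), smul_zero]

lemma Sf_one (N : ℕ) (hN : 1 ≤ N) (Φ : Perm (Fin N) → V) : Sf N Φ 1 = Φ 1 := by
  unfold Sf
  have h1 : (univ : Finset (Fin N → Fin 1)).filter (fun β => Function.Surjective β) =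
      {fun _ => 0} := by
    ext β
    simp only [mem_filter, mem_univ, true_and, mem_singleton]
    constructor
    · intro _
      funext i
      exact Subsingleton.elim _ _
    · rintro rfl
      intro j
      exact ⟨⟨0, hN⟩, Subsingleton.elim _ _⟩
  rw [h1, sum_singleton]
  congr 1
  exact Tuple.sort_eq_refl_iff_monotone.2 monotone_const

lemma Sf_top (N : ℕ) (Φ : Perm (Fin N) → V) : Sf N Φ N = ∑ σ : Perm (Fin N), Φ σ := by
  unfold Sf
  symm
  refine sum_bij (fun σ _ => (σ⁻¹ : Perm (Fin N))) ?_ ?_ ?_ ?_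
  · intro σ _
    rw [mem_filter]
    exact ⟨mem_univ _, (σ⁻¹ : Perm (Fin N)).surjective⟩
  · intro σ _ τ _ h
    exact inv_injective (DFunLike.coe_injective h)
  · intro β hβ
    rw [mem_filter] at hβ
    have hb : Function.Bijective β := (Finite.injective_iff_surjective.2 hβ.2 |> fun h => ⟨h, hβ.2⟩)
    refine ⟨(Equiv.ofBijective β hb)⁻¹, mem_univ _, ?_⟩
    rw [inv_inv]
    rfl
  · intro σ _
    rw [Tuple.sort_perm, inv_inv]

end comb

section uniform

variable {k : Type u} [CommRing k] {G : Type v} [Group G] {r : Type w} [Fintype r] [DecidableEq r]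
  {V : Type x} [AddCommGroup V] [Module k V] [Module ℚ V] {𝒢 : Type y} [Group 𝒢]
  (θ : 𝒢 →ₙ* Matrix r r (MonoidAlgebra k G))

lemma JJ_qsmul (a : ℚ) (C : G → List G → V) (w : List 𝒢) :
    JJ θ (fun P l => a • C P l) w = a • JJ θ C w := by
  unfold JJ TT
  rw [smul_sum]
  apply sum_congr rfl
  intro s _
  rw [EE_eq_sum, EE_eq_sum, smul_sum]
  apply sum_congr rfl
  intro l _
  rw [smul_comm]
  rfl

/-- the uniform kernel -/
def unif (q : ℕ) : (ℕ → G) → ℕ → ℚ := fun _ _ => (q : ℚ)⁻¹

lemma good_unif (q : ℕ) (hq : 0 < q) : GoodK (G := G) q (unif q) where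
  mass u _ := by
    unfold unif
    rw [sum_const, card_range, nsmul_eq_mul, mul_inv_cancel₀]
    exact_mod_cast hq.ne'
  shift u _ b := rfl
  per u _ := rfl

/-- the positions chosen by `b` -/
def tb {N q : ℕ} (b : Fin N → Fin q) (i : Fin N) : ℕ := i + b i * N

lemma tb_lt {N q : ℕ} (b : Fin N → Fin q) (i : Fin N) : tb b i < q * N := by
  unfold tb
  have h1 := i.2
  have h2 : ((b i : ℕ) + 1) * N ≤ q * N := Nat.mul_le_mul_right _ (b i).2
  rw [add_mul, one_mul] at h2
  omega

lemma tb_mono {N q : ℕ} (b : Fin N → Fin q) : StrictMono fun i => tb b (Tuple.sort b i) := by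
  have h := (Tuple.eq_sort_iff (f := b) (σ := Tuple.sort b)).1 rfl
  intro i j hij
  simp only [tb]
  have h1 := (Tuple.sort b i).2
  rcases (h.1 hij.le).eq_or_lt with heq | hlt
  · have h2 := h.2 i j hij heq
    simp only [Function.comp_apply] at heq
    rw [heq]
    rw [Fin.lt_def] at h2
    omega
  · simp only [Function.comp_apply, Fin.lt_def] at hlt
    have h3 : ((b (Tuple.sort b i) : ℕ) + 1) * N ≤ (b (Tuple.sort b j) : ℕ) * N :=
      Nat.mul_le_mul_right _ hlt
    rw [add_mul, one_mul] at h3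
    omega

lemma JJ_choice (q : ℕ) (N : ℕ) (hN : 1 ≤ N) (c : G → List G → V)
    (hequiv : ∀ x P l, c (x * P * x⁻¹) (l.map (x * ·)) = c P l) (halt : ∀ P, AltC N (c P))
    (b : Fin N → Fin q) (w : List 𝒢) (hw : w.length = N) :
    JJ θ (fun P l => c P (reidx (tb b) l)) (rep q w) =
      (Perm.sign (Tuple.sort b) : ℤ) • JJ θ c (reidx (fun i => (Tuple.sort b i : ℕ)) w) := by
  have h1 : reidx (fun i => (Tuple.sort b i : ℕ)) w =
      reidx (fun i => tb b (Tuple.sort b i)) (rep q w) := by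
    unfold reidx
    congr 1
    funext i
    rw [getD_rep _ _ _ (by rw [hw]; exact tb_lt b _)]
    congr 1
    rw [hw]
    unfold tb
    rw [Nat.add_mul_mod_self_right, Nat.mod_eq_of_lt (Tuple.sort b i).2]
  rw [h1, JJ_reidx θ (q * N) N _ c (rep q w) hN (tb_mono b) (fun i => tb_lt b _)
    (by rw [length_rep, hw]) (fun x P l _ => hequiv x P l), ← JJ_zsmul]
  apply JJ_congr'
  intro P l _
  have h2 := halt P (Tuple.sort b) (reidx (tb b) l) (by simp)
  rw [reidx_reidx _ _ (fun i => (Tuple.sort b i).2)] at h2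
  have h3 : reidx (fun i => tb b ⟨(Tuple.sort b i : ℕ), (Tuple.sort b i).2⟩) l =
    reidx (fun i => tb b (Tuple.sort b i)) l := rfl
  rw [h3] at h2
  rw [h2, smul_smul, ← Units.val_mul, ← sq, Int.units_sq]
  simp

lemma TE_unif (q : ℕ) (N : ℕ) (hN : 1 ≤ N) (ε : Bool → (ℕ → G) → ℕ → ℚ) (f : Bool)
    (hε : ε f = unif q) (c : G → List G → V)
    (hequiv : ∀ x P l, c (x * P * x⁻¹) (l.map (x * ·)) = c P l) (halt : ∀ P, AltC N (c P))
    (w : List 𝒢) (hw : w.length = N) :
    TE θ q ε f c w = ((q : ℚ)⁻¹) ^ N • ∑ b : Fin N → Fin q,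
      (Perm.sign (Tuple.sort b) : ℤ) • JJ θ c (reidx (fun i => (Tuple.sort b i : ℕ)) w) := by
  have h1 : TE θ q ε f c w = JJ θ (fun P l => ((q : ℚ)⁻¹) ^ N •
      ∑ b : Fin N → Fin q, c P (reidx (tb b) l)) (rep q w) := by
    rw [TE, Tq]
    apply JJ_congr'
    intro P l _
    rw [hw]
    have h2 : (colsOf q N P l).map (fun Y => (Y, f)) =
        List.ofFn fun i : Fin N => ((fun b => qext P (q * N) l (i + b * N)), f) := by
      rw [colsOf, List.map_ofFn]
      rfl
    rw [h2, hat_eq_sum q ε N f (fun i b => qext P (q * N) l (i + b * N)) (c P), smul_sum]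
    apply sum_congr rfl
    intro b _
    congr 1
    · rw [hε]
      simp [unif]
    · unfold reidx
      congr 2
      funext i
      rw [qext_col q N P l i _ i.2, Nat.div_eq_of_lt (b i).2, Nat.mod_eq_of_lt (b i).2, pow_zero,
        one_mul]
      rfl
  rw [h1, JJ_qsmul, JJ_sum]
  congr 1
  apply sum_congr rfl
  intro b _
  exact JJ_choice θ q N hN c hequiv halt b w hw

/-- the signed values on the permuted words -/
noncomputable def Phi (N : ℕ) (c : G → List G → V) {ι : Type z} (I : Finset ι) (m : ι → ℤ)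
    (w : ι → List 𝒢) (σ : Perm (Fin N)) : V :=
  (Perm.sign σ : ℤ) • ∑ i ∈ I, m i • JJ θ c (reidx (fun i => (σ i : ℕ)) (w i))

/-- the universal identity -/
theorem universal (q : ℕ) (hq : 0 < q) (η : (ℕ → G) → ℕ → ℚ) (hη : GoodK q η) (n : ℕ)
    (hn : 1 ≤ n) (c : G → List G → V) (hc : Coc (n + 1) c) {ι : Type z} (I : Finset ι)
    (m : ι → ℤ) (w : ι → List 𝒢) (hw : IsLam V n I m w) :
    (q : ℚ) ^ (n + 1) • ∑ i ∈ I, m i • TE θ q (fun _ => η) true c (w i) =
      ∑ ℓ ∈ range (n + 2), (q.choose ℓ) • Sf (n + 1) (Phi θ (n + 1) c I m w) ℓ := by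
  set ε : Bool → (ℕ → G) → ℕ → ℚ := fun f => if f then η else unif q with hε
  have hgood : ∀ f, GoodK q (ε f) := by
    intro f
    cases f
    · exact good_unif q hq
    · exact hη
  have h1 := TE_eq θ q hq ε hgood n hn c hc I m w hw
  have h2 : ∀ w : List 𝒢, TE θ q (fun _ => η) true c w = TE θ q ε true c w := by
    intro w
    unfold TE
    congr 1
    funext P L
    have h3 : ∀ (c : List G → V) (L : List (ℕ → G)),
        hat q (fun _ : Bool => η) c (L.map fun Y => (Y, true)) =
        hat q ε c (L.map fun Y => (Y, true)) := by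
      intro c L
      induction L generalizing c with
      | nil => simp
      | cons Y L ih =>
        rw [List.map_cons, hat_cons, hat_cons]
        apply sum_congr rfl
        intro b _
        rw [ih]
        rfl
    exact h3 _ _
  simp_rw [h2]
  rw [h1]
  have h4 : ∀ i ∈ I, m i • TE θ q ε false c (w i) = ((q : ℚ)⁻¹) ^ (n + 1) •
      ∑ b : Fin (n + 1) → Fin q, m i • (Perm.sign (Tuple.sort b) : ℤ) •
        JJ θ c (reidx (fun i => (Tuple.sort b i : ℕ)) (w i)) := by
    intro i hi
    rw [TE_unif θ q (n + 1) (by omega) ε false rfl c hc.equiv hc.alt (w i) (hw.len i hi),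
      smul_comm, smul_sum]
  rw [sum_congr rfl h4, ← smul_sum, smul_smul, ← mul_pow, mul_inv_cancel₀ (by exact_mod_cast hq.ne'),
    one_pow, one_smul, sum_comm, ← sum_sort]
  apply sum_congr rfl
  intro b _
  rw [Phi, smul_sum]
  apply sum_congr rfl
  intro i _
  rw [smul_comm]

end uniform

end Pool.Agent.W644.CY
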