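import Pool.Agent.W644.CY.Restr

/-!
# The vanishing theorem under local conditions on finitely generated subgroups
-/

set_option autoImplicit false
set_option linter.unusedSectionVars false

namespace Pool.Agent.W644.CY

open Finset Pool.Agent.W644.HK Equiv Function

universe u v w x y z

section one

variable {k : Type u} [CommRing k] {G : Type v} [Group G] {r : Type w} [Fintype r]
  [DecidableEq r] {V : Type x} [AddCommGroup V] [Module k V] {𝒢 : Type y} [Group 𝒢]
  (θ : 𝒢 →ₙ* Matrix r r (MonoidAlgebra k G))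

lemma reidx_one {α : Type*} [One α] (N : ℕ) (l : List α) (hl : l.length = N) :
    reidx (fun i => ((1 : Perm (Fin N)) i : ℕ)) l = l := (eq_ofFn l N hl).symm

lemma Phi_one (N : ℕ) (c : G → List G → V) {ι : Type z} (I : Finset ι) (mu : ι → ℤ)
    (w : ι → List 𝒢) (hlen : ∀ i ∈ I, (w i).length = N) :
    Phi θ N c I mu w 1 = ∑ i ∈ I, mu i • JJ θ c (w i) := by
  rw [Phi, Perm.sign_one, Units.val_one, one_smul]
  apply sum_congr rfl
  intro i hi
  rw [reidx_one N _ (hlen i hi)]

end one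

section van

variable {K : Type u} [Field K] [CharZero K] {G : Type v} [Group G] {r : Type w} [Fintype r]
  [DecidableEq r] {𝒢 : Type y} [Group 𝒢] (θ : 𝒢 →ₙ* Matrix r r (MonoidAlgebra K G))

/-- no nonzero element is divisible by all powers of `p` -/
def PSep (A : Subring K) (p : ℕ) : Prop :=
  ∀ y ∈ A, (∀ a : ℕ, ∃ z ∈ A, y = (p : K) ^ a * z) → y = 0

theorem vanish_core (n : ℕ) (hn : 1 ≤ n) (c : G → (Fin (n + 1) → G) → K) (hc : IsClassCocycle c)
    (A : Subring K) (hcA : ∀ P y, c P y ∈ A)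
    (hG : ∀ H : Subgroup G, H.FG → ∀ g ∈ H, (∃ y, c g y ≠ 0) →
      ∃ p : ℕ, p.Prime ∧ PSep A p ∧ ∃ s : ℕ, ∀ x ∈ H, x ^ p ^ s ≠ g)
    {ι : Type z} (I : Finset ι) (mu : ι → ℤ) (w : ι → List 𝒢) (hw : IsLam K n I mu w)
    (hwA : ∀ i ∈ I, ∀ u ∈ w i, ∀ v ∈ w i, ∀ a b g, (θ (u⁻¹ * v) a b).coeff g ∈ A) :
    ∑ i ∈ I, mu i • JJ θ (cl c) (w i) = 0 := by
  classical
  set B : Finset G := supps θ (insert 1 (diffs I w)) with hB
  set H : Subgroup G := Subgroup.closure (B : Set G) with hH
  have hfg : H.FG := ⟨B, rfl⟩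
  have hsub : ∀ x ∈ insert 1 (diffs I w), θ x ∈ RG K r H := by
    intro x hx
    apply mem_RG
    intro a b g hg
    exact Subgroup.subset_closure (subset_supps θ _ x hx a b hg)
  have h1 : θ 1 ∈ RG K r H := hsub 1 (mem_insert_self _ _)
  have hR : ∀ i ∈ I, ∀ u ∈ w i, ∀ v ∈ w i, u⁻¹ * v ∈ LG θ H h1 := by
    intro i hi u hu v hv
    refine ⟨hsub _ (mem_insert_of_mem (mem_diffs I w i hi u v hu hv)), ?_⟩
    rw [mul_inv_rev, inv_inv]
    exact hsub _ (mem_insert_of_mem (mem_diffs I w i hi v u hv hu))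
  set c1 : H → (Fin (n + 1) → H) → K := fun P y => c P fun i => (y i : G) with hc1
  have hcc : IsClassCocycle c1 := restrict_class c hc
  have hcoc : Coc (n + 1) (cl c1) := coc_cl c1 hcc
  have hlift : ∀ i ∈ I, JJ θ (cl c) (w i) = JJ (thL h1) (cl c1) (wL h1 (w i)) := by
    intro i hi
    exact JJ_lift h1 (w i) (hR i hi) _ _ fun g l => cl_restrict c g l
  set w' : ι → List (LG θ H h1) := fun i => wL h1 (w i) with hw'
  have hlam : IsLam K n I mu w' := isLam_lift h1 I mu w hw hR
  set B' : Finset H := supps (thL h1) (diffs I w') with hB'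
  set Q : Finset (ConjClasses H) := (TN B' (n + 1)).image ConjClasses.mk with hQ
  let S : ConjClasses H → Set H := fun C => {P | ConjClasses.mk P = C}
  have hSc : ∀ C, ∀ x P : H, x * P * x⁻¹ ∈ S C ↔ P ∈ S C := by
    intro C x P
    have h2 : ConjClasses.mk (x * P * x⁻¹) = ConjClasses.mk P := by
      rw [ConjClasses.mk_eq_mk_iff_isConj]
      exact (isConj_iff.2 ⟨x, rfl⟩).symm
    show ConjClasses.mk _ = C ↔ ConjClasses.mk _ = C
    rw [h2]
  have hmem' : ∀ i ∈ I, ∀ u ∈ w' i, ∀ v ∈ w' i, ∃ x ∈ w i, ∃ y ∈ w i,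
      ((u⁻¹ * v : LG θ H h1) : 𝒢) = x⁻¹ * y := by
    intro i hi u hu v hv
    obtain ⟨x, hx, rfl⟩ := List.mem_map.1 hu
    obtain ⟨y, hy, rfl⟩ := List.mem_map.1 hv
    refine ⟨x, hx, y, hy, ?_⟩
    have hne : w i ≠ [] := List.ne_nil_of_mem hx
    have hh : (w i).headD 1 ∈ w i := by
      obtain ⟨b, t, hbt⟩ := List.exists_cons_of_ne_nil hne
      rw [hbt]
      simp
    push_cast
    rw [phiL_val h1 _ (hR i hi _ hh x hx), phiL_val h1 _ (hR i hi _ hh y hy)]
    group
  have hdec : ∀ i ∈ I, JJ (thL h1) (cl c1) (w' i) =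
      ∑ C ∈ Q, JJ (thL h1) (rs (S C) (cl c1)) (w' i) := by
    intro i hi
    rw [← JJ_sum]
    apply JJ_congr_TN (thL h1) B' (w' i)
    · intro x hx a b
      obtain ⟨u, hu, v, hv, rfl⟩ := mem_cw _ x hx
      exact subset_supps _ _ _ (mem_diffs I w' i hi u v hu hv) a b
    · intro P hP l
      rw [hlam.len i hi] at hP
      rw [Finset.sum_eq_single (ConjClasses.mk P)]
      · rw [rs_of_mem]
        rfl
      · intro C _ hC
        exact rs_of_notMem _ _ _ (fun h => hC h.symm) _
      · intro hP'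
        exact absurd (mem_image_of_mem _ hP) hP'
  have hzero : ∀ C ∈ Q, ∑ i ∈ I, mu i • JJ (thL h1) (rs (S C) (cl c1)) (w' i) = 0 := by
    intro C _
    by_cases hex : ∃ P ∈ S C, ∃ y, c1 P y ≠ 0
    · obtain ⟨P, hPC, y, hy⟩ := hex
      obtain ⟨p, hp, hsep, s, hs⟩ := hG H hfg P P.2 ⟨_, hy⟩
      have h2 := bounded_core (thL h1) n hn (rs (S C) (cl c1)) (coc_rs hcoc (S C) (hSc C)) A (by
        intro P' l
        by_cases h : P' ∈ S C
        · rw [rs_of_mem _ _ _ h, cl]
          split_ifs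
          · exact hcA _ _
          · exact A.zero_mem
        · rw [rs_of_notMem _ _ _ h]
          exact A.zero_mem) p hp hsep ⊤ s (by
        intro x _ l
        apply rs_of_notMem
        intro hx
        have h3 : ConjClasses.mk (x ^ p ^ s) = ConjClasses.mk P := by
          rw [show ConjClasses.mk (x ^ p ^ s) = C from hx, show ConjClasses.mk P = C from hPC]
        rw [ConjClasses.mk_eq_mk_iff_isConj, isConj_iff] at h3
        obtain ⟨d, hd⟩ := h3
        apply hs (d * x * d⁻¹ : H) (d * x * d⁻¹ : H).2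
        rw [← hd]
        push_cast
        rw [conj_pow]) I mu w' hlam (fun _ _ _ _ _ _ _ _ _ _ => Subgroup.mem_top _) (by
        intro i hi u hu v hv a b g
        rw [thL_coeff]
        obtain ⟨x, hx, y, hy, hxy⟩ := hmem' i hi u hu v hv
        rw [hxy]
        exact hwA i hi x hx y hy a b _)
      rw [← h2, Phi_one _ _ _ _ _ _ hlam.len]
    · push Not at hex
      apply sum_eq_zero
      intro i _
      have h2 : rs (S C) (cl c1) = fun P l => (0 : ℤ) • cl c1 P l := by
        funext P l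
        rw [zero_smul]
        by_cases h : P ∈ S C
        · rw [rs_of_mem _ _ _ h, cl]
          split_ifs
          · exact hex P h _
          · rfl
        · exact rs_of_notMem _ _ _ h _
      rw [h2, JJ_zsmul, zero_smul, smul_zero]
  calc ∑ i ∈ I, mu i • JJ θ (cl c) (w i)
      = ∑ i ∈ I, ∑ C ∈ Q, mu i • JJ (thL h1) (rs (S C) (cl c1)) (w' i) := by
        apply sum_congr rfl
        intro i hi
        rw [hlift i hi, ← smul_sum, ← hdec i hi]
    _ = 0 := by
        rw [sum_comm]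
        exact sum_eq_zero hzero

end van

end Pool.Agent.W644.CY
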