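import Pool.Agent.W644.HK.Faces

/-!
# Homogeneous cyclic words and the closed path functional
-/

set_option autoImplicit false
set_option linter.unusedSectionVars false

namespace Pool.Agent.W644.CY

open Finset Pool.Agent.W644.HK

universe u v w x y

section words

variable {𝒢 : Type y} [Group 𝒢]

/-- the successive quotients of a list, closed by `e` -/
def cwAux (e : 𝒢) : List 𝒢 → List 𝒢
  | [] => []
  | [a] => [a⁻¹ * e]
  | a :: b :: l => (a⁻¹ * b) :: cwAux e (b :: l)

/-- the cyclic word of letters of a homogeneous word -/
def cw : List 𝒢 → List 𝒢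
  | [] => []
  | a :: l => cwAux a (a :: l)

@[simp] lemma length_cwAux (e : 𝒢) (l : List 𝒢) : (cwAux e l).length = l.length := by
  induction l with
  | nil => rfl
  | cons a l ih =>
    match l with
    | [] => rfl
    | b :: l => rw [cwAux, List.length_cons, ih, List.length_cons, List.length_cons,
        List.length_cons]

@[simp] lemma length_cw (l : List 𝒢) : (cw l).length = l.length := by
  match l with
  | [] => rfl
  | a :: l => rw [cw, length_cwAux]

lemma cwAux_snoc (e a : 𝒢) (l : List 𝒢) : cwAux e (l ++ [a]) = cwAux a l ++ [a⁻¹ * e] := by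
  induction l with
  | nil => rfl
  | cons b l ih =>
    match l with
    | [] => rfl
    | c :: l =>
      simp only [List.cons_append, cwAux] at ih ⊢
      rw [ih]

lemma cwAux_split (l : List 𝒢) (hl : l ≠ []) :
    ∃ l'' c, l''.length + 1 = l.length ∧ ∀ e, cwAux e l = l'' ++ [c⁻¹ * e] := by
  obtain ⟨y, a, rfl⟩ : ∃ y a, l = y ++ [a] :=
    ⟨l.dropLast, l.getLast hl, (List.dropLast_append_getLast hl).symm⟩
  exact ⟨cwAux a y, a, by simp, fun e => cwAux_snoc e a y⟩

lemma cwAux_eraseIdx (e : 𝒢) (l : List 𝒢) (j : ℕ) (hj : j + 1 < l.length) :
    cwAux e (l.eraseIdx (j + 1)) = mg j (cwAux e l) := by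
  induction j generalizing l with
  | zero =>
    match l, hj with
    | [], hj => simp at hj
    | [a], hj => simp at hj
    | [a, b], _ => simp [cwAux]
    | a :: b :: c :: l, _ => simp [cwAux, mul_assoc]
  | succ j ih =>
    match l, hj with
    | [], hj => simp at hj
    | [a], hj => simp at hj
    | a :: b :: l, hj =>
      have h1 := ih (b :: l) (by simpa using hj)
      rw [List.eraseIdx_cons_succ, cwAux, mg_succ_cons, ← h1, List.eraseIdx_cons_succ, cwAux]

lemma cw_eraseIdx_succ (l : List 𝒢) (j : ℕ) (hj : j + 1 < l.length) :
    cw (l.eraseIdx (j + 1)) = mg j (cw l) := by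
  match l, hj with
  | [], hj => simp at hj
  | a :: l, hj =>
    rw [cw, ← cwAux_eraseIdx _ _ _ hj, List.eraseIdx_cons_succ, cw]

lemma prod_cwAux (e a : 𝒢) (l : List 𝒢) : (cwAux e (a :: l)).prod = a⁻¹ * e := by
  induction l generalizing a with
  | nil => simp [cwAux]
  | cons b l ih => rw [cwAux, List.prod_cons, ih]; group

lemma prod_cw (l : List 𝒢) : (cw l).prod = 1 := by
  match l with
  | [] => rfl
  | a :: l => rw [cw, prod_cwAux]; simp

/-- rotation of a word -/
def rot1 {α : Type*} : List α → List α
  | [] => []
  | a :: l => l ++ [a]

@[simp] lemma length_rot1 {α : Type*} (l : List α) : (rot1 l).length = l.length := by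
  match l with
  | [] => rfl
  | a :: l => simp [rot1]

end words

section reidx

variable {α : Type*} [One α]

/-- choosing entries of a list -/
def reidx {m : ℕ} (ι : Fin m → ℕ) (l : List α) : List α := List.ofFn fun i => l.getD (ι i) 1

@[simp] lemma length_reidx {m : ℕ} (ι : Fin m → ℕ) (l : List α) : (reidx ι l).length = m := by
  simp [reidx]

lemma getD_reidx {m : ℕ} (ι : Fin m → ℕ) (l : List α) (t : ℕ) (ht : t < m) :
    (reidx ι l).getD t 1 = l.getD (ι ⟨t, ht⟩) 1 := by
  rw [List.getD_eq_getElem _ _ (by simpa using ht)]
  simp [reidx]

lemma ext_getD (l l' : List α) (h : l.length = l'.length)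
    (h' : ∀ t, t < l.length → l.getD t 1 = l'.getD t 1) : l = l' := by
  apply List.ext_getElem h
  intro i h1 h2
  have := h' i h1
  rwa [List.getD_eq_getElem _ _ h1, List.getD_eq_getElem _ _ h2] at this

lemma getD_eraseIdx' (l : List α) (i k : ℕ) :
    (l.eraseIdx i).getD k 1 = if k < i then l.getD k 1 else l.getD (k + 1) 1 := by
  rw [List.getD_eq_getElem?_getD, List.getElem?_eraseIdx]
  split_ifs <;> rw [List.getD_eq_getElem?_getD]

end reidx

section JJ

variable {k : Type u} [CommRing k] {G : Type v} [Group G] {r : Type w} [Fintype r] [DecidableEq r]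
  {V : Type x} [AddCommGroup V] [Module k V] {𝒢 : Type y} [Group 𝒢]

/-- equivariance on lists of length `n` -/
def Eqv (n : ℕ) (C : G → List G → V) : Prop :=
  ∀ x P l, l.length = n → C (x * P * x⁻¹) (l.map (x * ·)) = C P l

/-- the closed path functional of a homogeneous word -/
noncomputable def JJ (θ : 𝒢 →ₙ* Matrix r r (MonoidAlgebra k G)) (C : G → List G → V)
    (w : List 𝒢) : V := TT (Equiv.refl r) (CF C) ((cw w).map θ)

variable (θ : 𝒢 →ₙ* Matrix r r (MonoidAlgebra k G))

lemma JJ_congr (C C' : G → List G → V) (w : List 𝒢)
    (h : ∀ l : List G, l.length = w.length → C l.prod (pts 1 l) = C' l.prod (pts 1 l)) :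
    JJ θ C w = JJ θ C' w := by
  apply TT_congr
  intro l hl
  exact h l (by simpa using hl)

lemma JJ_congr' (C C' : G → List G → V) (w : List 𝒢)
    (h : ∀ P (l : List G), l.length = w.length → C P l = C' P l) :
    JJ θ C w = JJ θ C' w := by
  apply JJ_congr
  intro l hl
  exact h _ _ (by simpa using hl)

lemma JJ_sub (C C' : G → List G → V) (w : List 𝒢) :
    JJ θ (fun P l => C P l - C' P l) w = JJ θ C w - JJ θ C' w := TT_sub_fun _ _ _ _

lemma JJ_zsmul (c : ℤ) (C : G → List G → V) (w : List 𝒢) :
    JJ θ (fun P l => c • C P l) w = c • JJ θ C w := TT_zsmul_fun _ _ _ _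

lemma JJ_sum {ι : Type*} (I : Finset ι) (C : ι → G → List G → V) (w : List 𝒢) :
    JJ θ (fun P l => ∑ i ∈ I, C i P l) w = ∑ i ∈ I, JJ θ (C i) w := TT_sum_fun _ _ _ _

lemma face_zero' (C : G → List G → V) (l : List G) (hl : 2 ≤ l.length)
    (hC : Eqv (l.length - 1) C) :
    C l.prod ((pts 1 l).eraseIdx 0) = CF C (mg (l.length - 2) (rotl id l)) := by
  match l, hl with
  | [], hl => simp at hl
  | [a], hl => simp at hl
  | h :: b :: l, _ =>
    obtain ⟨l'', c, hc⟩ : ∃ l'' c, b :: l = l'' ++ [c] :=
      ⟨(b :: l).dropLast, (b :: l).getLast (by simp), (List.dropLast_append_getLast (by simp)).symm⟩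
    rw [hc] at hC ⊢
    have hlen : (h :: (l'' ++ [c])).length - 2 = l''.length := by simp
    rw [hlen, rotl, List.append_assoc, List.singleton_append, mg_append_last _ _ _ _ rfl, CF,
      pts_append, pts_cons, List.eraseIdx_cons_zero]
    refine Eq.trans ?_ (hC h _ _ (by simp))
    congr 1
    · simp [mul_assoc]
    · rw [one_mul, pts_append]
      nth_rewrite 1 [← mul_one h]
      rw [pts_mul]
      simp

lemma JJ_erase (C : G → List G → V) (w : List 𝒢) (hw : 2 ≤ w.length)
    (hC : Eqv (w.length - 1) C) (j : ℕ) (hj : j < w.length) :
    JJ θ C (w.eraseIdx j) = JJ θ (fun P l => C P (l.eraseIdx j)) w := by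
  match j, hj with
  | 0, _ =>
    match w, hw with
    | [], hw => simp at hw
    | [a], hw => simp at hw
    | a :: b :: w, _ =>
      obtain ⟨l'', c, hlen, hc⟩ := cwAux_split (b :: w) (by simp)
      have h1 : (cw ((a :: b :: w).eraseIdx 0)) =
          mg w.length (cwAux a (b :: w) ++ [a⁻¹ * b]) := by
        rw [List.eraseIdx_cons_zero, cw, hc b, hc a]
        have h2 : w.length = l''.length := by simpa using hlen.symm
        rw [List.append_assoc, List.singleton_append, mg_append_last _ _ _ _ h2]
        congr 2
        group
      have h3 : cw (a :: b :: w) = (a⁻¹ * b) :: cwAux a (b :: w) := by rw [cw, cwAux]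
      rw [JJ, JJ, h1, h3, map_mg _ (fun a b => map_mul θ a b), TT_mg _ _ _ _ (by simp)]
      rw [List.map_append, List.map_singleton, List.map_cons]
      rw [TT_rotl (Equiv.refl r) (MonoidHom.id G) (θ (a⁻¹ * b)) ((cwAux a (b :: w)).map θ)
        (fun s s' φ => by simp)]
      apply TT_congr
      intro l hl
      have hl' : l.length = w.length + 2 := by simpa using hl
      have := face_zero' C l (by omega) (by rw [hl']; simpa using hC)
      rw [hl'] at this
      exact this.symm
  | j + 1, hj =>
    rw [JJ, JJ, cw_eraseIdx_succ _ _ hj, map_mg _ (fun a b => map_mul θ a b),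
      TT_mg _ _ _ _ (by simpa using hj)]
    apply TT_congr
    intro l hl
    rw [List.length_map, length_cw] at hl
    rw [CF, prod_mg, pts_mg _ _ _ (by omega)]
    rfl

/-- rotation of the points of a quasi-closed path -/
def rotP (P : G) : List G → List G
  | [] => []
  | a :: l => l ++ [P * a]

@[simp] lemma length_rotP (P : G) (l : List G) : (rotP P l).length = l.length := by
  match l with
  | [] => rfl
  | a :: l => simp [rotP]

lemma JJ_rot (C : G → List G → V) (w : List 𝒢) (hC : Eqv w.length C) :
    JJ θ C (rot1 w) = JJ θ (fun P l => C P (rotP P l)) w := by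
  have key : ∀ (h : G) (l : List G), l.length + 1 = w.length →
      CF C (rotl id (h :: l)) = CF (fun P l => C P (rotP P l)) (h :: l) := by
    intro h l hl
    rw [CF, CF, rotl, pts_cons, rotP, pts_append, List.prod_append]
    refine Eq.trans (hC h _ _ (by simpa using hl)).symm ?_
    congr 1
    · simp [mul_assoc]
    · have := pts_mul h 1 l
      rw [mul_one] at this
      rw [List.map_append, ← this]
      simp
  match w with
  | [] =>
    apply TT_congr
    intro l hl
    match l, hl with
    | [], _ => rfl
  | [a] =>
    have h1 : rot1 [a] = [a] := rfl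
    rw [h1, JJ, JJ]
    apply TT_congr
    intro l hl
    match l, hl with
    | [h], _ => exact key h [] rfl
  | a :: b :: w =>
    have h1 : cw (rot1 (a :: b :: w)) = cwAux a (b :: w) ++ [a⁻¹ * b] := by
      rw [rot1, List.cons_append, cw, ← List.cons_append, cwAux_snoc]
    have h3 : cw (a :: b :: w) = (a⁻¹ * b) :: cwAux a (b :: w) := by rw [cw, cwAux]
    rw [JJ, JJ, h1, h3, List.map_append, List.map_singleton, List.map_cons]
    rw [TT_rotl (Equiv.refl r) (MonoidHom.id G) (θ (a⁻¹ * b)) ((cwAux a (b :: w)).map θ)
        (fun s s' φ => by simp)]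
    apply TT_congr
    intro l hl
    match l, hl with
    | h :: l, hl => exact key h l (by simpa using hl)

/-- general index maps -/
lemma JJ_reidx (M : ℕ) : ∀ (m : ℕ) (ι : Fin m → ℕ) (C : G → List G → V) (w : List 𝒢), 1 ≤ m →
    StrictMono ι → (∀ i, ι i < M) → w.length = M → Eqv m C →
    JJ θ C (reidx ι w) = JJ θ (fun P l => C P (reidx ι l)) w := by
  induction M with
  | zero =>
    intro m ι C w hm hι hM hw hC
    exact absurd (hM ⟨0, hm⟩) (by omega)
  | succ M ih =>
    intro m ι C w hm hι hM hw hC
    have hge : ∀ i : Fin m, (i : ℕ) ≤ ι i := by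
      intro i
      obtain ⟨i, hi⟩ := i
      induction i with
      | zero => exact Nat.zero_le _
      | succ i ihi =>
        have h1 := ihi (by omega)
        have h2 : ι ⟨i, by omega⟩ < ι ⟨i + 1, hi⟩ := hι (by simp [Fin.lt_def])
        simp only at h1 ⊢
        omega
    by_cases hall : ∀ j < M + 1, ∃ i, ι i = j
    · have hmM : m = M + 1 := by
        apply le_antisymm
        · by_contra hcon
          push Not at hcon
          have h1 := hge ⟨M + 1, hcon⟩
          have h2 := hM ⟨M + 1, hcon⟩
          simp only at h1
          omega
        · have h1 : (Finset.range (M + 1)) ⊆ Finset.univ.image ι := by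
            intro j hj
            obtain ⟨i, hi⟩ := hall j (Finset.mem_range.1 hj)
            exact Finset.mem_image.2 ⟨i, Finset.mem_univ _, hi⟩
          have h2 := (Finset.card_le_card h1).trans Finset.card_image_le
          simpa using h2
      subst hmM
      have hid : ∀ i, ι i = i := by
        intro i
        have hle : ∀ d : ℕ, ∀ hd : d < M + 1, ι ⟨M - d, by omega⟩ ≤ M - d := by
          intro d
          induction d with
          | zero =>
            intro hd
            have := hM ⟨M - 0, by omega⟩
            omega
          | succ d ihd =>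
            intro hd
            have h1 := ihd (by omega)
            have h2 : ι ⟨M - (d + 1), by omega⟩ < ι ⟨M - d, by omega⟩ := by
              apply hι
              rw [Fin.lt_def]
              simp only
              omega
            omega
        have h3 := hle (M - i) (by omega)
        have h4 := hge i
        have h5 : (⟨M - (M - i), by omega⟩ : Fin (M + 1)) = i := by
          apply Fin.ext
          simp only
          have := i.2
          omega
        rw [h5] at h3
        have := i.2
        omega
      have hre : ∀ {α : Type _} [One α] (l : List α), l.length = M + 1 → reidx ι l = l := by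
        intro α _ l hl
        apply ext_getD
        · simp [hl]
        · intro t ht
          rw [length_reidx] at ht
          rw [getD_reidx _ _ _ ht, hid]
      rw [hre w hw]
      apply JJ_congr'
      intro P l hl
      have hre' : reidx ι l = l := by
        apply ext_getD
        · simp [hl, hw]
        · intro t ht
          rw [length_reidx] at ht
          rw [getD_reidx _ _ _ ht, hid]
      rw [hre']
    · push Not at hall
      obtain ⟨j, hj, hne⟩ := hall
      have hM1 : 1 ≤ M := by
        by_contra hcon
        have hM0 : M = 0 := by omega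
        subst hM0
        have h1 := hM ⟨0, hm⟩
        have h2 := hne ⟨0, hm⟩
        omega
      set ι' : Fin m → ℕ := fun i => if ι i < j then ι i else ι i - 1 with hι'
      have hmono : StrictMono ι' := by
        intro a b hab
        have h1 := hι hab
        have h2 := hne a
        have h3 := hne b
        simp only [hι']
        split_ifs <;> omega
      have hlt : ∀ i, ι' i < M := by
        intro i
        have h1 := hM i
        have h2 := hne i
        simp only [hι']
        split_ifs <;> omega
      have hre : ∀ i, ∀ {α : Type _} [One α] (l : List α),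
          (l.eraseIdx j).getD (ι' i) 1 = l.getD (ι i) 1 := by
        intro i α _ l
        have h2 := hne i
        rw [getD_eraseIdx']
        simp only [hι']
        by_cases h : ι i < j
        · rw [if_pos h, if_pos h]
        · rw [if_neg h, if_neg (by omega)]
          congr 1
          omega
      have hw1 : reidx ι w = reidx ι' (w.eraseIdx j) := by
        unfold reidx
        congr 1
        funext i
        exact (hre i w).symm
      have hlen : (w.eraseIdx j).length = M := by
        rw [List.length_eraseIdx_of_lt (by omega), hw]
        rfl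
      rw [hw1, ih m ι' C (w.eraseIdx j) hm hmono hlt hlen hC, JJ_erase]
      · apply JJ_congr'
        intro P l hl
        have hre' : ∀ i, (l.eraseIdx j).getD (ι' i) 1 = l.getD (ι i) 1 := by
          intro i
          have h2 := hne i
          rw [getD_eraseIdx']
          simp only [hι']
          by_cases h : ι i < j
          · rw [if_pos h, if_pos h]
          · rw [if_neg h, if_neg (by omega)]
            congr 1
            omega
        have : reidx ι' (l.eraseIdx j) = reidx ι l := by
          unfold reidx
          congr 1
          funext i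
          exact hre' i
        rw [this]
      · omega
      · intro x P l hl
        have hl' : l.length = M := by omega
        have : reidx ι' (l.map (x * ·)) = (reidx ι' l).map (x * ·) := by
          unfold reidx
          rw [List.map_ofFn]
          congr 1
          funext i
          have h1 := hlt i
          rw [Function.comp_apply, List.getD_eq_getElem _ _ (by rw [List.length_map]; omega),
            List.getD_eq_getElem _ _ (by omega), List.getElem_map]
        simp only []
        rw [this]
        exact hC x P _ (by simp)
      · omega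

end JJ

end Pool.Agent.W644.CY
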