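import Pool.Agent.W644.CY.Unif

/-!
# Weights concentrated on representatives of orbits
-/

set_option autoImplicit false
set_option linter.unusedSectionVars false

namespace Pool.Agent.W644.CY

open Finset Pool.Agent.W644.HK Equiv Function

universe u v w x y z

section wt

variable {α : Type u} (ρ : α → α) (q : ℕ)

/-- a representative of the orbit -/
noncomputable def rp (x : α) : α :=
  @Classical.epsilon α ⟨x⟩ fun y => ∃ b, y = ρ^[b] x

lemma rp_spec (x : α) : ∃ b, rp ρ x = ρ^[b] x := by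
  have h : ∃ y, ∃ b, y = ρ^[b] x := ⟨x, 0, rfl⟩
  exact @Classical.epsilon_spec α (fun y => ∃ b, y = ρ^[b] x) h

lemma rp_apply (hq : 0 < q) (x : α) (hx : ρ^[q] x = x) : rp ρ (ρ x) = rp ρ x := by
  have h : (fun y => ∃ b, y = ρ^[b] (ρ x)) = fun y => ∃ b, y = ρ^[b] x := by
    funext y
    apply propext
    constructor
    · rintro ⟨b, rfl⟩
      exact ⟨b + 1, (iterate_succ_apply ρ b x).symm⟩
    · rintro ⟨b, rfl⟩
      refine ⟨b + q - 1, ?_⟩
      rw [← iterate_succ_apply ρ, show (b + q - 1).succ = b + q by omega, iterate_add_apply, hx]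
  unfold rp
  exact congrArg (fun P => @Classical.epsilon α ⟨x⟩ P) h

lemma iterate_per (x : α) (hx : ρ^[q] x = x) (b : ℕ) : ρ^[q] (ρ^[b] x) = ρ^[b] x := by
  rw [← iterate_add_apply, add_comm, iterate_add_apply, hx]

lemma rp_iterate (hq : 0 < q) (x : α) (hx : ρ^[q] x = x) (b : ℕ) :
    rp ρ (ρ^[b] x) = rp ρ x := by
  induction b with
  | zero => rfl
  | succ b ih =>
    rw [iterate_succ_apply', rp_apply ρ q hq _ (iterate_per ρ q x hx b), ih]

open Classical in
/-- the weight: the length of the orbit divided by `q` on the representative, `0` elsewhere -/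
noncomputable def wt (x : α) : ℚ := if x = rp ρ x then (minimalPeriod ρ x : ℚ) / q else 0

lemma sum_range_mod {M : Type*} [AddCommMonoid M] (d m : ℕ) (f : ℕ → M) :
    ∑ b ∈ range (d * m), f (b % d) = m • ∑ b ∈ range d, f b := by
  induction m with
  | zero => simp
  | succ m ih =>
    rw [mul_add, mul_one, sum_range_add, ih, add_smul, one_smul]
    congr 1
    apply sum_congr rfl
    intro b hb
    rw [mem_range] at hb
    rw [Nat.mul_add_mod, Nat.mod_eq_of_lt hb]

lemma wt_sum (hq : 0 < q) (x : α) (hx : ρ^[q] x = x) :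
    ∑ b ∈ range q, wt ρ q (ρ^[b] x) = 1 := by
  classical
  have hper : IsPeriodicPt ρ q x := hx
  have hmem : x ∈ periodicPts ρ := mk_mem_periodicPts hq hper
  obtain ⟨j, hj⟩ := rp_spec ρ x
  set d := minimalPeriod ρ x with hd
  have hd0 : 0 < d := minimalPeriod_pos_of_mem_periodicPts hmem
  obtain ⟨m, hm⟩ : d ∣ q := hper.minimalPeriod_dvd
  have h1 : ∀ b ∈ range q, wt ρ q (ρ^[b] x) =
      (fun i => if i = j % d then (d : ℚ) / q else 0) (b % d) := by
    intro b _
    rw [wt, rp_iterate ρ q hq x hx, minimalPeriod_apply_iterate hmem, hj]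
    have h2 : ρ^[b] x = ρ^[j] x ↔ b % d = j % d := by
      rw [← iterate_mod_minimalPeriod_eq (f := ρ) (x := x) (n := b),
        ← iterate_mod_minimalPeriod_eq (f := ρ) (x := x) (n := j)]
      exact iterate_eq_iterate_iff_of_lt_minimalPeriod (Nat.mod_lt _ hd0) (Nat.mod_lt _ hd0)
    simp only [h2]
    rfl
  have h3 := sum_range_mod d m (fun i => if i = j % d then (d : ℚ) / q else 0)
  rw [← hm] at h3
  rw [sum_congr rfl h1]
  refine h3.trans ?_
  rw [sum_ite_eq' (range d) (j % d), if_pos (mem_range.2 (Nat.mod_lt _ hd0)), hm]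
  have hd' : (d : ℚ) ≠ 0 := by exact_mod_cast hd0.ne'
  have hm0 : (m : ℚ) ≠ 0 := by
    intro h
    have : m = 0 := by exact_mod_cast h
    rw [this] at hm
    omega
  rw [nsmul_eq_mul]
  push_cast
  field_simp

lemma wt_val (x : α) (hw : wt ρ q x ≠ 0) :
    wt ρ q x = (minimalPeriod ρ x : ℚ) / q := by
  classical
  rw [wt] at hw ⊢
  split_ifs with h
  · rfl
  · rw [if_neg h] at hw
    exact absurd rfl hw

lemma sum_shift {M : Type*} [AddCommMonoid M] (hq : 0 < q) (L : Finset α)
    (hL : ∀ x ∈ L, ρ x ∈ L) (hper : ∀ x ∈ L, ρ^[q] x = x) (g : α → M) :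
    ∑ x ∈ L, g (ρ x) = ∑ x ∈ L, g x := by
  have hit : ∀ b, ∀ x ∈ L, ρ^[b] x ∈ L := by
    intro b
    induction b with
    | zero => intro x hx; exact hx
    | succ b ih => intro x hx; rw [iterate_succ_apply]; exact ih _ (hL x hx)
  refine sum_nbij ρ hL ?_ ?_ (fun _ _ => rfl)
  · intro x hx y hy hxy
    rw [← hper x hx, ← hper y hy, show q = (q - 1) + 1 by omega, iterate_succ_apply,
      iterate_succ_apply, hxy]
  · intro y hy
    refine ⟨ρ^[q - 1] y, hit _ y hy, ?_⟩
    rw [← iterate_succ_apply' ρ, show (q - 1).succ = q by omega, hper y hy]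

lemma orbit_sum {V : Type*} [AddCommGroup V] [Module ℚ V] (hq : 0 < q) (L : Finset α)
    (hL : ∀ x ∈ L, ρ x ∈ L) (hper : ∀ x ∈ L, ρ^[q] x = x) (f : α → V)
    (hf : ∀ x ∈ L, f (ρ x) = f x) :
    ∑ x ∈ L, f x = ∑ x ∈ L, ((q : ℚ) * wt ρ q x) • f x := by
  have hit : ∀ b, ∀ x ∈ L, ρ^[b] x ∈ L := by
    intro b
    induction b with
    | zero => intro x hx; exact hx
    | succ b ih => intro x hx; rw [iterate_succ_apply]; exact ih _ (hL x hx)
  have hfi : ∀ b, ∀ x ∈ L, f (ρ^[b] x) = f x := by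
    intro b
    induction b with
    | zero => intro x _; rfl
    | succ b ih => intro x hx; rw [iterate_succ_apply, ih _ (hL x hx), hf x hx]
  have h1 : ∀ b, ∑ x ∈ L, wt ρ q (ρ^[b] x) • f (ρ^[b] x) = ∑ x ∈ L, wt ρ q x • f x := by
    intro b
    induction b with
    | zero => rfl
    | succ b ih =>
      rw [← ih, ← sum_shift ρ q hq L hL hper fun x => wt ρ q (ρ^[b] x) • f (ρ^[b] x)]
      apply sum_congr rfl
      intro x _
      rw [iterate_succ_apply]
  calc ∑ x ∈ L, f x = ∑ x ∈ L, ∑ b ∈ range q, wt ρ q (ρ^[b] x) • f x := by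
        apply sum_congr rfl
        intro x hx
        rw [← sum_smul, wt_sum ρ q hq x (hper x hx), one_smul]
    _ = ∑ b ∈ range q, ∑ x ∈ L, wt ρ q (ρ^[b] x) • f (ρ^[b] x) := by
        rw [sum_comm]
        apply sum_congr rfl
        intro b _
        apply sum_congr rfl
        intro x hx
        rw [hfi b x hx]
    _ = ∑ x ∈ L, ((q : ℚ) * wt ρ q x) • f x := by
        simp_rw [h1]
        rw [sum_const, card_range, ← Nat.cast_smul_eq_nsmul ℚ, smul_sum]
        apply sum_congr rfl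
        intro x _
        rw [smul_smul]

end wt

section rk

variable {G : Type v} [Group G]

/-- the shift of sequences -/
def Sh (u : ℕ → G) (b : ℕ) : G := u (b + 1)

lemma Sh_iterate (b : ℕ) (u : ℕ → G) : Sh^[b] u = fun t => u (t + b) := by
  induction b generalizing u with
  | zero => rfl
  | succ b ih =>
    rw [iterate_succ_apply, ih]
    funext t
    show u (t + b + 1) = _
    rfl

/-- the kernel choosing representatives -/
noncomputable def rk (q : ℕ) (u : ℕ → G) (b : ℕ) : ℚ := wt Sh q (Sh^[b] u)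

lemma Sh_per (q : ℕ) (u : ℕ → G) (hu : ∀ b, u (b + q) = u b) : Sh^[q] u = u := by
  rw [Sh_iterate]
  funext t
  exact hu t

lemma good_rk (q : ℕ) (hq : 0 < q) : GoodK (G := G) q (rk q) where
  mass u hu := wt_sum Sh q hq u (Sh_per q u hu)
  shift u _ b := rfl
  per u hu := by
    unfold rk
    rw [Sh_per q u hu]
    rfl

/-- the values of the kernel -/
lemma rk_val (q : ℕ) (hq : 0 < q) (u : ℕ → G) (hu : ∀ b, u (b + q) = u b) (b : ℕ)
    (h : rk q u b ≠ 0) : rk q u b = (minimalPeriod Sh u : ℚ) / q := by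
  unfold rk at h ⊢
  have h1 := Sh_per q u hu
  rw [wt_val Sh q _ h,
    minimalPeriod_apply_iterate (mk_mem_periodicPts hq h1)]

lemma per_dvd (q : ℕ) (u : ℕ → G) (hu : ∀ b, u (b + q) = u b) : minimalPeriod Sh u ∣ q :=
  IsPeriodicPt.minimalPeriod_dvd (Sh_per q u hu)

lemma per_spec (u : ℕ → G) (b : ℕ) : u (b + minimalPeriod Sh u) = u b := by
  have h := iterate_minimalPeriod (f := Sh) (x := u)
  rw [Sh_iterate] at h
  exact congrFun h b

/-- a column whose quotients have period `d` is multiplied by a fixed element after `d` steps -/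
lemma col_period (d : ℕ) (Y : ℕ → G) (hu : ∀ b, uu Y (b + d) = uu Y b) (b : ℕ) :
    Y (b + d) = (Y d * (Y 0)⁻¹) * Y b := by
  induction b with
  | zero => simp
  | succ b ih =>
    have h1 := hu b
    unfold uu at h1
    have h2 : Y (b + 1 + d) = Y (b + d) * ((Y b)⁻¹ * Y (b + 1)) := by
      rw [← h1, mul_inv_cancel_left]
      congr 1
      ring
    rw [h2, ih]
    group

lemma col_pow (d : ℕ) (Y : ℕ → G) (hu : ∀ b, uu Y (b + d) = uu Y b) (m : ℕ) :
    Y (m * d) = (Y d * (Y 0)⁻¹) ^ m * Y 0 := by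
  induction m with
  | zero => simp
  | succ m ih =>
    rw [add_mul, one_mul, col_period d Y hu, ih, pow_succ', ← mul_assoc]

lemma eq_pow_of_period (q d m : ℕ) (hq : q = m * d) (P : G) (Y : ℕ → G) (hY : QP q P Y)
    (hu : ∀ b, uu Y (b + d) = uu Y b) : P = (Y d * (Y 0)⁻¹) ^ m := by
  have h1 := col_pow d Y hu m
  have h2 := hY 0
  rw [zero_add, hq, h1] at h2
  exact (mul_right_cancel h2).symm

end rk

end Pool.Agent.W644.CY
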